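import Mathlib

set_option autoImplicit false
open Set Filter Topology Complex

namespace Pool.Agent.W799.FB

/-- The conformal map `f ζ = ζ (3 - log ζ)`. -/
noncomputable def f (ζ : ℂ) : ℂ := ζ * (3 - Complex.log ζ)

/-- its derivative -/
noncomputable def f' (ζ : ℂ) : ℂ := 2 - Complex.log ζ

lemma hasStrictDerivAt_f {ζ : ℂ} (h : ζ ∈ slitPlane) : HasStrictDerivAt f (f' ζ) ζ := by
  have h0 : ζ ≠ 0 := slitPlane_ne_zero h
  have h1 := (hasStrictDerivAt_id ζ).mul ((Complex.hasStrictDerivAt_log h).const_sub 3)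
  refine (h1.congr_deriv ?_)
  simp only [id, f']
  field_simp
  ring

lemma hasDerivAt_f {ζ : ℂ} (h : ζ ∈ slitPlane) : HasDerivAt f (f' ζ) ζ :=
  (hasStrictDerivAt_f h).hasDerivAt

lemma re_f'_ge {ζ : ℂ} (_h0 : ζ ≠ 0) (h : ‖ζ‖ ≤ 1) : 2 ≤ (f' ζ).re := by
  have : Real.log ‖ζ‖ ≤ 0 := Real.log_nonpos (norm_nonneg _) h
  simp only [f', Complex.sub_re, Complex.log_re]
  norm_num
  linarith

lemma f'_ne_zero {ζ : ℂ} (h0 : ζ ≠ 0) (h : ‖ζ‖ ≤ 1) : f' ζ ≠ 0 := by
  intro h1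
  have := re_f'_ge h0 h
  rw [h1] at this
  norm_num at this

/-- the open half disc -/
def Om : Set ℂ := {ζ | 0 < ζ.re ∧ ‖ζ‖ < 1}

/-- the closed half disc -/
def Omc : Set ℂ := {ζ | 0 ≤ ζ.re ∧ ‖ζ‖ ≤ 1}

lemma isOpen_Om : IsOpen Om :=
  (isOpen_lt continuous_const Complex.continuous_re).inter
    (isOpen_lt continuous_norm continuous_const)

lemma isClosed_Omc : IsClosed Omc :=
  (isClosed_le continuous_const Complex.continuous_re).inter
    (isClosed_le continuous_norm continuous_const)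

lemma isCompact_Omc : IsCompact Omc := by
  refine (isCompact_closedBall (0 : ℂ) 1).of_isClosed_subset isClosed_Omc ?_
  intro z hz
  simpa using hz.2

lemma Om_subset_Omc : Om ⊆ Omc := fun _ h => ⟨h.1.le, h.2.le⟩

lemma Om_slit {ζ : ℂ} (h : ζ ∈ Om) : ζ ∈ slitPlane := Or.inl h.1

lemma Om_ne {ζ : ℂ} (h : ζ ∈ Om) : ζ ≠ 0 := slitPlane_ne_zero (Om_slit h)

lemma Omc_slit {ζ : ℂ} (h : ζ ∈ Omc) (h0 : ζ ≠ 0) : ζ ∈ slitPlane := by
  rw [Complex.mem_slitPlane_iff]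
  rcases h.1.lt_or_eq with h1 | h1
  · exact Or.inl h1
  · right
    intro h2
    exact h0 (Complex.ext h1.symm h2)

lemma convex_Om : Convex ℝ Om := by
  have h1 : Convex ℝ {ζ : ℂ | 0 < ζ.re} := convex_halfSpace_re_gt 0
  have h2 : Convex ℝ {ζ : ℂ | ‖ζ‖ < 1} := by
    have := convex_ball (0 : ℂ) 1
    have h3 : Metric.ball (0 : ℂ) 1 = {ζ : ℂ | ‖ζ‖ < 1} := by
      ext z; simp
    rwa [h3] at this
  exact h1.inter h2

lemma norm_f_zero : f 0 = 0 := by simp [f]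

/-- `f` is continuous on the closed half disc. -/
lemma continuousOn_f : ContinuousOn f Omc := by
  intro ζ hζ
  by_cases h0 : ζ = 0
  · subst h0
    apply ContinuousAt.continuousWithinAt
    rw [ContinuousAt, norm_f_zero]
    rw [tendsto_zero_iff_norm_tendsto_zero]
    have hlim : Tendsto (fun ζ : ℂ => ‖ζ‖ * (3 + Real.pi) + |Real.log ‖ζ‖ * ‖ζ‖|) (𝓝 0) (𝓝 0) := by
      have h1 : Tendsto (fun ζ : ℂ => ‖ζ‖) (𝓝 0) (𝓝 0) := by
        simpa using (continuous_norm (E := ℂ)).tendsto 0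
      have h2 : Tendsto (fun x : ℝ => |Real.log x * x|) (𝓝 0) (𝓝 0) := by
        have h3 : Continuous (fun x : ℝ => x * Real.log x) := Real.continuous_mul_log
        have h4 : Tendsto (fun x : ℝ => x * Real.log x) (𝓝 0) (𝓝 (0 * Real.log 0)) := h3.tendsto 0
        simp only [zero_mul] at h4
        have h5 := h4.abs
        simp only [abs_zero] at h5
        refine h5.congr fun x => ?_
        rw [mul_comm]
      have h6 := (h1.mul_const (3 + Real.pi)).add (h2.comp h1)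
      simpa using h6
    refine squeeze_zero (fun _ => norm_nonneg _) (fun ζ => ?_) hlim
    rw [f, norm_mul]
    have h1 : ‖3 - Complex.log ζ‖ ≤ 3 + (|Real.log ‖ζ‖| + Real.pi) := by
      refine (norm_sub_le _ _).trans ?_
      have : ‖Complex.log ζ‖ ≤ |Real.log ‖ζ‖| + Real.pi := by
        refine (Complex.norm_le_abs_re_add_abs_im _).trans ?_
        rw [Complex.log_re, Complex.log_im]
        gcongr
        exact Complex.abs_arg_le_pi ζ
      have h3 : ‖(3 : ℂ)‖ = 3 := by simp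
      rw [h3]
      gcongr
    calc ‖ζ‖ * ‖3 - Complex.log ζ‖ ≤ ‖ζ‖ * (3 + (|Real.log ‖ζ‖| + Real.pi)) := by gcongr
      _ = ‖ζ‖ * (3 + Real.pi) + |Real.log ‖ζ‖ * ‖ζ‖| := by
        rw [abs_mul, abs_norm]; ring
  · exact (hasDerivAt_f (Omc_slit hζ h0)).continuousAt.continuousWithinAt

/-- Expansion on the open half disc. -/
lemma two_mul_le_Om {a b : ℂ} (ha : a ∈ Om) (hb : b ∈ Om) : 2 * ‖b - a‖ ≤ ‖f b - f a‖ := by
  by_cases hab : b - a = 0
  · rw [hab]; simp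
  have hpos : 0 < ‖b - a‖ := norm_pos_iff.2 hab
  set δ : ℂ := b - a with hδ
  have hseg : ∀ t ∈ Icc (0 : ℝ) 1, a + (t : ℂ) * δ ∈ Om := by
    intro t ht
    have := convex_Om.add_smul_sub_mem ha hb ht
    simpa [hδ] using this
  have hderiv : ∀ t ∈ Icc (0 : ℝ) 1,
      HasDerivAt (fun t : ℝ => (f (a + (t : ℂ) * δ) * (starRingEnd ℂ) δ).re)
        ((f' (a + (t : ℂ) * δ) * δ * (starRingEnd ℂ) δ).re) t := by
    intro t ht
    have h1 : HasDerivAt (fun t : ℝ => a + (t : ℂ) * δ) δ t := by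
      have h2 : HasDerivAt (fun t : ℝ => (t : ℂ)) 1 t := Complex.ofRealCLM.hasDerivAt
      simpa using (h2.mul_const δ).const_add a
    have h3 := (hasDerivAt_f (Om_slit (hseg t ht))).comp_of_eq t h1 rfl
    have h4 := h3.mul_const ((starRingEnd ℂ) δ)
    exact (Complex.reCLM.hasFDerivAt.comp_hasDerivAt t h4)
  have hge : ∀ t ∈ Icc (0 : ℝ) 1, 2 * ‖δ‖ ^ 2 ≤
      (f' (a + (t : ℂ) * δ) * δ * (starRingEnd ℂ) δ).re := by
    intro t ht
    have h1 := re_f'_ge (Om_ne (hseg t ht)) (hseg t ht).2.le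
    rw [mul_assoc, Complex.mul_conj, Complex.normSq_eq_norm_sq, Complex.re_mul_ofReal]
    gcongr
  have h5 := (convex_Icc (0 : ℝ) 1).mul_sub_le_image_sub_of_le_deriv
    (f := fun t : ℝ => (f (a + (t : ℂ) * δ) * (starRingEnd ℂ) δ).re)
    (fun t ht => (hderiv t ht).continuousAt.continuousWithinAt)
    (by
      rw [interior_Icc]
      exact fun t ht => (hderiv t ⟨ht.1.le, ht.2.le⟩).differentiableAt.differentiableWithinAt)
    (C := 2 * ‖δ‖ ^ 2) (by
      rw [interior_Icc]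
      intro t ht
      rw [(hderiv t ⟨ht.1.le, ht.2.le⟩).deriv]
      exact hge t ⟨ht.1.le, ht.2.le⟩) 0 (by simp) 1 (by simp) (by norm_num)
  have h6 : a + ((1 : ℝ) : ℂ) * δ = b := by simp [hδ]
  have h7 : a + ((0 : ℝ) : ℂ) * δ = a := by simp
  simp only [h6, h7] at h5
  rw [← Complex.sub_re, ← sub_mul] at h5
  have h8 : ((f b - f a) * (starRingEnd ℂ) δ).re ≤ ‖f b - f a‖ * ‖δ‖ := by
    refine (Complex.re_le_norm _).trans ?_
    rw [norm_mul, RCLike.norm_conj]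
  have h9 : 2 * ‖δ‖ * ‖δ‖ ≤ ‖f b - f a‖ * ‖δ‖ := by nlinarith
  exact le_of_mul_le_mul_right h9 hpos

lemma Omc_subset_closure : Omc ⊆ closure Om := by
  intro z hz
  rw [mem_closure_iff_seq_limit]
  refine ⟨fun n : ℕ => (1 - 1 / ((n : ℝ) + 2) : ℝ) • z + ((1 / (2 * ((n : ℝ) + 2)) : ℝ) : ℂ), ?_, ?_⟩
  · intro n
    have hn : (0 : ℝ) < (n : ℝ) + 2 := by positivity
    have h1 : 0 < 1 / (2 * ((n : ℝ) + 2)) := by positivity
    have h2 : 0 < 1 - 1 / ((n : ℝ) + 2) := by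
      rw [sub_pos, div_lt_one hn]; linarith [(Nat.cast_nonneg n : (0 : ℝ) ≤ n)]
    constructor
    · simp only [Complex.add_re, Complex.ofReal_re, Complex.real_smul, Complex.re_ofReal_mul]
      have := hz.1
      have := mul_nonneg h2.le this
      linarith
    · refine (norm_add_le _ _).trans_lt ?_
      rw [norm_smul, Real.norm_of_nonneg h2.le, Complex.norm_real, Real.norm_of_nonneg h1.le]
      have h3 : (1 - 1 / ((n : ℝ) + 2)) * ‖z‖ ≤ (1 - 1 / ((n : ℝ) + 2)) * 1 := by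
        gcongr; exact hz.2
      have h4 : 1 / (2 * ((n : ℝ) + 2)) < 1 / ((n : ℝ) + 2) := by
        apply one_div_lt_one_div_of_lt hn; linarith
      linarith
  · have h0 : Tendsto (fun n : ℕ => (n : ℝ) + 2) atTop atTop :=
      tendsto_atTop_add_const_right _ _ tendsto_natCast_atTop_atTop
    have h1 : Tendsto (fun n : ℕ => 1 / ((n : ℝ) + 2)) atTop (𝓝 0) :=
      tendsto_const_nhds.div_atTop h0
    have h2 : Tendsto (fun n : ℕ => 1 / (2 * ((n : ℝ) + 2))) atTop (𝓝 0) := by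
      have := h1.mul_const (1 / 2 : ℝ)
      simp only [zero_mul] at this
      refine this.congr fun n => ?_
      field_simp
    have h3 : Tendsto (fun n : ℕ => (1 - 1 / ((n : ℝ) + 2) : ℝ) • z) atTop (𝓝 ((1 - 0 : ℝ) • z)) :=
      (tendsto_const_nhds.sub h1).smul_const z
    have h4 : Tendsto (fun n : ℕ => ((1 / (2 * ((n : ℝ) + 2)) : ℝ) : ℂ)) atTop (𝓝 ((0 : ℝ) : ℂ)) :=
      (Complex.continuous_ofReal.tendsto 0).comp h2
    simpa using h3.add h4

lemma two_mul_le {a b : ℂ} (ha : a ∈ Omc) (hb : b ∈ Omc) : 2 * ‖b - a‖ ≤ ‖f b - f a‖ := by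
  obtain ⟨x, hx, hxa⟩ := mem_closure_iff_seq_limit.1 (Omc_subset_closure ha)
  obtain ⟨y, hy, hyb⟩ := mem_closure_iff_seq_limit.1 (Omc_subset_closure hb)
  have hfx : Tendsto (fun n => f (x n)) atTop (𝓝 (f a)) :=
    (continuousOn_f a ha).tendsto.comp
      (tendsto_nhdsWithin_iff.2 ⟨hxa, Eventually.of_forall fun n => Om_subset_Omc (hx n)⟩)
  have hfy : Tendsto (fun n => f (y n)) atTop (𝓝 (f b)) :=
    (continuousOn_f b hb).tendsto.comp
      (tendsto_nhdsWithin_iff.2 ⟨hyb, Eventually.of_forall fun n => Om_subset_Omc (hy n)⟩)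
  exact le_of_tendsto_of_tendsto' ((hyb.sub hxa).norm.const_mul 2) (hfy.sub hfx).norm
    fun n => two_mul_le_Om (hx n) (hy n)

lemma injOn_f : InjOn f Omc := by
  intro a ha b hb h
  have h1 := two_mul_le ha hb
  rw [h, sub_self, norm_zero] at h1
  have h2 : ‖b - a‖ ≤ 0 := by linarith
  have h3 : b - a = 0 := norm_le_zero_iff.1 h2
  exact (sub_eq_zero.1 h3).symm

/-- on the outer arc the image is far away -/
lemma norm_f_arc {ζ : ℂ} (h : ‖ζ‖ = 1) : 3 ≤ ‖f ζ‖ := by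
  rw [f, norm_mul, h, one_mul]
  refine le_trans ?_ (Complex.re_le_norm _)
  simp [Complex.log_re, h]

lemma isOpen_image : IsOpen (f '' Om) := by
  rw [isOpen_iff_mem_nhds]
  rintro _ ⟨ζ, hζ, rfl⟩
  rw [← (hasStrictDerivAt_f (Om_slit hζ)).map_nhds_eq (f'_ne_zero (Om_ne hζ) hζ.2.le)]
  exact image_mem_map (isOpen_Om.mem_nhds hζ)

end Pool.Agent.W799.FB
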