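import Pool.Agent.W799.FBPot

set_option autoImplicit false
open Set Filter Topology Complex

namespace Pool.Agent.W799.FB

lemma norm_path_lt {z w : ℂ} (hz : ‖z‖ < 2) (hw : ‖w‖ < 2) {t : ℝ} (h0 : 0 ≤ t) (h1 : t ≤ 1) :
    ‖z + t • (w - z)‖ < 2 := by
  have h := (convex_ball (0 : ℂ) 2).add_smul_sub_mem (mem_ball_zero_iff.2 hz)
    (mem_ball_zero_iff.2 hw) (t := t) ⟨h0, h1⟩
  simpa using h

/-- a segment from a point off `W` to a point of `W` crosses the curve -/
lemma exists_cross {z w : ℂ} (hz : ‖z‖ < 2) (hzW : z ∉ W) (hw : w ∈ W) :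
    ∃ p : ℂ, ‖p‖ < 2 ∧ p.re = h p.im ∧ ‖w - p‖ ≤ ‖w - z‖ := by
  have hzc : z.re ≤ h z.im := by
    by_contra hc
    exact hzW ⟨hz, not_le.1 hc⟩
  let F : ℝ → ℝ := fun t => (z + t • (w - z)).re - h (z + t • (w - z)).im
  have hF : Continuous F := by
    have h1 : Continuous fun t : ℝ => z + t • (w - z) := by fun_prop
    exact (Complex.continuous_re.comp h1).sub (continuous_h.comp (Complex.continuous_im.comp h1))
  have h0 : F 0 ≤ 0 := by simp only [F, zero_smul, add_zero]; linarith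
  have h1 : 0 ≤ F 1 := by
    simp only [F, one_smul, add_sub_cancel]; linarith [hw.2]
  obtain ⟨t, ht, htF⟩ := intermediate_value_Icc (zero_le_one (α := ℝ)) hF.continuousOn ⟨h0, h1⟩
  refine ⟨z + t • (w - z), norm_path_lt hz hw.1 ht.1 ht.2, by simp only [F] at htF; linarith, ?_⟩
  have : w - (z + t • (w - z)) = (1 - t) • (w - z) := by rw [sub_smul, one_smul]; abel
  rw [this, norm_smul, Real.norm_of_nonneg (by linarith [ht.2])]
  have h3 : 1 - t ≤ 1 := by linarith [ht.1]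
  calc (1 - t) * ‖w - z‖ ≤ 1 * ‖w - z‖ := by gcongr
    _ = ‖w - z‖ := one_mul _

lemma norm_gamma_le_curve {w p : ℂ} (hw : w ∈ W) (hp : ‖p‖ < 2) (hpc : p.re = h p.im) :
    ‖γ w‖ ≤ 4 * ‖w - p‖ := by
  obtain ⟨ζ, h0, h1, rfl⟩ := exists_axis (im_le_three hp) hpc
  exact gamma_bdry hw h0 h1 hp.le

lemma norm_gamma_le {z w : ℂ} (hz : ‖z‖ < 2) (hzW : z ∉ W) (hw : w ∈ W) :
    ‖γ w‖ ≤ 4 * ‖w - z‖ := by
  obtain ⟨p, hp, hpc, hd⟩ := exists_cross hz hzW hw
  have := norm_gamma_le_curve hw hp hpc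
  linarith

/-- the complex gradient is Lipschitz on the disc of radius two -/
lemma g_lip {z w : ℂ} (hz : ‖z‖ < 2) (hw : ‖w‖ < 2) : ‖g w - g z‖ ≤ 4 * ‖w - z‖ := by
  by_cases h1 : z ∈ W <;> by_cases h2 : w ∈ W
  · rw [g, g, if_pos h1, if_pos h2]; exact gamma_lip h1 h2
  · rw [g, g, if_pos h1, if_neg h2, zero_sub, norm_neg, norm_sub_rev]
    exact norm_gamma_le hw h2 h1
  · rw [g, g, if_neg h1, if_pos h2, sub_zero]
    exact norm_gamma_le hz h1 h2
  · rw [g, g, if_neg h1, if_neg h2]; simp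

lemma norm_ℓ_le (c : ℂ) : ‖ℓ c‖ ≤ ‖c‖ := by
  refine ContinuousLinearMap.opNorm_le_bound _ (norm_nonneg _) fun v => ?_
  rw [ℓ_apply, Real.norm_eq_abs]
  refine (Complex.abs_re_le_norm _).trans ?_
  rw [norm_mul]

lemma tendsto_U {α : Type} {l : Filter α} {a b : α → ℂ} {z ζ : ℂ} (ha : Tendsto a l (𝓝 z))
    (hb : Tendsto b l (𝓝 ζ)) : Tendsto (fun t => U (a t) (b t)) l (𝓝 (U z ζ)) := by
  have h1 : Tendsto (fun p : ℂ × ℂ => U p.1 p.2) (𝓝 (z, ζ)) (𝓝 (U z ζ)) :=
    continuous_U.tendsto (z, ζ)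
  have h2 : Tendsto (fun t => (a t, b t)) l (𝓝 (z, ζ)) := ha.prodMk_nhds hb
  have h3 := h1.comp h2
  simpa only [Function.comp_def] using h3

lemma u_bdry_le {z w : ℂ} (hz : ‖z‖ < 2) (hzc : z.re = h z.im) (hw : w ∈ W) :
    |u w| ≤ 4 * ‖w - z‖ * ‖w - z‖ := by
  obtain ⟨ζ, hζ0, hζ1, hζf⟩ := exists_axis (im_le_three hz) hzc
  have hζO : ζ ∈ Omc := ⟨hζ0.ge, hζ1⟩
  let p : ℝ → ℂ := fun t => z + t • (w - z)
  have hpW : ∀ t ∈ Ioc (0 : ℝ) 1, p t ∈ W := by
    intro t ht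
    refine ⟨norm_path_lt hz hw.1 ht.1.le ht.2, ?_⟩
    have e1 : (p t).im = (1 - t) * z.im + t * w.im := by simp [p]; ring
    have e2 : (p t).re = (1 - t) * z.re + t * w.re := by simp [p]; ring
    rw [e1, e2]
    have h3 := h_convex (im_le_three hz) (im_le_three hw.1) (sub_nonneg.2 ht.2) ht.1.le
      (by ring : (1 - t) + t = 1)
    have h4 := mul_lt_mul_of_pos_left hw.2 ht.1
    rw [hzc]
    linarith
  have hpc : Continuous p := by fun_prop
  have hp0 : p 0 = z := by simp [p]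
  -- the estimate on the part of the segment inside
  have hmain : ∀ t ∈ Ioc (0 : ℝ) 1, |u w - u (p t)| ≤ 4 * ‖w - z‖ * ‖w - z‖ := by
    intro t ht
    have hconv : Convex ℝ (W ∩ Metric.closedBall z ‖w - z‖) :=
      convex_W.inter (convex_closedBall _ _)
    have hpt : ‖p t - z‖ ≤ ‖w - z‖ := by
      simp only [p, add_sub_cancel_left, norm_smul, Real.norm_of_nonneg ht.1.le]
      calc t * ‖w - z‖ ≤ 1 * ‖w - z‖ := by gcongr; exact ht.2
        _ = ‖w - z‖ := one_mul _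
    have h5 := hconv.norm_image_sub_le_of_norm_hasFDerivWithin_le (f := u)
      (f' := fun x => ℓ (g x)) (C := 4 * ‖w - z‖)
      (fun x hx => (hasFDerivAt_u_in hx.1).hasFDerivWithinAt)
      (fun x hx => by
        refine (norm_ℓ_le _).trans ?_
        rw [g, if_pos hx.1]
        refine (norm_gamma_le_curve hx.1 hz hzc).trans ?_
        have := hx.2
        rw [mem_closedBall_iff_norm] at this
        gcongr)
      (x := p t) ⟨hpW t ht, by rw [mem_closedBall_iff_norm]; exact hpt⟩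
      (y := w) ⟨hw, by rw [mem_closedBall_iff_norm]⟩
    rw [Real.norm_eq_abs] at h5
    refine h5.trans ?_
    have h6 : w - p t = (1 - t) • (w - z) := by simp only [p]; rw [sub_smul, one_smul]; abel
    have h7 : ‖w - p t‖ ≤ ‖w - z‖ := by
      rw [h6, norm_smul, Real.norm_of_nonneg (by linarith [ht.2])]
      calc (1 - t) * ‖w - z‖ ≤ 1 * ‖w - z‖ := by gcongr; linarith [ht.1]
        _ = ‖w - z‖ := one_mul _
    gcongr
  -- the limit at the boundary point
  have hlim : Tendsto (fun t => u (p t)) (𝓝[>] 0) (𝓝 0) := by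
    have h1 : Tendsto p (𝓝[>] 0) (𝓝 z) := by
      have := hpc.tendsto 0
      rw [hp0] at this
      exact this.mono_left nhdsWithin_le_nhds
    have hev : ∀ᶠ t in 𝓝[>] (0 : ℝ), t ∈ Ioc (0 : ℝ) 1 := Ioc_mem_nhdsGT one_pos
    have h2 : Tendsto (fun t => Z (p t)) (𝓝[>] 0) (𝓝 ζ) := by
      rw [tendsto_iff_norm_sub_tendsto_zero]
      have h3 : Tendsto (fun t => ‖p t - z‖) (𝓝[>] 0) (𝓝 0) :=
        tendsto_iff_norm_sub_tendsto_zero.1 h1
      refine squeeze_zero' (Eventually.of_forall fun _ => norm_nonneg _) ?_ h3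
      filter_upwards [hev] with t ht
      have := Z_lip_bdry (hpW t ht) hζO
      rw [hζf] at this
      linarith [norm_nonneg (Z (p t) - ζ)]
    have h4 : Tendsto (fun t => U (p t) (Z (p t))) (𝓝[>] 0) (𝓝 (U z ζ)) :=
      tendsto_U h1 h2
    have h5 : U z ζ = 0 := by rw [← hζf]; exact U_axis hζ0
    rw [h5] at h4
    refine h4.congr' ?_
    filter_upwards [hev] with t ht
    rw [u, if_pos (hpW t ht)]
  have h8 : Tendsto (fun t => |u w - u (p t)|) (𝓝[>] 0) (𝓝 |u w - 0|) :=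
    (tendsto_const_nhds.sub hlim).abs
  rw [sub_zero] at h8
  refine le_of_tendsto h8 ?_
  filter_upwards [Ioc_mem_nhdsGT (zero_lt_one (α := ℝ))] with t ht using hmain t ht

lemma hasFDerivAt_u {z : ℂ} (hz : ‖z‖ < 2) : HasFDerivAt u (ℓ (g z)) z := by
  by_cases hW : z ∈ W
  · exact hasFDerivAt_u_in hW
  have hg : ℓ (g z) = 0 := by
    ext v
    simp [ℓ_apply, g, hW]
  rw [hg]
  have hball : Metric.ball (0 : ℂ) 2 ∈ 𝓝 z := Metric.isOpen_ball.mem_nhds (mem_ball_zero_iff.2 hz)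
  have huz : u z = 0 := if_neg hW
  by_cases hc : z.re = h z.im
  · apply Asymptotics.IsBigO.hasFDerivAt (n := 2) _ (by norm_num)
    apply Asymptotics.IsBigO.of_bound 4
    filter_upwards with w
    rw [Real.norm_eq_abs, norm_pow, norm_norm]
    by_cases hw : w ∈ W
    · refine (u_bdry_le hz hc hw).trans (le_of_eq (by ring))
    · rw [u, if_neg hw, abs_zero]; positivity
  · have hlt : z.re < h z.im := by
      by_contra hge
      exact hW ⟨hz, lt_of_le_of_ne (not_lt.1 hge) (Ne.symm hc)⟩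
    have hopen : IsOpen {w : ℂ | w.re < h w.im} :=
      isOpen_lt Complex.continuous_re (continuous_h.comp Complex.continuous_im)
    refine (hasFDerivAt_const (0 : ℝ) z).congr_of_eventuallyEq ?_
    filter_upwards [hopen.mem_nhds hlt] with w hw
    rw [u, if_neg]
    exact fun hwW => absurd hwW.2 (not_lt.2 (le_of_lt hw))

/-- derivative of the complex gradient inside -/
lemma hasFDerivAt_g_in {z : ℂ} (hz : z ∈ W) :
    ∃ q' : ℂ, HasFDerivAt g ((Complex.reCLM.smulRight (z.re : ℂ)) +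
      (ContinuousLinearMap.mul ℝ ℂ q')) z := by
  have h1 := hasDerivAt_Z hz
  have h2 : HasDerivAt q (((Real.pi ^ 2 / 8 : ℝ) : ℂ) * (2 * Z z * (f' (Z z))⁻¹)) z := by
    have := (h1.pow 2).const_mul ((Real.pi ^ 2 / 8 : ℝ) : ℂ)
    refine this.congr_deriv ?_
    simp
  refine ⟨((Real.pi ^ 2 / 8 : ℝ) : ℂ) * (2 * Z z * (f' (Z z))⁻¹), ?_⟩
  have a1 : HasFDerivAt (fun z : ℂ => ((z.re ^ 2 / 2 : ℝ) : ℂ))
      (Complex.reCLM.smulRight (z.re : ℂ)) z := by
    have b1 : HasFDerivAt (fun z : ℂ => z.re) Complex.reCLM z := Complex.reCLM.hasFDerivAt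
    have b2 := (b1.pow 2).mul_const (1 / 2 : ℝ)
    have b3 := Complex.ofRealCLM.hasFDerivAt.comp z b2
    refine HasFDerivAt.congr_fderiv (b3.congr_of_eventuallyEq ?_) ?_
    · exact Eventually.of_forall fun w => by simp; ring
    · ext v
      simp
      ring
  have a2 := h2.hasFDerivAt.restrictScalars ℝ
  have a3 := a1.add a2
  refine HasFDerivAt.congr_fderiv (a3.congr_of_eventuallyEq ?_) ?_
  · filter_upwards [isOpen_W.mem_nhds hz] with w hw
    rw [g, if_pos hw]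
    rfl
  · ext v
    simp
    ring

end Pool.Agent.W799.FB
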