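import Pool.Agent.W799.FBWeak

set_option autoImplicit false
open Set Filter Topology Complex MeasureTheory Metric

namespace Pool.Agent.W799.FB

lemma exists_ext_g (v : E) : ∃ (K : NNReal) (Gt : E → ℝ), LipschitzWith K Gt ∧
    EqOn (fun y => gE y v) Gt (ball (0 : E) 2) := by
  have h1 : LipschitzOnWith (4 * ‖v‖₊) (fun y => gE y v) (ball (0 : E) 2) := by
    apply LipschitzOnWith.of_dist_le_mul
    intro x hx y hy
    have h2 := gE_lip.dist_le_mul x hx y hy
    rw [dist_eq_norm] at h2 ⊢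
    rw [← sub_apply]
    refine ((gE x - gE y).le_opNorm v).trans ?_
    push_cast at h2 ⊢
    calc ‖gE x - gE y‖ * ‖v‖ ≤ (4 * dist x y) * ‖v‖ := by gcongr
      _ = 4 * ‖v‖ * dist x y := by ring
  obtain ⟨Gt, h3, h4⟩ := h1.extend_real
  exact ⟨_, Gt, h3, h4⟩

/-- the equation in the weak form -/
theorem weak_eq (φ : E → ℝ) (hφ : ContDiff ℝ 2 φ) (hc : HasCompactSupport φ)
    (hs : tsupport φ ⊆ ball (0 : E) 2) :
    ∫ x, uE x * (∑ i : Fin 2,
        fderiv ℝ (fun y => fderiv ℝ φ y (EuclideanSpace.single i (1 : ℝ))) x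
          (EuclideanSpace.single i (1 : ℝ)))
      = ∫ x, x 0 * D.indicator (fun _ => (1 : ℝ)) x * φ x := by
  obtain ⟨ut, hut, hutE⟩ := uE_lip.extend_real
  obtain ⟨K0, G0, hG0, hG0E⟩ := exists_ext_g (EuclideanSpace.single 0 (1 : ℝ))
  obtain ⟨K1, G1, hG1, hG1E⟩ := exists_ext_g (EuclideanSpace.single 1 (1 : ℝ))
  have s0 := step φ hφ hc hs _ hut hutE hG0 hG0E
  have s1 := step φ hφ hc hs _ hut hutE hG1 hG1E
  have hint : ∀ v : E, Integrable (fun x => uE x * fderiv ℝ (fun y => fderiv ℝ φ y v) x v) := by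
    intro v
    have hψ : ContDiff ℝ 1 (fun y => fderiv ℝ φ y v) :=
      (hφ.fderiv_right (m := 1) (by norm_num)).clm_apply contDiff_const
    have hψ2 : Continuous (fun x => fderiv ℝ (fun y => fderiv ℝ φ y v) x v) :=
      (hψ.continuous_fderiv (by norm_num)).clm_apply continuous_const
    have hψc : HasCompactSupport (fun y => fderiv ℝ φ y v) := hc.fderiv_apply (𝕜 := ℝ) v
    have hψc2 : HasCompactSupport (fun x => fderiv ℝ (fun y => fderiv ℝ φ y v) x v) :=
      hψc.fderiv_apply (𝕜 := ℝ) v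
    have h1 : (fun x => uE x * fderiv ℝ (fun y => fderiv ℝ φ y v) x v) =
        fun x => ut x * fderiv ℝ (fun y => fderiv ℝ φ y v) x v := by
      funext x
      by_cases hx : x ∈ ball (0 : E) 2
      · rw [hutE hx]
      · have h2 : x ∉ tsupport (fderiv ℝ (fun y => fderiv ℝ φ y v)) := fun h3 =>
          hx (hs ((tsupport_fderiv_apply_subset ℝ v) (tsupport_fderiv_subset ℝ h3)))
        rw [image_eq_zero_of_notMem_tsupport h2]
        simp
    rw [h1]
    exact (hut.continuous.mul hψ2).integrable_of_hasCompactSupport hψc2.mul_left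
  have hint2 : ∀ (K : NNReal) (G : E → ℝ) (v : E), LipschitzWith K G →
      Integrable (fun x => lineDeriv ℝ G x v * φ x) := by
    intro K G v hG
    exact (hG.locallyIntegrable_lineDeriv v).integrable_smul_right_of_hasCompactSupport
      hφ.continuous hc
  have e1 : ∫ x, uE x * (∑ i : Fin 2,
        fderiv ℝ (fun y => fderiv ℝ φ y (EuclideanSpace.single i (1 : ℝ))) x
          (EuclideanSpace.single i (1 : ℝ))) =
      ∫ x, (lineDeriv ℝ G0 x (EuclideanSpace.single 0 (1 : ℝ)) +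
        lineDeriv ℝ G1 x (EuclideanSpace.single 1 (1 : ℝ))) * φ x := by
    simp only [Fin.sum_univ_two, mul_add, add_mul]
    rw [integral_add (hint _) (hint _), integral_add (hint2 _ _ _ hG0) (hint2 _ _ _ hG1), s0, s1]
  rw [e1]
  apply integral_congr_ae
  have hnull : ∀ᵐ x : E, x ∉ {x : E | ‖x‖ < 2 ∧ x 0 = h (x 1)} :=
    measure_eq_zero_iff_ae_notMem.1 curve_null
  filter_upwards [hnull] with x hx
  by_cases hb : x ∈ ball (0 : E) 2
  · rw [← lineDeriv_congr_ball hG0E hb, ← lineDeriv_congr_ball hG1E hb]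
    have hb' : ‖x‖ < 2 := mem_ball_zero_iff.1 hb
    rcases lt_trichotomy (x 0) (h (x 1)) with h1 | h1 | h1
    · rw [div_out h1, indicator_of_notMem (show x ∉ D from fun h2 => absurd h2 (not_lt.2 h1.le))]
      simp
    · exact absurd ⟨hb', h1⟩ hx
    · rw [div_in (mem_WE.2 ⟨hb', h1⟩), indicator_of_mem (show x ∈ D from h1)]
      simp
  · have h2 : x ∉ tsupport φ := fun h3 => hb (hs h3)
    rw [image_eq_zero_of_notMem_tsupport h2]
    simp

lemma frontier_D : frontier D = {x : E | x 0 = h (x 1)} := by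
  have hcont : Continuous (fun x : E => h (x 1)) := continuous_h.comp (by fun_prop)
  apply Subset.antisymm
  · have := frontier_lt_subset_eq hcont (show Continuous (fun x : E => x 0) by fun_prop)
    exact fun x hx => (this hx).symm
  · intro x hx
    have hx' : x 0 = h (x 1) := hx
    have hopen : IsOpen D := isOpen_lt hcont (by fun_prop)
    rw [frontier, hopen.interior_eq]
    refine ⟨?_, fun h1 => ?_⟩
    · rw [mem_closure_iff_nhds]
      intro t ht
      obtain ⟨ε, hε, hball⟩ := Metric.mem_nhds_iff.1 ht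
      refine ⟨x + EuclideanSpace.single 0 (ε / 2), hball ?_, ?_⟩
      · rw [mem_ball_iff_norm, add_sub_cancel_left, PiLp.norm_single,
          Real.norm_of_nonneg (by positivity)]
        linarith
      · show h ((x + EuclideanSpace.single 0 (ε / 2) : E) 1) <
          (x + EuclideanSpace.single 0 (ε / 2) : E) 0
        simp [← hx', hε]
    · have : h (x 1) < x 0 := h1
      linarith

lemma isOpen_D : IsOpen D := isOpen_lt (continuous_h.comp (by fun_prop)) (by fun_prop)

lemma uE_zero {x : E} (hx : x ∉ D) : uE x = 0 := by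
  rw [uE, u, if_neg]
  intro hW
  exact hx (mem_WE.1 hW).2

/-! ### regularity of the boundary graph -/

lemma h_even (y : ℝ) : h (-y) = h y := by simp [h]

lemma T_pos {y : ℝ} (h0 : 0 < y) (h3 : y ≤ 3) : 0 < T y := by
  have m : y ∈ Icc (0 : ℝ) 3 := ⟨h0.le, h3⟩
  rcases (T_mem m).1.lt_or_eq with h1 | h1
  · exact h1
  · have := s_T m
    rw [← h1, s_zero] at this
    linarith

lemma two_sub_log_T {y : ℝ} (hy : y ∈ Icc (0 : ℝ) 3) : 2 ≤ 2 - Real.log (T y) := by
  have := Real.log_nonpos (T_mem hy).1 (T_mem hy).2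
  linarith

lemma continuousOn_T : ContinuousOn T (Icc 0 3) := by
  have : LipschitzOnWith 1 T (Icc 0 3) := by
    apply LipschitzOnWith.of_dist_le_mul
    intro a ha b hb
    have := T_abs_lip hb ha
    rw [Real.dist_eq, Real.dist_eq]
    push_cast
    linarith [abs_nonneg (T a - T b)]
  exact this.continuousOn

lemma hasDerivAt_T {y : ℝ} (h0 : 0 < y) (h3 : y < 3) :
    HasDerivAt T (2 - Real.log (T y))⁻¹ y := by
  have hn : Icc (0 : ℝ) 3 ∈ 𝓝 y := Icc_mem_nhds h0 h3
  have hm : y ∈ Icc (0 : ℝ) 3 := ⟨h0.le, h3.le⟩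
  refine HasDerivAt.of_local_left_inverse (continuousOn_T.continuousAt hn)
    (hasDerivAt_s (T_pos h0 h3.le).ne') ?_ ?_
  · have := two_sub_log_T hm
    linarith
  · filter_upwards [hn] with z hz using s_T hz

/-- the derivative of `h` -/
noncomputable def h' (y : ℝ) : ℝ :=
  if 0 < y then Real.pi / 2 * (2 - Real.log (T y))⁻¹
  else if y < 0 then -(Real.pi / 2 * (2 - Real.log (T (-y)))⁻¹) else 0

lemma hasDerivAt_h_pos {y : ℝ} (h0 : 0 < y) (h3 : y < 3) :
    HasDerivAt h (Real.pi / 2 * (2 - Real.log (T y))⁻¹) y := by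
  refine ((hasDerivAt_T h0 h3).const_mul (Real.pi / 2)).congr_of_eventuallyEq ?_
  filter_upwards [Icc_mem_nhds h0 h3] with z hz
  rw [h_eq (by rw [abs_of_nonneg hz.1]; exact hz.2), abs_of_nonneg hz.1]

/-- the basic logarithmic upper bound -/
lemma T_le_log {y : ℝ} (h0 : 0 < y) (h1 : y < 1) : T y ≤ y * (2 - Real.log y)⁻¹ := by
  have hm : y ∈ Icc (0 : ℝ) 3 := ⟨h0.le, by linarith⟩
  have hp := T_pos h0 (by linarith)
  have h2 : T y ≤ y := by
    have := T_lip le_rfl h0.le (by linarith : y ≤ 3)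
    rw [T_zero] at this
    linarith
  have h3 : Real.log (T y) ≤ Real.log y := Real.log_le_log hp h2
  have h4 : Real.log y < 0 := Real.log_neg h0 h1
  have h5 : T y * (3 - Real.log (T y)) = y := s_T hm
  rw [← div_eq_mul_inv, le_div_iff₀ (by linarith)]
  calc T y * (2 - Real.log y) ≤ T y * (3 - Real.log (T y)) := by gcongr <;> linarith
    _ = y := h5

lemma tendsto_w : Tendsto (fun y : ℝ => Real.pi / 2 * (2 - Real.log y)⁻¹) (𝓝[≠] 0) (𝓝 0) := by
  have h1 : Tendsto (fun y : ℝ => 2 - Real.log y) (𝓝[≠] 0) atTop := by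
    have := Real.tendsto_log_nhdsNE_zero
    simpa [sub_eq_add_neg] using tendsto_atTop_add_const_left (𝓝[≠] (0 : ℝ)) 2
      (tendsto_neg_atBot_atTop.comp this)
  simpa using h1.inv_tendsto_atTop.const_mul (Real.pi / 2)

lemma h_le_log {y : ℝ} (h0 : y ≠ 0) (h1 : |y| < 1) :
    h y ≤ |y| * (Real.pi / 2 * (2 - Real.log y)⁻¹) := by
  rw [h_eq (by linarith)]
  have := T_le_log (abs_pos.2 h0) h1
  rw [Real.log_abs] at this
  have hpi := Real.pi_pos
  calc Real.pi / 2 * T |y| ≤ Real.pi / 2 * (|y| * (2 - Real.log y)⁻¹) := by gcongr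
    _ = _ := by ring

lemma hasDerivAt_h_zero : HasDerivAt h 0 0 := by
  rw [hasDerivAt_iff_tendsto_slope]
  have hsl : ∀ y : ℝ, slope h 0 y = h y / y := by
    intro y; rw [slope_def_field, h_zero, sub_zero, sub_zero]
  rw [tendsto_congr hsl]
  refine squeeze_zero_norm' ?_ tendsto_w
  have : ∀ᶠ y : ℝ in 𝓝[≠] 0, |y| < 1 := by
    apply eventually_nhdsWithin_of_eventually_nhds
    have := (continuous_abs (G := ℝ)).tendsto 0
    rw [abs_zero] at this
    exact this.eventually_lt_const one_pos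
  filter_upwards [this, self_mem_nhdsWithin] with y hy hy0
  rw [norm_div, Real.norm_of_nonneg (h_nonneg y), Real.norm_eq_abs,
    div_le_iff₀ (abs_pos.2 hy0), mul_comm]
  exact h_le_log hy0 hy

lemma hasDerivAt_h {y : ℝ} (hy : y ∈ Ioo (-3 : ℝ) 3) : HasDerivAt h (h' y) y := by
  rcases lt_trichotomy y 0 with h1 | h1 | h1
  · have h2 := hasDerivAt_h_pos (y := -y) (by linarith) (by linarith [hy.1])
    have h3 : HasDerivAt (fun x => h (-x)) (Real.pi / 2 * (2 - Real.log (T (-y)))⁻¹ * (-1)) y :=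
      h2.comp y (hasDerivAt_neg y)
    have h4 : (fun x => h (-x)) = h := funext h_even
    rw [h4] at h3
    rw [h', if_neg (by linarith), if_pos h1]
    convert h3 using 1
    ring
  · subst h1
    rw [h', if_neg (lt_irrefl 0), if_neg (lt_irrefl 0)]
    exact hasDerivAt_h_zero
  · rw [h', if_pos h1]
    exact hasDerivAt_h_pos h1 hy.2

lemma abs_h'_le {y : ℝ} (h0 : y ≠ 0) (h1 : |y| < 1) :
    |h' y| ≤ Real.pi / 2 * (2 - Real.log y)⁻¹ := by
  have key : |h' y| = Real.pi / 2 * (2 - Real.log (T |y|))⁻¹ := by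
    have hm : |y| ∈ Icc (0 : ℝ) 3 := ⟨abs_nonneg _, by linarith⟩
    have h2 := two_sub_log_T hm
    have h3 : 0 ≤ Real.pi / 2 * (2 - Real.log (T |y|))⁻¹ :=
      mul_nonneg (by positivity) (inv_nonneg.2 (by linarith))
    rcases lt_or_gt_of_ne h0 with h4 | h4
    · rw [h', if_neg (by linarith), if_pos h4, abs_neg, ← abs_of_neg h4, abs_of_nonneg h3]
    · rw [h', if_pos h4]
      rw [abs_of_pos h4] at h3 ⊢
      rw [abs_of_nonneg h3]
  rw [key]
  have hp := T_pos (abs_pos.2 h0) (by linarith)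
  have h2 : T |y| ≤ |y| := by
    have := T_lip le_rfl (abs_nonneg y) (by linarith : |y| ≤ 3)
    rw [T_zero] at this
    linarith
  have h3 : Real.log (T |y|) ≤ Real.log y := by
    rw [← Real.log_abs y]; exact Real.log_le_log hp h2
  have h4 : Real.log y < 0 := by
    rw [← Real.log_abs y]; exact Real.log_neg (abs_pos.2 h0) h1
  have hpi := Real.pi_pos
  gcongr
  · linarith

lemma continuousOn_h' : ContinuousOn h' (Ioo (-3) 3) := by
  intro y hy
  apply ContinuousAt.continuousWithinAt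
  have hlogT : ∀ x : ℝ, 0 < x → x < 3 → ContinuousAt (fun x => Real.pi / 2 * (2 - Real.log (T x))⁻¹) x := by
    intro x h0 h3
    have hm : x ∈ Icc (0 : ℝ) 3 := ⟨h0.le, h3.le⟩
    have h1 := continuousOn_T.continuousAt (Icc_mem_nhds h0 h3)
    have h2 := h1.log (T_pos h0 h3.le).ne'
    have h5 : 2 - Real.log (T x) ≠ 0 := by
      have := two_sub_log_T hm
      linarith
    exact continuousAt_const.mul ((continuousAt_const.sub h2).inv₀ h5)
  rcases lt_trichotomy y 0 with h1 | h1 | h1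
  · have h2 := (hlogT (-y) (by linarith) (by linarith [hy.1])).neg
    have h3 : ContinuousAt (fun x : ℝ => -(Real.pi / 2 * (2 - Real.log (T (-x)))⁻¹)) y :=
      ContinuousAt.comp (f := fun x : ℝ => -x)
        (g := fun x => -(Real.pi / 2 * (2 - Real.log (T x))⁻¹)) h2 continuous_neg.continuousAt
    refine h3.congr ?_
    filter_upwards [gt_mem_nhds h1] with x hx
    rw [h', if_neg (by linarith), if_pos hx]
  · subst h1
    rw [continuousAt_iff_punctured_nhds]
    have h0 : h' 0 = 0 := by rw [h', if_neg (lt_irrefl 0), if_neg (lt_irrefl 0)]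
    rw [h0]
    refine squeeze_zero_norm' ?_ tendsto_w
    have : ∀ᶠ y : ℝ in 𝓝[≠] 0, |y| < 1 := by
      apply eventually_nhdsWithin_of_eventually_nhds
      have := (continuous_abs (G := ℝ)).tendsto 0
      rw [abs_zero] at this
      exact this.eventually_lt_const one_pos
    filter_upwards [this, self_mem_nhdsWithin] with x hx hx0
    exact abs_h'_le hx0 hx
  · refine (hlogT y h1 hy.2).congr ?_
    filter_upwards [lt_mem_nhds h1] with x hx
    rw [h', if_pos hx]

lemma contDiffOn_h : ContDiffOn ℝ 1 h (Ioo (-3) 3) := by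
  have h1 : (1 : WithTop ℕ∞) = 0 + 1 := by norm_num
  rw [h1, contDiffOn_succ_iff_deriv_of_isOpen isOpen_Ioo]
  refine ⟨fun y hy => (hasDerivAt_h hy).differentiableAt.differentiableWithinAt, by simp, ?_⟩
  rw [contDiffOn_zero]
  exact continuousOn_h'.congr fun y hy => (hasDerivAt_h hy).deriv

lemma s_le_rpow {β τ : ℝ} (hβ : 0 < β) (h0 : 0 < τ) (h1 : τ ≤ 1) :
    s τ ≤ (3 + 1 / β) * τ ^ (1 - β) := by
  have h2 : -Real.log τ ≤ τ ^ (-β) / β := by
    have := Real.log_le_rpow_div (x := τ⁻¹) (by positivity) hβ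
    rwa [Real.log_inv, Real.inv_rpow h0.le, ← Real.rpow_neg h0.le] at this
  have h3 : 1 ≤ τ ^ (-β) := Real.one_le_rpow_of_pos_of_le_one_of_nonpos h0 h1 (by linarith)
  have h4 : 3 - Real.log τ ≤ (3 + 1 / β) * τ ^ (-β) := by
    have : (3 + 1 / β) * τ ^ (-β) = 3 * τ ^ (-β) + τ ^ (-β) / β := by ring
    linarith
  calc s τ = τ * (3 - Real.log τ) := rfl
    _ ≤ τ * ((3 + 1 / β) * τ ^ (-β)) := by gcongr
    _ = (3 + 1 / β) * (τ ^ (1 : ℝ) * τ ^ (-β)) := by rw [Real.rpow_one]; ring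
    _ = (3 + 1 / β) * τ ^ (1 - β) := by rw [← Real.rpow_add h0, sub_eq_add_neg]

/-- `h` is not bounded by `C y^{1+α}` near `0`. -/
lemma h_not_holder {α : ℝ} (hα : 0 < α) {C δ : ℝ} (hδ : 0 < δ)
    (hb : ∀ y ∈ Ioo (0 : ℝ) δ, h y ≤ C * y ^ (1 + α)) : False := by
  set β : ℝ := α / (2 * (1 + α)) with hβdef
  have hβ : 0 < β := by
    rw [hβdef]; positivity
  have hβe : (1 - β) * (1 + α) = 1 + α / 2 := by
    rw [hβdef]; field_simp; ring
  clear_value β
  set K : ℝ := 3 + 1 / β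
  have hK : 0 < K := by
    show 0 < 3 + 1 / β
    have : 0 < 1 / β := one_div_pos.2 hβ
    linarith
  set C' : ℝ := max C 0
  have hC' : 0 ≤ C' := le_max_right _ _
  have hsmall : ∀ᶠ τ in 𝓝[>] (0 : ℝ), s τ < δ := by
    have h1 : Tendsto s (𝓝[>] 0) (𝓝 0) := by
      have := continuous_s.tendsto 0
      rw [s_zero] at this
      exact this.mono_left nhdsWithin_le_nhds
    exact h1.eventually_lt_const hδ
  have hlt1 : ∀ᶠ τ in 𝓝[>] (0 : ℝ), τ ∈ Ioc (0 : ℝ) 1 := Ioc_mem_nhdsGT one_pos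
  have hle : ∀ᶠ τ in 𝓝[>] (0 : ℝ), Real.pi / 2 ≤ C' * K ^ (1 + α) * τ ^ (α / 2) := by
    filter_upwards [hsmall, hlt1] with τ h1 h2
    have hτ : τ ∈ Icc (0 : ℝ) 1 := ⟨h2.1.le, h2.2⟩
    have hτ0 : 0 < τ := h2.1
    have hspos : 0 < s τ := by
      have := two_mul_sub_le_s le_rfl h2.1.le h2.2
      rw [s_zero] at this
      linarith [h2.1]
    have h3 := hb (s τ) ⟨hspos, h1⟩
    rw [h_eq (by rw [abs_of_pos hspos]; exact s_le_three hτ), abs_of_pos hspos, T_s hτ] at h3
    have h4 : (s τ) ^ (1 + α) ≤ (K * τ ^ (1 - β)) ^ (1 + α) :=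
      Real.rpow_le_rpow hspos.le (s_le_rpow hβ h2.1 h2.2) (by linarith)
    rw [Real.mul_rpow hK.le (by positivity), ← Real.rpow_mul h2.1.le, hβe,
      Real.rpow_add h2.1, Real.rpow_one] at h4
    have h5 : C * (s τ) ^ (1 + α) ≤ C' * (K ^ (1 + α) * (τ * τ ^ (α / 2))) := by
      calc C * (s τ) ^ (1 + α) ≤ C' * (s τ) ^ (1 + α) := by
            gcongr; exact le_max_left _ _
        _ ≤ _ := by gcongr
    have h6 : Real.pi / 2 * τ ≤ C' * K ^ (1 + α) * τ ^ (α / 2) * τ := by
      refine h3.trans (h5.trans (le_of_eq (by ring)))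
    exact le_of_mul_le_mul_right h6 h2.1
  have hlim : Tendsto (fun τ : ℝ => C' * K ^ (1 + α) * τ ^ (α / 2)) (𝓝[>] 0) (𝓝 0) := by
    have h1 : Tendsto (fun τ : ℝ => τ ^ (α / 2)) (𝓝 0) (𝓝 ((0 : ℝ) ^ (α / 2))) :=
      (Real.continuousAt_rpow_const 0 (α / 2) (Or.inr (by positivity))).tendsto
    rw [Real.zero_rpow (by positivity)] at h1
    simpa using (h1.mono_left nhdsWithin_le_nhds).const_mul (C' * K ^ (1 + α))
  have := ge_of_tendsto hlim hle
  have hpi := Real.pi_pos
  linarith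

end Pool.Agent.W799.FB
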