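import Pool.Agent.W799.FBReal

set_option autoImplicit false
open Set Filter Topology Complex

namespace Pool.Agent.W799.FB

open Classical in
/-- the inverse of the conformal map on `W` -/
noncomputable def Z (z : ℂ) : ℂ := if hz : z ∈ f '' Om then hz.choose else 0

lemma Z_mem {z : ℂ} (hz : z ∈ W) : Z z ∈ Om := by
  have h := W_subset_image hz
  rw [Z, dif_pos h]; exact h.choose_spec.1

lemma f_Z {z : ℂ} (hz : z ∈ W) : f (Z z) = z := by
  have h := W_subset_image hz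
  rw [Z, dif_pos h]; exact h.choose_spec.2

lemma Z_lip {z w : ℂ} (hz : z ∈ W) (hw : w ∈ W) : 2 * ‖Z w - Z z‖ ≤ ‖w - z‖ := by
  have := two_mul_le (Om_subset_Omc (Z_mem hz)) (Om_subset_Omc (Z_mem hw))
  rwa [f_Z hz, f_Z hw] at this

lemma Z_lip_bdry {z ζ : ℂ} (hz : z ∈ W) (hζ : ζ ∈ Omc) : 2 * ‖Z z - ζ‖ ≤ ‖z - f ζ‖ := by
  have := two_mul_le hζ (Om_subset_Omc (Z_mem hz))
  rwa [f_Z hz] at this

lemma continuousAt_Z {z : ℂ} (hz : z ∈ W) : ContinuousAt Z z := by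
  rw [Metric.continuousAt_iff]
  intro ε hε
  obtain ⟨δ, hδ, hW⟩ := Metric.isOpen_iff.1 isOpen_W z hz
  refine ⟨min δ ε, lt_min hδ hε, fun {w} hw => ?_⟩
  have h1 : w ∈ W := hW (hw.trans_le (min_le_left _ _))
  have h2 := Z_lip hz h1
  rw [dist_eq_norm] at hw ⊢
  have := hw.trans_le (min_le_right _ _)
  linarith [norm_nonneg (Z w - Z z)]

lemma hasDerivAt_Z {z : ℂ} (hz : z ∈ W) : HasDerivAt Z (f' (Z z))⁻¹ z := by
  have h1 := Z_mem hz
  refine HasDerivAt.of_local_left_inverse (continuousAt_Z hz) (hasDerivAt_f (Om_slit h1))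
    (f'_ne_zero (Om_ne h1) h1.2.le) ?_
  filter_upwards [isOpen_W.mem_nhds hz] with w hw using f_Z hw

/-- the holomorphic part of the gradient -/
noncomputable def q (z : ℂ) : ℂ := (Real.pi ^ 2 / 8 : ℝ) * Z z ^ 2

/-- holomorphic primitive of `q` -/
noncomputable def P (z : ℂ) : ℂ := (Real.pi ^ 2 / 8 : ℝ) * (Z z ^ 2 * (z / 3 - 2 / 9 * Z z))

lemma hasDerivAt_P {z : ℂ} (hz : z ∈ W) : HasDerivAt P (q z) z := by
  have h1 := Z_mem hz
  have hf : f' (Z z) ≠ 0 := f'_ne_zero (Om_ne h1) h1.2.le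
  have hZ := hasDerivAt_Z hz
  have h2 : HasDerivAt (fun z => Z z ^ 2 * (z / 3 - 2 / 9 * Z z))
      (2 * Z z * (f' (Z z))⁻¹ * (z / 3 - 2 / 9 * Z z) +
        Z z ^ 2 * (1 / 3 - 2 / 9 * (f' (Z z))⁻¹)) z := by
    have a1 := hZ.pow 2
    have a2 := ((hasDerivAt_id z).div_const 3).sub (hZ.const_mul (2 / 9))
    refine (a1.mul a2).congr_deriv ?_
    simp
  refine (h2.const_mul ((Real.pi ^ 2 / 8 : ℝ) : ℂ)).congr_deriv ?_
  rw [q]
  congr 1
  have h3 : z = Z z * (1 + f' (Z z)) := by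
    have := f_Z hz
    rw [f] at this
    rw [f']
    rw [← this] 
    have e : Z (Z z * (3 - Complex.log (Z z))) = Z z := by rw [this]
    rw [e]; ring
  field_simp
  linear_combination (18 * Z z) * h3

/-- the complex gradient `u_x - i u_y` inside -/
noncomputable def γ (z : ℂ) : ℂ := ((z.re ^ 2 / 2 : ℝ) : ℂ) + q z

lemma γ_re (z : ℂ) : (γ z).re = z.re ^ 2 / 2 + (q z).re := by
  rw [γ, Complex.add_re, Complex.ofReal_re]

lemma γ_im (z : ℂ) : (γ z).im = (q z).im := by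
  rw [γ, Complex.add_im, Complex.ofReal_im, zero_add]

/-- Lipschitz estimates for the polynomial expressions -/
lemma gamma_aux {z w a b : ℂ} (hz : ‖z‖ ≤ 2) (hw : ‖w‖ ≤ 2) (ha : ‖a‖ ≤ 1) (hb : ‖b‖ ≤ 1)
    (hab : 2 * ‖b - a‖ ≤ ‖w - z‖) :
    ‖(((w.re ^ 2 / 2 : ℝ) : ℂ) + (Real.pi ^ 2 / 8 : ℝ) * b ^ 2) -
      (((z.re ^ 2 / 2 : ℝ) : ℂ) + (Real.pi ^ 2 / 8 : ℝ) * a ^ 2)‖ ≤ 4 * ‖w - z‖ := by
  have e : (((w.re ^ 2 / 2 : ℝ) : ℂ) + (Real.pi ^ 2 / 8 : ℝ) * b ^ 2) -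
      (((z.re ^ 2 / 2 : ℝ) : ℂ) + (Real.pi ^ 2 / 8 : ℝ) * a ^ 2) =
      (((w.re + z.re) / 2 * (w - z).re : ℝ) : ℂ) +
        ((Real.pi ^ 2 / 8 : ℝ) : ℂ) * ((b + a) * (b - a)) := by
    push_cast
    simp only [Complex.sub_re, Complex.ofReal_sub]
    ring
  rw [e]
  refine (norm_add_le _ _).trans ?_
  rw [Complex.norm_real, Real.norm_eq_abs, abs_mul, norm_mul, norm_mul, Complex.norm_real,
    Real.norm_eq_abs, abs_of_pos (show 0 < Real.pi ^ 2 / 8 by positivity)]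
  have h1 : |(w.re + z.re) / 2| ≤ 2 := by
    have h2 := (Complex.abs_re_le_norm w).trans hw
    have h3 := (Complex.abs_re_le_norm z).trans hz
    rw [abs_le] at *
    constructor <;> linarith [h2.1, h2.2, h3.1, h3.2]
  have h4 := Complex.abs_re_le_norm (w - z)
  have h5 : ‖b + a‖ ≤ 2 := (norm_add_le _ _).trans (by linarith)
  have h6 : Real.pi ^ 2 / 8 ≤ 2 := by
    have := Real.pi_lt_four
    have := Real.pi_pos
    nlinarith
  have h7 : |(w.re + z.re) / 2| * |(w - z).re| ≤ 2 * ‖w - z‖ := by gcongr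
  have h8 : Real.pi ^ 2 / 8 * (‖b + a‖ * ‖b - a‖) ≤ 2 * (2 * ‖b - a‖) := by gcongr
  linarith

lemma gamma_lip {z w : ℂ} (hz : z ∈ W) (hw : w ∈ W) : ‖γ w - γ z‖ ≤ 4 * ‖w - z‖ :=
  gamma_aux hz.1.le hw.1.le (Z_mem hz).2.le (Z_mem hw).2.le (Z_lip hz hw)

lemma axis_sq {ζ : ℂ} (h0 : ζ.re = 0) : ζ ^ 2 = -((|ζ.im| ^ 2 : ℝ) : ℂ) := by
  rw [sq_abs]
  apply Complex.ext <;> simp [sq, Complex.mul_re, Complex.mul_im, h0]

/-- at the free boundary the gradient expression vanishes -/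
lemma gamma_axis {ζ : ℂ} (h0 : ζ.re = 0) :
    ((((f ζ).re ^ 2 / 2 : ℝ) : ℂ) + (Real.pi ^ 2 / 8 : ℝ) * ζ ^ 2) = 0 := by
  rw [axis_sq h0, f_axis_re ζ h0]
  push_cast
  ring

lemma gamma_bdry {z ζ : ℂ} (hz : z ∈ W) (hζ : ζ.re = 0) (hζ1 : ‖ζ‖ ≤ 1) (hf : ‖f ζ‖ ≤ 2) :
    ‖γ z‖ ≤ 4 * ‖z - f ζ‖ := by
  have h1 : ζ ∈ Omc := ⟨hζ.ge, hζ1⟩
  have := gamma_aux hf hz.1.le hζ1 (Z_mem hz).2.le (Z_lip_bdry hz h1)
  rw [gamma_axis hζ, sub_zero] at this
  exact this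

/-- the potential as a polynomial in `z` and the preimage -/
noncomputable def U (z ζ : ℂ) : ℝ :=
  z.re ^ 3 / 6 + (((Real.pi ^ 2 / 8 : ℝ) : ℂ) * (ζ ^ 2 * (z / 3 - 2 / 9 * ζ))).re

lemma U_axis {ζ : ℂ} (h0 : ζ.re = 0) : U (f ζ) ζ = 0 := by
  rw [U, axis_sq h0, Complex.re_ofReal_mul, neg_mul, Complex.neg_re, Complex.re_ofReal_mul]
  have : (f ζ / 3 - 2 / 9 * ζ).re = (f ζ).re / 3 := by
    have h1 : (f ζ / 3 : ℂ) = ((1 / 3 : ℝ) : ℂ) * f ζ := by push_cast; ring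
    have h2 : (2 / 9 * ζ : ℂ) = ((2 / 9 : ℝ) : ℂ) * ζ := by push_cast; ring
    rw [Complex.sub_re, h1, h2, Complex.re_ofReal_mul, Complex.re_ofReal_mul, h0]
    ring
  rw [this, f_axis_re ζ h0]
  ring

lemma continuous_U : Continuous (fun p : ℂ × ℂ => U p.1 p.2) := by
  unfold U
  fun_prop

open Classical in
/-- the solution -/
noncomputable def u (z : ℂ) : ℝ := if z ∈ W then U z (Z z) else 0

open Classical in
/-- its complex gradient -/
noncomputable def g (z : ℂ) : ℂ := if z ∈ W then γ z else 0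

/-- the linear form `v ↦ Re (c v)` -/
noncomputable def ℓ (c : ℂ) : ℂ →L[ℝ] ℝ :=
  Complex.reCLM.comp ((ContinuousLinearMap.mul ℝ ℂ) c)

lemma ℓ_apply (c v : ℂ) : ℓ c v = (c * v).re := rfl

lemma hasFDerivAt_u_in {z : ℂ} (hz : z ∈ W) : HasFDerivAt u (ℓ (g z)) z := by
  have h1 : HasFDerivAt (fun z : ℂ => U z (Z z)) (ℓ (γ z)) z := by
    have a1 : HasFDerivAt (fun z : ℂ => z.re ^ 3 / 6) ((z.re ^ 2 / 2) • Complex.reCLM) z := by
      have b1 : HasFDerivAt (fun z : ℂ => z.re) Complex.reCLM z := Complex.reCLM.hasFDerivAt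
      have b2 := (b1.pow 3).mul_const (1 / 6 : ℝ)
      refine HasFDerivAt.congr_fderiv (b2.congr_of_eventuallyEq ?_) ?_
      · exact Eventually.of_forall fun w => by ring_nf
      · ext v <;> simp <;> ring
    have a2 := Complex.reCLM.hasFDerivAt.comp z
      ((hasDerivAt_P hz).hasFDerivAt.restrictScalars ℝ)
    refine (a1.add a2).congr_fderiv ?_
    ext v
    simp only [ContinuousLinearMap.add_apply, ContinuousLinearMap.smul_apply,
      Complex.reCLM_apply, smul_eq_mul, ContinuousLinearMap.comp_apply,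
      ContinuousLinearMap.coe_restrictScalars', ContinuousLinearMap.toSpanSingleton_apply,
      ℓ_apply, Complex.mul_re, γ_re, γ_im]
    ring
  have h2 : g z = γ z := if_pos hz
  rw [h2]
  refine h1.congr_of_eventuallyEq ?_
  filter_upwards [isOpen_W.mem_nhds hz] with w hw using if_pos hw

end Pool.Agent.W799.FB
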