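import Pool.Agent.W799.FBCore

set_option autoImplicit false
open Set Filter Topology Complex

namespace Pool.Agent.W799.FB

/-- The profile `s τ = τ (3 - log τ)`. -/
noncomputable def s (τ : ℝ) : ℝ := τ * (3 - Real.log τ)

lemma s_zero : s 0 = 0 := by simp [s]

lemma s_one : s 1 = 3 := by simp [s]

lemma s_eq (τ : ℝ) : s τ = 3 * τ + Real.negMulLog τ := by
  simp only [s, Real.negMulLog]; ring

lemma continuous_s : Continuous s := by
  have : s = fun τ => 3 * τ + Real.negMulLog τ := funext s_eq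
  rw [this]
  exact (continuous_const.mul continuous_id).add Real.continuous_negMulLog

lemma hasDerivAt_s {τ : ℝ} (h : τ ≠ 0) : HasDerivAt s (2 - Real.log τ) τ := by
  have h1 := (hasDerivAt_id τ).mul ((Real.hasDerivAt_log h).const_sub 3)
  refine h1.congr_deriv ?_
  simp only [id]
  field_simp
  ring

lemma two_mul_sub_le_s {a b : ℝ} (ha : 0 ≤ a) (hab : a ≤ b) (hb : b ≤ 1) :
    2 * (b - a) ≤ s b - s a := by
  have h5 := (convex_Icc (0 : ℝ) 1).mul_sub_le_image_sub_of_le_deriv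
    (f := s) continuous_s.continuousOn
    (by
      rw [interior_Icc]
      exact fun t ht => (hasDerivAt_s ht.1.ne').differentiableAt.differentiableWithinAt)
    (C := 2) (by
      rw [interior_Icc]
      intro t ht
      rw [(hasDerivAt_s ht.1.ne').deriv]
      have := Real.log_nonpos ht.1.le ht.2.le
      linarith) a ⟨ha, hab.trans hb⟩ b ⟨ha.trans hab, hb⟩ hab
  exact h5

lemma s_strictMonoOn : StrictMonoOn s (Icc 0 1) := by
  intro a ha b hb hab
  have := two_mul_sub_le_s ha.1 hab.le hb.2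
  linarith

lemma s_nonneg {a : ℝ} (ha : a ∈ Icc (0 : ℝ) 1) : 0 ≤ s a := by
  have := two_mul_sub_le_s le_rfl ha.1 ha.2
  rw [s_zero] at this
  linarith [ha.1]

lemma s_le_three {a : ℝ} (ha : a ∈ Icc (0 : ℝ) 1) : s a ≤ 3 := by
  have := two_mul_sub_le_s ha.1 ha.2 le_rfl
  rw [s_one] at this
  linarith [ha.2]

lemma exists_s {y : ℝ} (hy : y ∈ Icc (0 : ℝ) 3) : ∃ τ ∈ Icc (0 : ℝ) 1, s τ = y := by
  have h := intermediate_value_Icc (zero_le_one (α := ℝ)) continuous_s.continuousOn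
  rw [s_zero, s_one] at h
  exact h hy

open Classical in
/-- inverse of `s` on `[0,3]` -/
noncomputable def T (y : ℝ) : ℝ := if h : y ∈ Icc (0 : ℝ) 3 then (exists_s h).choose else 0

lemma T_mem {y : ℝ} (hy : y ∈ Icc (0 : ℝ) 3) : T y ∈ Icc (0 : ℝ) 1 := by
  rw [T, dif_pos hy]; exact (exists_s hy).choose_spec.1

lemma s_T {y : ℝ} (hy : y ∈ Icc (0 : ℝ) 3) : s (T y) = y := by
  rw [T, dif_pos hy]; exact (exists_s hy).choose_spec.2

lemma T_s {τ : ℝ} (hτ : τ ∈ Icc (0 : ℝ) 1) : T (s τ) = τ := by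
  have h1 : s τ ∈ Icc (0 : ℝ) 3 := ⟨s_nonneg hτ, s_le_three hτ⟩
  exact s_strictMonoOn.injOn (T_mem h1) hτ (s_T h1)

lemma T_zero : T 0 = 0 := by
  have := T_s (τ := 0) (by simp)
  rwa [s_zero] at this

lemma T_le_iff {y τ : ℝ} (hy : y ∈ Icc (0 : ℝ) 3) (hτ : τ ∈ Icc (0 : ℝ) 1) :
    T y ≤ τ ↔ y ≤ s τ := by
  rw [← s_strictMonoOn.le_iff_le (T_mem hy) hτ, s_T hy]

lemma T_mono {a b : ℝ} (ha : 0 ≤ a) (hab : a ≤ b) (hb : b ≤ 3) : T a ≤ T b := by
  have h1 : b ∈ Icc (0 : ℝ) 3 := ⟨ha.trans hab, hb⟩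
  rw [T_le_iff ⟨ha, hab.trans hb⟩ (T_mem h1), s_T h1]
  exact hab

lemma T_lip {a b : ℝ} (ha : 0 ≤ a) (hab : a ≤ b) (hb : b ≤ 3) : 2 * (T b - T a) ≤ b - a := by
  have h1 : b ∈ Icc (0 : ℝ) 3 := ⟨ha.trans hab, hb⟩
  have h2 : a ∈ Icc (0 : ℝ) 3 := ⟨ha, hab.trans hb⟩
  have := two_mul_sub_le_s (T_mem h2).1 (T_mono ha hab hb) (T_mem h1).2
  rwa [s_T h1, s_T h2] at this

lemma T_abs_lip {a b : ℝ} (ha : a ∈ Icc (0 : ℝ) 3) (hb : b ∈ Icc (0 : ℝ) 3) :
    2 * |T b - T a| ≤ |b - a| := by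
  rcases le_total a b with h | h
  · rw [abs_of_nonneg (sub_nonneg.2 (T_mono ha.1 h hb.2)), abs_of_nonneg (sub_nonneg.2 h)]
    exact T_lip ha.1 h hb.2
  · rw [abs_sub_comm, abs_sub_comm b a, abs_of_nonneg (sub_nonneg.2 (T_mono hb.1 h ha.2)),
      abs_of_nonneg (sub_nonneg.2 h)]
    exact T_lip hb.1 h ha.2

/-- The boundary graph `x₁ = h x₂`. -/
noncomputable def h (y : ℝ) : ℝ := Real.pi / 2 * T (min |y| 3)

lemma min_mem (y : ℝ) : min |y| 3 ∈ Icc (0 : ℝ) 3 :=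
  ⟨le_min (abs_nonneg _) (by norm_num), min_le_right _ _⟩

lemma h_zero : h 0 = 0 := by
  simp [h, T_zero]

lemma h_nonneg (y : ℝ) : 0 ≤ h y := mul_nonneg (by positivity) (T_mem (min_mem y)).1

lemma h_eq {y : ℝ} (hy : |y| ≤ 3) : h y = Real.pi / 2 * T |y| := by
  rw [h, min_eq_left hy]

lemma lipschitz_h : LipschitzWith 1 h := by
  apply LipschitzWith.of_dist_le_mul
  intro x y
  rw [Real.dist_eq, Real.dist_eq, h, h, ← mul_sub, abs_mul, abs_of_pos (by positivity)]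
  have h1 := T_abs_lip (min_mem y) (min_mem x)
  have h2 : |min |x| 3 - min |y| 3| ≤ |x - y| := by
    refine (abs_min_sub_min_le_max _ _ _ _).trans ?_
    simp only [sub_self, abs_zero]
    exact max_le (abs_abs_sub_abs_le_abs_sub _ _) (abs_nonneg _)
  have h3 := Real.pi_lt_four
  have h4 := abs_nonneg (T (min |x| 3) - T (min |y| 3))
  have h5 := Real.pi_pos
  push_cast
  nlinarith

lemma continuous_h : Continuous h := lipschitz_h.continuous

/-- convexity of the graph function on `[-3,3]` -/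
lemma h_convex {y₁ y₂ a b : ℝ} (h1 : |y₁| ≤ 3) (h2 : |y₂| ≤ 3) (ha : 0 ≤ a) (hb : 0 ≤ b)
    (hab : a + b = 1) : h (a * y₁ + b * y₂) ≤ a * h y₁ + b * h y₂ := by
  have m1 : |y₁| ∈ Icc (0 : ℝ) 3 := ⟨abs_nonneg _, h1⟩
  have m2 : |y₂| ∈ Icc (0 : ℝ) 3 := ⟨abs_nonneg _, h2⟩
  have h3 : |a * y₁ + b * y₂| ≤ a * |y₁| + b * |y₂| := by
    refine (abs_add_le _ _).trans ?_
    rw [abs_mul, abs_mul, abs_of_nonneg ha, abs_of_nonneg hb]
  have h4 : a * |y₁| + b * |y₂| ≤ 3 := by nlinarith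
  have m3 : a * |y₁| + b * |y₂| ∈ Icc (0 : ℝ) 3 := ⟨(abs_nonneg _).trans h3, h4⟩
  rw [h_eq h1, h_eq h2, h_eq (h3.trans h4)]
  have t1 := T_mem m1
  have t2 := T_mem m2
  have m4 : a * T |y₁| + b * T |y₂| ∈ Icc (0 : ℝ) 1 := by
    constructor
    · exact add_nonneg (mul_nonneg ha t1.1) (mul_nonneg hb t2.1)
    · nlinarith [t1.2, t2.2, t1.1, t2.1]
  have h5 : T (a * |y₁| + b * |y₂|) ≤ a * T |y₁| + b * T |y₂| := by
    rw [T_le_iff m3 m4]
    have hc := Real.concaveOn_negMulLog.2 (x := T |y₁|) t1.1 (y := T |y₂|) t2.1 ha hb hab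
    simp only [smul_eq_mul] at hc
    have e1 := s_T m1
    have e2 := s_T m2
    rw [s_eq] at e1 e2
    rw [s_eq]
    nlinarith
  have h6 := T_mono (abs_nonneg _) h3 h4
  have h7 := Real.pi_pos
  nlinarith

/-- real and imaginary part of `f` -/
lemma f_re (ζ : ℂ) : (f ζ).re = ζ.re * (3 - Real.log ‖ζ‖) + ζ.im * ζ.arg := by
  simp [f, Complex.mul_re, Complex.log_re, Complex.log_im]

lemma f_im (ζ : ℂ) : (f ζ).im = ζ.im * (3 - Real.log ‖ζ‖) - ζ.re * ζ.arg := by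
  simp [f, Complex.mul_im, Complex.log_re, Complex.log_im]
  ring

lemma arg_im_axis (ζ : ℂ) (h0 : ζ.re = 0) : ζ.im * ζ.arg = Real.pi / 2 * |ζ.im| := by
  rcases lt_trichotomy ζ.im 0 with h1 | h1 | h1
  · have : ζ.arg = -(Real.pi / 2) := by
      rw [Complex.arg_eq_neg_pi_div_two_iff]; exact ⟨h0, h1⟩
    rw [this, abs_of_neg h1]; ring
  · rw [h1]; simp
  · have : ζ.arg = Real.pi / 2 := by
      rw [Complex.arg_eq_pi_div_two_iff]; exact ⟨h0, h1⟩
    rw [this, abs_of_pos h1]; ring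

lemma norm_im_axis (ζ : ℂ) (h0 : ζ.re = 0) : ‖ζ‖ = |ζ.im| := by
  exact (Complex.abs_im_eq_norm.2 h0).symm

lemma f_axis_re (ζ : ℂ) (h0 : ζ.re = 0) : (f ζ).re = Real.pi / 2 * |ζ.im| := by
  rw [f_re, h0, arg_im_axis ζ h0]; ring

lemma f_axis_im (ζ : ℂ) (h0 : ζ.re = 0) : (f ζ).im = ζ.im * (3 - Real.log |ζ.im|) := by
  rw [f_im, h0, norm_im_axis ζ h0]; ring

lemma f_axis_abs_im (ζ : ℂ) (h0 : ζ.re = 0) (h1 : ‖ζ‖ ≤ 1) : |(f ζ).im| = s |ζ.im| := by
  rw [f_axis_im ζ h0, abs_mul, s]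
  congr 1
  rw [norm_im_axis ζ h0] at h1
  have := Real.log_nonpos (abs_nonneg _) h1
  rw [abs_of_nonneg]
  linarith

/-- the imaginary axis is mapped to the graph of `h` -/
lemma f_axis_curve (ζ : ℂ) (h0 : ζ.re = 0) (h1 : ‖ζ‖ ≤ 1) : (f ζ).re = h (f ζ).im := by
  have h2 : |ζ.im| ∈ Icc (0 : ℝ) 1 := ⟨abs_nonneg _, by rwa [norm_im_axis ζ h0] at h1⟩
  have h3 := f_axis_abs_im ζ h0 h1
  have h4 : |(f ζ).im| ≤ 3 := by rw [h3]; exact s_le_three h2
  rw [h_eq h4, h3, T_s h2, f_axis_re ζ h0]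

/-- every point of the graph over `[-3,3]` is the image of a point of the imaginary axis -/
lemma exists_axis {z : ℂ} (hz : |z.im| ≤ 3) (hc : z.re = h z.im) :
    ∃ ζ : ℂ, ζ.re = 0 ∧ ‖ζ‖ ≤ 1 ∧ f ζ = z := by
  have m : |z.im| ∈ Icc (0 : ℝ) 3 := ⟨abs_nonneg _, hz⟩
  have t := T_mem m
  rw [h_eq hz] at hc
  rcases le_total 0 z.im with h1 | h1
  · refine ⟨⟨0, T |z.im|⟩, rfl, ?_, ?_⟩
    · rw [norm_im_axis _ rfl]; simpa [abs_of_nonneg t.1] using t.2
    · apply Complex.ext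
      · rw [f_axis_re _ rfl, hc]
        simp only [abs_of_nonneg t.1]
      · rw [f_axis_im _ rfl]
        simp only [abs_of_nonneg t.1]
        have := s_T m
        rw [s] at this
        rw [this, abs_of_nonneg h1]
  · refine ⟨⟨0, -T |z.im|⟩, rfl, ?_, ?_⟩
    · rw [norm_im_axis _ rfl]; simpa [abs_of_nonneg t.1] using t.2
    · apply Complex.ext
      · rw [f_axis_re _ rfl, hc]
        simp only [abs_neg, abs_of_nonneg t.1]
      · rw [f_axis_im _ rfl]
        simp only [abs_neg, abs_of_nonneg t.1]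
        have := s_T m
        rw [s] at this
        rw [neg_mul, this, abs_of_nonpos h1, neg_neg]

/-- The part of the domain in the disc of radius two. -/
def W : Set ℂ := {z | ‖z‖ < 2 ∧ h z.im < z.re}

lemma im_le_three {z : ℂ} (hz : ‖z‖ < 2) : |z.im| ≤ 3 :=
  (Complex.abs_im_le_norm z).trans (by linarith)

lemma isOpen_W : IsOpen W :=
  (isOpen_lt continuous_norm continuous_const).inter
    (isOpen_lt (continuous_h.comp Complex.continuous_im) Complex.continuous_re)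

lemma convex_W : Convex ℝ W := by
  intro x hx y hy a b ha hb hab
  constructor
  · have h1 := convex_ball (0 : ℂ) 2 (mem_ball_zero_iff.2 hx.1) (mem_ball_zero_iff.2 hy.1) ha hb hab
    simpa using h1
  · have h1 := h_convex (im_le_three hx.1) (im_le_three hy.1) ha hb hab
    have h2 : (a • x + b • y).im = a * x.im + b * y.im := by simp
    have h3 : (a • x + b • y).re = a * x.re + b * y.re := by simp
    rw [h2, h3]
    refine h1.trans_lt ?_
    rcases ha.lt_or_eq with ha' | ha'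
    · nlinarith [mul_lt_mul_of_pos_left hx.2 ha', mul_le_mul_of_nonneg_left hy.2.le hb]
    · have hb' : b = 1 := by linarith
      rw [← ha', hb']
      simpa using hy.2

lemma W_subset_image : W ⊆ f '' Om := by
  apply IsPreconnected.subset_of_closure_inter_subset convex_W.isPreconnected isOpen_image
  · -- nonempty
    refine ⟨f ((1 / 10 : ℝ) : ℂ), ⟨?_, ?_⟩, ((1 / 10 : ℝ) : ℂ), ⟨?_, ?_⟩, rfl⟩
    · have h1 : f ((1 / 10 : ℝ) : ℂ) = ((1 / 10 * (3 - Real.log (1 / 10)) : ℝ) : ℂ) := by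
        rw [f, ← Complex.ofReal_log (by norm_num)]
        push_cast; ring
      rw [h1, Complex.norm_real, Real.norm_eq_abs, abs_lt]
      have h2 : Real.log (1 / 10) = - Real.log 10 := by
        rw [one_div, Real.log_inv]
      have h3 : Real.log 10 ≤ 9 := by
        have := Real.log_le_sub_one_of_pos (show (0 : ℝ) < 10 by norm_num)
        linarith
      have h4 : 0 ≤ Real.log 10 := Real.log_nonneg (by norm_num)
      rw [h2]
      constructor <;> linarith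
    · have h1 : f ((1 / 10 : ℝ) : ℂ) = ((1 / 10 * (3 - Real.log (1 / 10)) : ℝ) : ℂ) := by
        rw [f, ← Complex.ofReal_log (by norm_num)]
        push_cast; ring
      rw [h1, Complex.ofReal_im, Complex.ofReal_re, h_zero]
      have h2 : Real.log (1 / 10) ≤ 0 := Real.log_nonpos (by norm_num) (by norm_num)
      nlinarith
    · simp
    · rw [Complex.norm_real]; norm_num
  · -- closed in W
    rintro z ⟨hz1, hz2⟩
    have h1 : closure (f '' Om) ⊆ f '' Omc :=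
      closure_minimal (image_mono Om_subset_Omc) (isCompact_Omc.image_of_continuousOn continuousOn_f).isClosed
    obtain ⟨ζ, hζ, rfl⟩ := h1 hz1
    by_cases hn : ‖ζ‖ = 1
    · have := norm_f_arc hn
      linarith [hz2.1]
    · by_cases hr : ζ.re = 0
      · have := f_axis_curve ζ hr hζ.2
        linarith [hz2.2]
      · exact ⟨ζ, ⟨lt_of_le_of_ne hζ.1 (Ne.symm hr), lt_of_le_of_ne hζ.2 hn⟩, rfl⟩

end Pool.Agent.W799.FB
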