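import Pool.Agent.W799.FBGlue

set_option autoImplicit false
open Set Filter Topology Complex MeasureTheory Metric

namespace Pool.Agent.W799.FB

/-- the Euclidean plane -/
abbrev E : Type := EuclideanSpace ℝ (Fin 2)

/-- `x ↦ x₁ + i x₂` -/
noncomputable def c : E →L[ℝ] ℂ :=
  (EuclideanSpace.proj (𝕜 := ℝ) (0 : Fin 2)).smulRight (1 : ℂ) +
    (EuclideanSpace.proj (𝕜 := ℝ) (1 : Fin 2)).smulRight Complex.I

lemma c_apply (x : E) : c x = (x 0 : ℂ) + (x 1 : ℂ) * Complex.I := by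
  simp [c]

lemma c_re (x : E) : (c x).re = x 0 := by simp [c_apply]

lemma c_im (x : E) : (c x).im = x 1 := by simp [c_apply]

lemma norm_c (x : E) : ‖c x‖ = ‖x‖ := by
  rw [EuclideanSpace.norm_eq, Fin.sum_univ_two, Complex.norm_eq_sqrt_sq_add_sq, c_re, c_im]
  simp [sq_abs]

lemma c_e0 : c (EuclideanSpace.single 0 (1 : ℝ)) = 1 := by
  simp [c_apply]

lemma c_e1 : c (EuclideanSpace.single 1 (1 : ℝ)) = Complex.I := by
  simp [c_apply]

lemma opNorm_c_le : ‖c‖ ≤ 1 :=
  ContinuousLinearMap.opNorm_le_bound _ zero_le_one fun x => by rw [norm_c, one_mul]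

/-- the domain -/
def D : Set E := {x | h (x 1) < x 0}

/-- the solution on the plane -/
noncomputable def uE (x : E) : ℝ := u (c x)

/-- its gradient -/
noncomputable def gE (x : E) : E →L[ℝ] ℝ := (ℓ (g (c x))).comp c

lemma gE_apply (x v : E) : gE x v = (g (c x) * c v).re := rfl

lemma hasFDerivAt_uE {x : E} (hx : x ∈ ball (0 : E) 2) : HasFDerivAt uE (gE x) x := by
  have h1 : ‖c x‖ < 2 := by rw [norm_c]; exact mem_ball_zero_iff.1 hx
  exact (hasFDerivAt_u h1).comp x c.hasFDerivAt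

lemma ℓ_sub (a b : ℂ) : ℓ a - ℓ b = ℓ (a - b) := by
  ext v
  simp only [sub_apply, ℓ_apply, sub_mul, Complex.sub_re]

lemma gE_lip : LipschitzOnWith 4 gE (ball (0 : E) 2) := by
  apply LipschitzOnWith.of_dist_le_mul
  intro x hx y hy
  rw [dist_eq_norm, dist_eq_norm, gE, gE, ← ContinuousLinearMap.sub_comp, ℓ_sub]
  have h1 : ‖c x‖ < 2 := by rw [norm_c]; exact mem_ball_zero_iff.1 hx
  have h2 : ‖c y‖ < 2 := by rw [norm_c]; exact mem_ball_zero_iff.1 hy
  have h3 := g_lip h2 h1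
  rw [← map_sub, norm_c] at h3
  calc ‖(ℓ (g (c x) - g (c y))).comp c‖ ≤ ‖ℓ (g (c x) - g (c y))‖ * ‖c‖ :=
        ContinuousLinearMap.opNorm_comp_le _ _
    _ ≤ ‖g (c x) - g (c y)‖ * 1 := by
        gcongr
        · exact norm_ℓ_le _
        · exact opNorm_c_le
    _ ≤ _ := by rw [mul_one]; exact h3

lemma fderiv_uE_eq {x : E} (hx : x ∈ ball (0 : E) 2) : fderiv ℝ uE x = gE x :=
  (hasFDerivAt_uE hx).fderiv

lemma fderiv_uE_lip : LipschitzOnWith 4 (fderiv ℝ uE) (ball (0 : E) 2) := by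
  intro x hx y hy
  rw [fderiv_uE_eq hx, fderiv_uE_eq hy]
  exact gE_lip hx hy

lemma zero_not_W : (0 : ℂ) ∉ W := by
  intro h0
  have := h0.2
  simp [h_zero] at this

lemma norm_gE_le {x : E} (hx : x ∈ ball (0 : E) 2) : ‖gE x‖ ≤ 8 := by
  have h1 : ‖c x‖ < 2 := by rw [norm_c]; exact mem_ball_zero_iff.1 hx
  have h2 := g_lip (z := 0) (w := c x) (by simp) h1
  have h3 : g 0 = 0 := if_neg zero_not_W
  rw [h3, sub_zero, sub_zero] at h2
  calc ‖gE x‖ ≤ ‖ℓ (g (c x))‖ * ‖c‖ := ContinuousLinearMap.opNorm_comp_le _ _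
    _ ≤ ‖g (c x)‖ * 1 := by
        gcongr
        · exact norm_ℓ_le _
        · exact opNorm_c_le
    _ ≤ 8 := by linarith

lemma uE_lip : LipschitzOnWith 8 uE (ball (0 : E) 2) := by
  refine (convex_ball (0 : E) 2).lipschitzOnWith_of_nnnorm_hasFDerivWithin_le (C := 8)
    (f' := gE) (fun x hx => (hasFDerivAt_uE hx).hasFDerivWithinAt) (fun x hx => ?_)
  rw [← NNReal.coe_le_coe, coe_nnnorm]
  exact norm_gE_le hx

/-- preimage of `W` -/
def WE : Set E := c ⁻¹' W

lemma mem_WE {x : E} : x ∈ WE ↔ ‖x‖ < 2 ∧ h (x 1) < x 0 := by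
  rw [WE, mem_preimage]
  show (‖c x‖ < 2 ∧ h (c x).im < (c x).re) ↔ _
  rw [norm_c, c_re, c_im]

lemma isOpen_WE : IsOpen WE := isOpen_W.preimage c.continuous

lemma convex_WE : Convex ℝ WE := convex_W.linear_preimage c.toLinearMap

lemma curve_null : volume {x : E | ‖x‖ < 2 ∧ x 0 = h (x 1)} = 0 := by
  refine measure_mono_null ?_ (convex_WE.addHaar_frontier volume)
  rintro x ⟨hx, hxc⟩
  rw [frontier, isOpen_WE.interior_eq]
  refine ⟨?_, fun h1 => ?_⟩
  · rw [mem_closure_iff_nhds]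
    intro t ht
    obtain ⟨ε, hε, hball⟩ := Metric.mem_nhds_iff.1 ht
    set δ : ℝ := min (ε / 2) ((2 - ‖x‖) / 2) with hδ
    have hδ0 : 0 < δ := lt_min (by linarith) (by linarith)
    refine ⟨x + EuclideanSpace.single 0 δ, hball ?_, ?_⟩
    · rw [mem_ball_iff_norm, add_sub_cancel_left, PiLp.norm_single,
        Real.norm_of_nonneg hδ0.le]
      exact (min_le_left _ _).trans_lt (by linarith)
    · rw [mem_WE]
      constructor
      · refine (norm_add_le _ _).trans_lt ?_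
        rw [PiLp.norm_single, Real.norm_of_nonneg hδ0.le]
        have := min_le_right (ε / 2) ((2 - ‖x‖) / 2)
        linarith
      · simp [← hxc, hδ0]
  · rw [mem_WE] at h1
    linarith [h1.2]

/-- inside: divergence of the gradient -/
lemma div_in {x : E} (hx : x ∈ WE) :
    lineDeriv ℝ (fun y => gE y (EuclideanSpace.single 0 1)) x (EuclideanSpace.single 0 1) +
    lineDeriv ℝ (fun y => gE y (EuclideanSpace.single 1 1)) x (EuclideanSpace.single 1 1) = x 0 := by
  obtain ⟨q', hq⟩ := hasFDerivAt_g_in (z := c x) hx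
  have h1 : ∀ v : E, HasFDerivAt (fun y => gE y v)
      (((ContinuousLinearMap.mul ℝ ℂ).flip (c v)).comp
        (((Complex.reCLM.smulRight ((c x).re : ℂ)) + (ContinuousLinearMap.mul ℝ ℂ q')).comp c)
        |> Complex.reCLM.comp) x := by
    intro v
    have a1 := hq.comp x c.hasFDerivAt
    have a2 := ((ContinuousLinearMap.mul ℝ ℂ).flip (c v)).hasFDerivAt.comp x a1
    exact Complex.reCLM.hasFDerivAt.comp x a2
  rw [(h1 _).differentiableAt.lineDeriv_eq_fderiv, (h1 _).differentiableAt.lineDeriv_eq_fderiv,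
    (h1 _).fderiv, (h1 _).fderiv]
  simp [c_e0, c_e1, c_re]

lemma div_out {x : E} (hx2 : x 0 < h (x 1)) :
    lineDeriv ℝ (fun y => gE y (EuclideanSpace.single 0 1)) x (EuclideanSpace.single 0 1) +
    lineDeriv ℝ (fun y => gE y (EuclideanSpace.single 1 1)) x (EuclideanSpace.single 1 1) = 0 := by
  have hopen : IsOpen {y : E | y 0 < h (y 1)} :=
    isOpen_lt (by fun_prop) (continuous_h.comp (by fun_prop))
  have h1 : ∀ v : E, (fun y => gE y v) =ᶠ[𝓝 x] fun _ => (0 : ℝ) := by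
    intro v
    filter_upwards [hopen.mem_nhds hx2] with y hy
    rw [gE_apply, g, if_neg, zero_mul, Complex.zero_re]
    intro hyW
    have := hyW.2
    rw [c_re, c_im] at this
    have hy' : y 0 < h (y 1) := hy
    linarith
  have h2 : ∀ v : E, lineDeriv ℝ (fun y => gE y v) x v = 0 := by
    intro v
    have h3 : HasFDerivAt (fun y => gE y v) (0 : E →L[ℝ] ℝ) x :=
      (hasFDerivAt_const (0 : ℝ) x).congr_of_eventuallyEq (h1 v)
    rw [h3.differentiableAt.lineDeriv_eq_fderiv, h3.fderiv]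
    rfl
  rw [h2, h2, add_zero]

lemma lineDeriv_congr_ball {F G : E → ℝ} (hFG : EqOn F G (ball (0 : E) 2)) {x : E}
    (hx : x ∈ ball (0 : E) 2) (v : E) : lineDeriv ℝ F x v = lineDeriv ℝ G x v := by
  have h1 : F =ᶠ[𝓝 x] G := hFG.eventuallyEq_of_mem (isOpen_ball.mem_nhds hx)
  exact h1.lineDeriv_eq

/-- one integration by parts step in each variable -/
lemma step (φ : E → ℝ) (hφ : ContDiff ℝ 2 φ) (hc : HasCompactSupport φ)
    (hs : tsupport φ ⊆ ball (0 : E) 2) (v : E) {ut Gt : E → ℝ} {Ku KG : NNReal}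
    (hut : LipschitzWith Ku ut) (hutE : EqOn uE ut (ball (0 : E) 2))
    (hGt : LipschitzWith KG Gt) (hGtE : EqOn (fun y => gE y v) Gt (ball (0 : E) 2)) :
    ∫ x, uE x * fderiv ℝ (fun y => fderiv ℝ φ y v) x v = ∫ x, lineDeriv ℝ Gt x v * φ x := by
  have hφd : Differentiable ℝ φ := hφ.differentiable (by norm_num)
  have hψ : ContDiff ℝ 1 (fun y => fderiv ℝ φ y v) :=
    (hφ.fderiv_right (m := 1) (by norm_num)).clm_apply contDiff_const
  have hψd : Differentiable ℝ (fun y => fderiv ℝ φ y v) := hψ.differentiable (by norm_num)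
  have hψc : HasCompactSupport (fun y => fderiv ℝ φ y v) := hc.fderiv_apply (𝕜 := ℝ) v
  have hψs : tsupport (fun y => fderiv ℝ φ y v) ⊆ tsupport φ := tsupport_fderiv_apply_subset ℝ v
  obtain ⟨K1, hK1⟩ := hψ.lipschitzWith_of_hasCompactSupport hψc (by norm_num)
  obtain ⟨K2, hK2⟩ := (hφ.of_le (by norm_num : (1 : WithTop ℕ∞) ≤ 2)).lipschitzWith_of_hasCompactSupport
    hc (by norm_num)
  have e1 : ∫ x, uE x * fderiv ℝ (fun y => fderiv ℝ φ y v) x v =
      ∫ x, lineDeriv ℝ (fun y => fderiv ℝ φ y v) x v * ut x := by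
    refine integral_congr_ae (Eventually.of_forall fun x => ?_)
    show uE x * fderiv ℝ (fun y => fderiv ℝ φ y v) x v =
      lineDeriv ℝ (fun y => fderiv ℝ φ y v) x v * ut x
    rw [(hψd x).lineDeriv_eq_fderiv]
    by_cases hx : x ∈ ball (0 : E) 2
    · rw [hutE hx, mul_comm]
    · have : x ∉ tsupport (fderiv ℝ (fun y => fderiv ℝ φ y v)) := fun h1 =>
        hx (hs (hψs (tsupport_fderiv_subset ℝ h1)))
      rw [image_eq_zero_of_notMem_tsupport this]
      simp
  have e2 : ∫ x, lineDeriv ℝ (fun y => fderiv ℝ φ y v) x v * ut x =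
      - ∫ x, lineDeriv ℝ ut x v * fderiv ℝ φ x v := by
    rw [LipschitzWith.integral_lineDeriv_mul_eq (μ := volume) hut hK1 hψc v, ← integral_neg]
    refine integral_congr_ae (Eventually.of_forall fun x => ?_)
    show _ = - (lineDeriv ℝ (fun y => fderiv ℝ φ y v) x (-v) * ut x)
    rw [lineDeriv_neg]; ring
  have e3 : ∫ x, lineDeriv ℝ ut x v * fderiv ℝ φ x v = ∫ x, lineDeriv ℝ φ x v * Gt x := by
    refine integral_congr_ae (Eventually.of_forall fun x => ?_)
    show lineDeriv ℝ ut x v * fderiv ℝ φ x v = lineDeriv ℝ φ x v * Gt x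
    rw [(hφd x).lineDeriv_eq_fderiv]
    by_cases hx : x ∈ ball (0 : E) 2
    · rw [← lineDeriv_congr_ball hutE hx v, (hasFDerivAt_uE hx).differentiableAt.lineDeriv_eq_fderiv,
        (hasFDerivAt_uE hx).fderiv, ← hGtE hx, mul_comm]
    · have : x ∉ tsupport (fderiv ℝ φ) := fun h1 => hx (hs (tsupport_fderiv_subset ℝ h1))
      rw [image_eq_zero_of_notMem_tsupport this]
      simp
  have e4 : ∫ x, lineDeriv ℝ Gt x v * φ x = - ∫ x, lineDeriv ℝ φ x v * Gt x := by
    rw [LipschitzWith.integral_lineDeriv_mul_eq (μ := volume) hGt hK2 hc v, ← integral_neg]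
    refine integral_congr_ae (Eventually.of_forall fun x => ?_)
    show lineDeriv ℝ φ x (-v) * Gt x = - (lineDeriv ℝ φ x v * Gt x)
    rw [lineDeriv_neg]; ring
  rw [e1, e2, e3, e4]

end Pool.Agent.W799.FB
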