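import Pool.Agent.W799.SRLUp2

set_option autoImplicit false

open MeasureTheory Set Filter Topology
open scoped ContDiff Interval

namespace Pool.Agent.W799.SRL

/-- differentiation under the integral sign over a compact interval -/
lemma hasDerivAt_intInt {F F' : ℝ → ℝ → ℝ} {a b : ℝ} (ha : 0 < a) (hab : a ≤ b)
    (hF : ContinuousOn (fun p : ℝ × ℝ => F p.1 p.2) {p | 0 < p.2})
    (hF' : ContinuousOn (fun p : ℝ × ℝ => F' p.1 p.2) {p | 0 < p.2})
    (h : ∀ x s, 0 < s → HasDerivAt (fun y => F y s) (F' x s) x) (x : ℝ) :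
    HasDerivAt (fun y => ∫ s in a..b, F y s) (∫ s in a..b, F' x s) x := by
  have hsub : ∀ x : ℝ, ContinuousOn (fun s : ℝ => F x s) (uIcc a b) := by
    intro x
    have := hF.comp (f := fun s : ℝ => (x, s)) (s := uIcc a b) (by fun_prop) (fun s hs => by
      rw [uIcc_of_le hab] at hs
      exact lt_of_lt_of_le ha hs.1)
    exact this
  have hsub' : ∀ x : ℝ, ContinuousOn (fun s : ℝ => F' x s) (uIcc a b) := by
    intro x
    have := hF'.comp (f := fun s : ℝ => (x, s)) (s := uIcc a b) (by fun_prop) (fun s hs => by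
      rw [uIcc_of_le hab] at hs
      exact lt_of_lt_of_le ha hs.1)
    exact this
  have hcomp : IsCompact (Metric.closedBall x 1 ×ˢ Icc a b) :=
    (isCompact_closedBall x 1).prod isCompact_Icc
  obtain ⟨C, hC⟩ := hcomp.exists_bound_of_continuousOn (hF'.mono (fun p hp =>
    lt_of_lt_of_le ha hp.2.1))
  refine (intervalIntegral.hasDerivAt_integral_of_dominated_loc_of_deriv_le
    (bound := fun _ => C) (Metric.closedBall_mem_nhds x one_pos) ?_ (hsub x).intervalIntegrable
    ?_ ?_ intervalIntegrable_const ?_).2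
  · refine Eventually.of_forall fun y => ?_
    exact ((hsub y).intervalIntegrable).aestronglyMeasurable_restrict_uIoc
  · exact ((hsub' x).intervalIntegrable).aestronglyMeasurable_restrict_uIoc
  · refine Eventually.of_forall fun s hs y hy => ?_
    rw [uIoc_of_le hab] at hs
    exact hC (y, s) ⟨hy, hs.1.le, hs.2⟩
  · refine Eventually.of_forall fun s hs y _ => ?_
    rw [uIoc_of_le hab] at hs
    exact h y s (ha.trans hs.1)

/-- quantitative concavity -/
lemma three_point {f f1 f2 : ℝ → ℝ} {p q m : ℝ} (hpq : p ≤ q) (h1 : ∀ x, HasDerivAt f (f1 x) x)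
    (h2 : ∀ x, HasDerivAt f1 (f2 x) x) (hm : ∀ x ∈ Icc p q, f2 x ≤ m) {θ : ℝ} (hθ0 : 0 ≤ θ)
    (hθ1 : θ ≤ 1) :
    (1 - θ) * f p + θ * f q - m / 2 * (θ * (1 - θ)) * (q - p) ^ 2 ≤ f ((1 - θ) * p + θ * q) := by
  have hsq : ∀ x : ℝ, HasDerivAt (fun x : ℝ => m / 2 * x ^ 2) (m * x) x := by
    intro x
    have := ((hasDerivAt_id x).pow 2).const_mul (m / 2)
    refine this.congr_deriv ?_
    simp; ring
  have hg : ConcaveOn ℝ (Icc p q) (fun x => f x - m / 2 * x ^ 2) := by
    refine concaveOn_of_hasDerivWithinAt2_nonpos (f' := fun x => f1 x - m * x)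
      (f'' := fun x => f2 x - m) (convex_Icc p q) ?_ ?_ ?_ ?_
    · intro x _
      exact ((h1 x).sub (hsq x)).continuousAt.continuousWithinAt
    · intro x _
      exact ((h1 x).sub (hsq x)).hasDerivWithinAt
    · intro x _
      have : HasDerivAt (fun x : ℝ => m * x) m x := by
        simpa using (hasDerivAt_id x).const_mul m
      exact ((h2 x).sub this).hasDerivWithinAt
    · intro x hx
      have := hm x (interior_subset hx)
      linarith
  have := hg.2 (left_mem_Icc.2 hpq) (right_mem_Icc.2 hpq) (show 0 ≤ 1 - θ by linarith) hθ0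
    (by ring)
  simp only [smul_eq_mul] at this
  nlinarith

section crit
variable {a : ℝ → ℝ} {v vt vx vxx : ℝ → ℝ → ℝ}

/-- weighted time integrals of a solution of `v_t = a v_xx` -/
lemma two_derivs (ha0 : ∀ x, 0 < a x)
    (hcv : ContinuousOn (fun p : ℝ × ℝ => v p.1 p.2) {p | 0 < p.2})
    (hcx : ContinuousOn (fun p : ℝ × ℝ => vx p.1 p.2) {p | 0 < p.2})
    (hcxx : ContinuousOn (fun p : ℝ × ℝ => vxx p.1 p.2) {p | 0 < p.2})
    (hx : ∀ x s, 0 < s → HasDerivAt (fun y => v y s) (vx x s) x)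
    (hxx : ∀ x s, 0 < s → HasDerivAt (fun y => vx y s) (vxx x s) x)
    (heq : ∀ x s, 0 < s → vt x s = a x * vxx x s)
    {om : ℝ → ℝ} (hom : Continuous om) {T : ℝ} (hT : 1 ≤ T) (x : ℝ) :
    HasDerivAt (fun y => ∫ s in (1:ℝ)..T, om s * v y s) (∫ s in (1:ℝ)..T, om s * vx x s) x ∧
    HasDerivAt (fun y => ∫ s in (1:ℝ)..T, om s * vx y s)
      ((∫ s in (1:ℝ)..T, om s * vt x s) / a x) x := by
  have hom' : ContinuousOn (fun p : ℝ × ℝ => om p.2) {p | 0 < p.2} := by fun_prop
  refine ⟨hasDerivAt_intInt one_pos hT (hom'.mul hcv) (hom'.mul hcx)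
    (fun y s hs => (hx y s hs).const_mul _) x, ?_⟩
  have h := hasDerivAt_intInt one_pos hT (F := fun y s => om s * vx y s)
    (F' := fun y s => om s * vxx y s) (hom'.mul hcx) (hom'.mul hcxx)
    (fun y s hs => (hxx y s hs).const_mul _) x
  refine h.congr_deriv ?_
  rw [← intervalIntegral.integral_div]
  apply intervalIntegral.integral_congr
  intro s hs
  rw [uIcc_of_le hT] at hs
  have := heq x s (by linarith [hs.1])
  simp only
  rw [this]
  have := ha0 x
  field_simp

end crit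

/-- a positive solution of `v_t = a v_xx` on `ℝ × (0,∞)` cannot be integrable in time -/
theorem not_integrable {a : ℝ → ℝ} {v vt vx vxx : ℝ → ℝ → ℝ} (ha : Continuous a)
    (ha0 : ∀ x, 0 < a x) (hv : ∀ x s, 0 < s → 0 < v x s)
    (hcv : ContinuousOn (fun p : ℝ × ℝ => v p.1 p.2) {p | 0 < p.2})
    (hct : ContinuousOn (fun p : ℝ × ℝ => vt p.1 p.2) {p | 0 < p.2})
    (hcx : ContinuousOn (fun p : ℝ × ℝ => vx p.1 p.2) {p | 0 < p.2})
    (hcxx : ContinuousOn (fun p : ℝ × ℝ => vxx p.1 p.2) {p | 0 < p.2})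
    (ht : ∀ x s, 0 < s → HasDerivAt (fun r => v x r) (vt x s) s)
    (hx : ∀ x s, 0 < s → HasDerivAt (fun y => v y s) (vx x s) x)
    (hxx : ∀ x s, 0 < s → HasDerivAt (fun y => vx y s) (vxx x s) x)
    (heq : ∀ x s, 0 < s → vt x s = a x * vxx x s)
    (hint : ∀ x, x ≠ 0 → IntegrableOn (fun s => v x s) (Ioi 0)) : False := by
  -- slices
  have hcs : ∀ x, ContinuousOn (fun s : ℝ => v x s) (Ioi 0) := fun x =>
    hcv.comp (f := fun s : ℝ => (x, s)) (by fun_prop) (fun s hs => hs)
  have hcst : ∀ x, ContinuousOn (fun s : ℝ => vt x s) (Ioi 0) := fun x =>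
    hct.comp (f := fun s : ℝ => (x, s)) (by fun_prop) (fun s hs => hs)
  have hc1 : Continuous (fun x : ℝ => v x 1) := by
    have : ContinuousOn (fun x : ℝ => v x 1) univ :=
      hcv.comp (f := fun x : ℝ => (x, 1)) (by fun_prop) (fun s hs => by simp)
    exact continuousOn_univ.1 this
  set h : ℝ → ℝ := fun x => v x 1 / a x with hh
  have hhc : Continuous h := hc1.div ha fun x => (ha0 x).ne'
  have hhpos : ∀ x, 0 < h x := fun x => div_pos (hv x 1 one_pos) (ha0 x)
  set G : ℝ → ℝ := fun x => ∫ s in Ioi 0, v x s with hG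
  have huIcc : ∀ T : ℝ, 1 ≤ T → ∀ s ∈ uIcc 1 T, 0 < s := fun T hT s hs => by
    rw [uIcc_of_le hT] at hs; linarith [hs.1]
  have hVG : ∀ x, x ≠ 0 → ∀ T, 1 ≤ T → ∫ s in (1:ℝ)..T, v x s ≤ G x := by
    intro x hx0 T hT
    rw [intervalIntegral.integral_of_le hT]
    apply setIntegral_mono_set (hint x hx0)
    · filter_upwards [ae_restrict_mem measurableSet_Ioi] with s hs using (hv x s hs).le
    · exact (Ioc_subset_Ioi_self.trans (Ioi_subset_Ioi zero_le_one)).eventuallyLE
  -- first estimate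
  have hB : ∀ R : ℝ, 1 ≤ R → ∃ B : ℝ, 0 < B ∧ ∀ T, 1 ≤ T → ∀ x ∈ Icc (-R) R,
      ∫ s in (1:ℝ)..T, v x s ≤ B := by
    intro R hR
    obtain ⟨C, hC⟩ := (isCompact_Icc (a := -R) (b := R)).exists_bound_of_continuousOn
      hhc.continuousOn
    have hC0 : 0 ≤ C := (norm_nonneg _).trans (hC 0 ⟨by linarith, by linarith⟩)
    refine ⟨|G R| + |G (-R)| + C / 2 * (2 * R) ^ 2 + 1, by positivity, fun T hT x hx' => ?_⟩
    have hd := fun x => two_derivs ha0 hcv hcx hcxx hx hxx heq (om := fun _ => 1)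
      continuous_const hT x
    have hval : ∀ x, (∫ s in (1:ℝ)..T, (1:ℝ) * vt x s) = v x T - v x 1 := by
      intro x
      simp only [one_mul]
      apply intervalIntegral.integral_eq_sub_of_hasDerivAt
      · intro s hs; exact ht x s (huIcc T hT s hs)
      · exact ((hcst x).mono (huIcc T hT)).intervalIntegrable
    have h3 := three_point (f := fun y => -∫ s in (1:ℝ)..T, (1:ℝ) * v y s)
      (f1 := fun y => -∫ s in (1:ℝ)..T, (1:ℝ) * vx y s)
      (f2 := fun y => -((∫ s in (1:ℝ)..T, (1:ℝ) * vt y s) / a y)) (p := -R) (q := R) (m := C)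
      (by linarith) (fun y => (hd y).1.neg) (fun y => (hd y).2.neg) (fun y hy => by
        rw [hval y]
        have h5 := hC y hy
        rw [Real.norm_of_nonneg (hhpos y).le] at h5
        have h6 : 0 ≤ v y T / a y := (div_pos (hv y T (by linarith)) (ha0 y)).le
        have h7 : (v y T - v y 1) / a y = v y T / a y - h y := by rw [hh]; ring
        rw [h7]; linarith)
      (θ := (x + R) / (2 * R)) (div_nonneg (by linarith [hx'.1]) (by linarith))
      ((div_le_one (by linarith)).2 (by linarith [hx'.2]))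
    have hR0 : 0 < 2 * R := by linarith
    have hθ0 : 0 ≤ (x + R) / (2 * R) := div_nonneg (by linarith [hx'.1]) (by linarith)
    have hθ1 : (x + R) / (2 * R) ≤ 1 := (div_le_one (by linarith)).2 (by linarith [hx'.2])
    have hpt : (1 - (x + R) / (2 * R)) * -R + (x + R) / (2 * R) * R = x := by
      field_simp; ring
    rw [hpt] at h3
    simp only [one_mul] at h3
    set θ := (x + R) / (2 * R) with hθ
    have hVR := hVG R (by linarith) T hT
    have hVR' := hVG (-R) (by linarith) T hT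
    have k1 : (1 - θ) * (∫ s in (1:ℝ)..T, v (-R) s) ≤ |G (-R)| := by
      have h8 : 0 ≤ ∫ s in (1:ℝ)..T, v (-R) s :=
        intervalIntegral.integral_nonneg hT fun s hs => (hv _ s (by linarith [hs.1])).le
      calc (1 - θ) * (∫ s in (1:ℝ)..T, v (-R) s) ≤ 1 * (∫ s in (1:ℝ)..T, v (-R) s) := by
            gcongr; linarith
        _ ≤ |G (-R)| := by rw [one_mul]; exact hVR'.trans (le_abs_self _)
    have k2 : θ * (∫ s in (1:ℝ)..T, v R s) ≤ |G R| := by
      have h8 : 0 ≤ ∫ s in (1:ℝ)..T, v R s :=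
        intervalIntegral.integral_nonneg hT fun s hs => (hv _ s (by linarith [hs.1])).le
      calc θ * (∫ s in (1:ℝ)..T, v R s) ≤ 1 * (∫ s in (1:ℝ)..T, v R s) := by
            gcongr
        _ ≤ |G R| := by rw [one_mul]; exact hVR.trans (le_abs_self _)
    have k3 : C / 2 * (θ * (1 - θ)) * (R - -R) ^ 2 ≤ C / 2 * (2 * R) ^ 2 := by
      have : θ * (1 - θ) ≤ 1 := by nlinarith
      have e1 : R - -R = 2 * R := by ring
      rw [e1]
      calc C / 2 * (θ * (1 - θ)) * (2 * R) ^ 2 ≤ C / 2 * 1 * (2 * R) ^ 2 := by gcongr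
        _ = C / 2 * (2 * R) ^ 2 := by ring
    linarith
  -- the constant `η`
  obtain ⟨η, hη0, hη⟩ : ∃ η : ℝ, 0 < η ∧ ∀ x ∈ Icc (0:ℝ) 2, η ≤ h x := by
    obtain ⟨x0, hx0, hmin⟩ := (isCompact_Icc (a := (0:ℝ)) (b := 2)).exists_isMinOn
      ⟨0, by norm_num⟩ hhc.continuousOn
    exact ⟨h x0, hhpos x0, fun x hx => hmin hx⟩
  -- choice of `ρ`
  set ρ : ℝ := 4 * |G 1| / η + 2 with hρ
  have hρ2 : 2 ≤ ρ := by
    have : 0 ≤ 4 * |G 1| / η := by positivity
    linarith
  obtain ⟨B, hB0, hB⟩ := hB (1 + ρ) (by linarith)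
  obtain ⟨m, hm0, hm⟩ : ∃ m : ℝ, 0 < m ∧ ∀ x ∈ Icc (-(1 + ρ)) (1 + ρ), m ≤ a x := by
    obtain ⟨x0, hx0, hmin⟩ := (isCompact_Icc (a := -(1 + ρ)) (b := 1 + ρ)).exists_isMinOn
      ⟨0, by constructor <;> linarith⟩ ha.continuousOn
    exact ⟨a x0, ha0 x0, fun x hx => hmin hx⟩
  set ε : ℝ := η / (2 * (1 + ρ)) with hε
  have hε0 : 0 < ε := by positivity
  set L : ℝ := B / (m * ε) with hL
  have hL0 : 0 < L := by positivity
  set T : ℝ := 1 + L with hTdef
  have hT : 1 ≤ T := by linarith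
  have hTL : T - 1 = L := by ring
  -- the function `A`
  have hd := fun x => two_derivs ha0 hcv hcx hcxx hx hxx heq (om := fun s => T - s)
      (by fun_prop) hT x
  have hval : ∀ x, (∫ s in (1:ℝ)..T, (T - s) * vt x s) =
      (∫ s in (1:ℝ)..T, v x s) - L * v x 1 := by
    intro x
    have hi1 : IntervalIntegrable (fun s => (T - s) * vt x s) volume 1 T :=
      (ContinuousOn.mul (by fun_prop) ((hcst x).mono (huIcc T hT))).intervalIntegrable
    have hi2 : IntervalIntegrable (fun s => v x s) volume 1 T :=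
      ((hcs x).mono (huIcc T hT)).intervalIntegrable
    have h1 : ∫ s in (1:ℝ)..T, ((T - s) * vt x s - v x s) = (T - T) * v x T - (T - 1) * v x 1 := by
      apply intervalIntegral.integral_eq_sub_of_hasDerivAt (f := fun s => (T - s) * v x s)
      · intro s hs
        have h5 : HasDerivAt (fun s : ℝ => T - s) (-1) s := by
          simpa using (hasDerivAt_id s).const_sub T
        refine (h5.mul (ht x s (huIcc T hT s hs))).congr_deriv ?_
        ring
      · exact hi1.sub hi2
    rw [intervalIntegral.integral_sub hi1 hi2] at h1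
    rw [hTL] at h1
    linarith
  have hmemR : ∀ x ∈ Icc (1 - ρ) (1 + ρ), x ∈ Icc (-(1 + ρ)) (1 + ρ) := fun x hx =>
    ⟨by linarith [hx.1], hx.2⟩
  set A : ℝ → ℝ := fun y => (∫ s in (1:ℝ)..T, (T - s) * v y s) / L with hA
  set A1 : ℝ → ℝ := fun y => (∫ s in (1:ℝ)..T, (T - s) * vx y s) / L with hA1
  set A2 : ℝ → ℝ := fun y => ((∫ s in (1:ℝ)..T, (T - s) * vt y s) / a y) / L with hA2
  have hA2le : ∀ x ∈ Icc (1 - ρ) (1 + ρ), A2 x ≤ ε - h x := by
    intro x hx
    have e1 : A2 x = (∫ s in (1:ℝ)..T, v x s) / (a x * L) - h x := by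
      simp only [hA2, hval x, hh]
      have := ha0 x
      field_simp
    rw [e1]
    have h5 := hB T hT x (hmemR x hx)
    have h6 := hm x (hmemR x hx)
    have h7 : (∫ s in (1:ℝ)..T, v x s) / (a x * L) ≤ B / (m * L) := by gcongr
    have h8 : B / (m * L) = ε := by rw [hL]; field_simp
    linarith
  have hAd1 : ∀ x, HasDerivAt A (A1 x) x := fun x => (hd x).1.div_const L
  have hAd2 : ∀ x, HasDerivAt A1 (A2 x) x := fun x => (hd x).2.div_const L
  have hAnn : ∀ x, 0 ≤ A x := fun x => by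
    apply div_nonneg _ hL0.le
    exact intervalIntegral.integral_nonneg hT fun s hs =>
      mul_nonneg (by linarith [hs.2]) (hv _ s (by linarith [hs.1])).le
  have hAG : A 1 ≤ |G 1| := by
    have h1 : (∫ s in (1:ℝ)..T, (T - s) * v 1 s) ≤ ∫ s in (1:ℝ)..T, L * v 1 s := by
      apply intervalIntegral.integral_mono_on hT
      · exact (ContinuousOn.mul (by fun_prop) ((hcs 1).mono (huIcc T hT))).intervalIntegrable
      · exact (ContinuousOn.mul (by fun_prop) ((hcs 1).mono (huIcc T hT))).intervalIntegrable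
      · intro s hs
        have := hv 1 s (by linarith [hs.1])
        gcongr
        linarith [hs.1]
    rw [intervalIntegral.integral_const_mul] at h1
    have h2 := hVG 1 one_ne_zero T hT
    have h3 : A 1 ≤ ∫ s in (1:ℝ)..T, v 1 s := by
      simp only [hA]
      rw [div_le_iff₀ hL0]
      linarith
    exact h3.trans (h2.trans (le_abs_self _))
  -- three applications of concavity
  have t1 := three_point (f := A) (p := 0) (q := 2) (m := ε - η) (by norm_num) hAd1 hAd2
    (fun x hx => by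
      have h1 := hA2le x ⟨by linarith [hx.1], by linarith [hx.2]⟩
      have h2 := hη x hx
      linarith) (θ := 1 / 2) (by norm_num) (by norm_num)
  have t2 := three_point (f := A) (p := 1) (q := 1 + ρ) (m := ε) (by linarith) hAd1 hAd2
    (fun x hx => by
      have h1 := hA2le x ⟨by linarith [hx.1], by linarith [hx.2]⟩
      have h2 := hhpos x
      linarith) (θ := 1 / ρ) (by positivity) (by rw [div_le_one (by linarith)]; linarith)
  have t3 := three_point (f := A) (p := 1 - ρ) (q := 1) (m := ε) (by linarith) hAd1 hAd2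
    (fun x hx => by
      have h1 := hA2le x ⟨by linarith [hx.1], by linarith [hx.2]⟩
      have h2 := hhpos x
      linarith) (θ := 1 - 1 / ρ) (by
        have : 1 / ρ ≤ 1 := by rw [div_le_one (by linarith)]; linarith
        linarith) (by
        have : 0 < 1 / ρ := by positivity
        linarith)
  have hρ0 : 0 < ρ := by linarith
  have p1 : (1 - (1:ℝ) / 2) * 0 + 1 / 2 * 2 = 1 := by norm_num
  have p2 : (1 - 1 / ρ) * 1 + 1 / ρ * (1 + ρ) = 2 := by field_simp; ring
  have p3 : (1 - (1 - 1 / ρ)) * (1 - ρ) + (1 - 1 / ρ) * 1 = 0 := by field_simp; ring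
  rw [p1] at t1
  rw [p2] at t2
  rw [p3] at t3
  have n1 := hAnn (1 + ρ)
  have n2 := hAnn (1 - ρ)
  have q2 : ε / 2 * (1 / ρ * (1 - 1 / ρ)) * (1 + ρ - 1) ^ 2 = ε / 2 * (ρ - 1) := by
    field_simp; ring
  have q3 : ε / 2 * ((1 - 1 / ρ) * (1 - (1 - 1 / ρ))) * (1 - (1 - ρ)) ^ 2 = ε / 2 * (ρ - 1) := by
    field_simp; ring
  rw [q2] at t2
  rw [q3] at t3
  have hinv : 0 < 1 / ρ := by positivity
  have n1' : 0 ≤ 1 / ρ * A (1 + ρ) := by positivity
  have n2' : 0 ≤ (1 - (1 - 1 / ρ)) * A (1 - ρ) := by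
    apply mul_nonneg _ n2
    linarith
  have hεη : ε * (1 + ρ) = η / 2 := by rw [hε]; field_simp
  have final : η / 4 ≤ 1 / ρ * A 1 := by nlinarith
  have final2 : ρ * (η / 4) ≤ A 1 := by
    have := mul_le_mul_of_nonneg_left final hρ0.le
    have e : ρ * (1 / ρ * A 1) = A 1 := by field_simp
    linarith
  have : ρ * (η / 4) = |G 1| + η / 2 := by rw [hρ]; field_simp; ring
  linarith

end Pool.Agent.W799.SRL
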