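import Mathlib

set_option autoImplicit false

open MeasureTheory Set Filter Topology
open scoped ContDiff

namespace Pool.Agent.W799.SRL

/-- The second order operator `P u = - a u'' + b u' + c u` on the manifold `M = ℝ`. -/
structure Op where
  a : ℝ → ℝ
  b : ℝ → ℝ
  c : ℝ → ℝ

/-- Smooth coefficients and `a > 0` everywhere. -/
def Op.Elliptic (P : Op) : Prop :=
  ContDiff ℝ ∞ P.a ∧ ContDiff ℝ ∞ P.b ∧ ContDiff ℝ ∞ P.c ∧ ∀ x, 0 < P.a x

/-- `P u = - a u'' + b u' + c u`. -/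
noncomputable def Op.app (P : Op) (u : ℝ → ℝ) (x : ℝ) : ℝ :=
  -P.a x * deriv (deriv u) x + P.b x * deriv u x + P.c x * u x

/-- `P ≥ 0`: the equation `P u = 0` has a positive solution on `ℝ`. -/
def Op.Nonneg (P : Op) : Prop :=
  ∃ u : ℝ → ℝ, ContDiff ℝ 2 u ∧ (∀ x, 0 < u x) ∧ ∀ x, P.app u x = 0

/-- `k x y t` is a positive fundamental solution of `∂ₜ u + P u = 0` on `ℝ × (0,∞)`:
it is positive, `k, ∂ₜ k, ∂ₓ k, ∂ₓ² k` are continuous in `(x,y,t)`, `t > 0`, it solves the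
equation in `(x,t)`, and `∫ k x' y t * f y dy → f x` as `(x',t) → (x,0+)` for every continuous
compactly supported `f`. -/
structure IsFundamental (P : Op) (k : ℝ → ℝ → ℝ → ℝ) : Prop where
  pos : ∀ x y t, 0 < t → 0 < k x y t
  smooth_x : ∀ y t, 0 < t → ContDiff ℝ 2 (fun x => k x y t)
  diff_t : ∀ x y t, 0 < t → DifferentiableAt ℝ (fun s => k x y s) t
  cont : ContinuousOn (fun p : ℝ × ℝ × ℝ => k p.1 p.2.1 p.2.2) {p | 0 < p.2.2}
  cont_t : ContinuousOn (fun p : ℝ × ℝ × ℝ => deriv (fun s => k p.1 p.2.1 s) p.2.2)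
    {p | 0 < p.2.2}
  cont_x : ContinuousOn (fun p : ℝ × ℝ × ℝ => deriv (fun x => k x p.2.1 p.2.2) p.1)
    {p | 0 < p.2.2}
  cont_xx : ContinuousOn (fun p : ℝ × ℝ × ℝ => deriv (deriv (fun x => k x p.2.1 p.2.2)) p.1)
    {p | 0 < p.2.2}
  eqn : ∀ x y t, 0 < t → deriv (fun s => k x y s) t + P.app (fun x => k x y t) x = 0
  init : ∀ f : ℝ → ℝ, Continuous f → HasCompactSupport f → ∀ x,
    Tendsto (fun p : ℝ × ℝ => ∫ y, k p.1 y p.2 * f y) (𝓝[{p | 0 < p.2}] (x, 0)) (𝓝 (f x))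

/-- `w x t` is a nonnegative supersolution of the Cauchy problem for `∂ₜ u + P u = 0`:
continuous and nonnegative on `ℝ × [0,∞)`, of class `C^{2,1}` on `ℝ × (0,∞)`, and
`∂ₜ w + P w ≥ 0` there. -/
structure IsSuper (P : Op) (w : ℝ → ℝ → ℝ) : Prop where
  cont : ContinuousOn (fun p : ℝ × ℝ => w p.1 p.2) {p | 0 ≤ p.2}
  nonneg : ∀ x t, 0 ≤ t → 0 ≤ w x t
  smooth_x : ∀ t, 0 < t → ContDiff ℝ 2 (fun x => w x t)
  diff_t : ∀ x t, 0 < t → DifferentiableAt ℝ (fun s => w x s) t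
  cont_t : ContinuousOn (fun p : ℝ × ℝ => deriv (fun s => w p.1 s) p.2) {p | 0 < p.2}
  cont_x : ContinuousOn (fun p : ℝ × ℝ => deriv (fun x => w x p.2) p.1) {p | 0 < p.2}
  cont_xx : ContinuousOn (fun p : ℝ × ℝ => deriv (deriv (fun x => w x p.2)) p.1) {p | 0 < p.2}
  ineq : ∀ x t, 0 < t → 0 ≤ deriv (fun s => w x s) t + P.app (fun x => w x t) x

/-- `k` is the heat kernel of `P` on `ℝ`: the minimal positive fundamental solution of
`∂ₜ u + P u = 0`; for every continuous compactly supported `f ≥ 0` the function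
`∫ k x y t * f y dy` is the smallest nonnegative supersolution of the Cauchy problem with
initial values at least `f`. -/
structure IsHeatKernel (P : Op) (k : ℝ → ℝ → ℝ → ℝ) : Prop extends IsFundamental P k where
  minimal : ∀ f : ℝ → ℝ, Continuous f → HasCompactSupport f → (∀ x, 0 ≤ f x) →
    ∀ w : ℝ → ℝ → ℝ, IsSuper P w → (∀ x, f x ≤ w x 0) →
      ∀ x t, 0 < t → ∫ y, k x y t * f y ≤ w x t

/-- The Green function `∫₀^∞ k x y t dt` is finite for all `x ≠ y`. -/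
def Subcritical (k : ℝ → ℝ → ℝ → ℝ) : Prop :=
  ∀ x y, x ≠ y → IntegrableOn (fun t => k x y t) (Ioi 0)

end Pool.Agent.W799.SRL
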