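import Pool.Agent.W799.SRLMax

set_option autoImplicit false

open MeasureTheory Set Filter Topology
open scoped ContDiff

namespace Pool.Agent.W799.SRL

/-- a positive kernel with its explicit derivatives, solving `k_t + P k = 0` -/
structure KData (P : Op) (k kt kx kxx : ℝ → ℝ → ℝ → ℝ) : Prop where
  pos : ∀ x y t, 0 < t → 0 < k x y t
  ht : ∀ x y t, 0 < t → HasDerivAt (fun s => k x y s) (kt x y t) t
  hx : ∀ x y t, 0 < t → HasDerivAt (fun x => k x y t) (kx x y t) x
  hxx : ∀ x y t, 0 < t → HasDerivAt (fun x => kx x y t) (kxx x y t) x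
  c : ContinuousOn (fun p : ℝ × ℝ × ℝ => k p.1 p.2.1 p.2.2) {p | 0 < p.2.2}
  ct : ContinuousOn (fun p : ℝ × ℝ × ℝ => kt p.1 p.2.1 p.2.2) {p | 0 < p.2.2}
  cx : ContinuousOn (fun p : ℝ × ℝ × ℝ => kx p.1 p.2.1 p.2.2) {p | 0 < p.2.2}
  cxx : ContinuousOn (fun p : ℝ × ℝ × ℝ => kxx p.1 p.2.1 p.2.2) {p | 0 < p.2.2}
  eqn : ∀ x y t, 0 < t → kt x y t + (-P.a x * kxx x y t + P.b x * kx x y t + P.c x * k x y t) = 0

lemma KData.isFundamental {P : Op} {k kt kx kxx : ℝ → ℝ → ℝ → ℝ} (h : KData P k kt kx kxx)
    (init : ∀ f : ℝ → ℝ, Continuous f → HasCompactSupport f → ∀ x,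
      Tendsto (fun p : ℝ × ℝ => ∫ y, k p.1 y p.2 * f y) (𝓝[{p | 0 < p.2}] (x, 0)) (𝓝 (f x))) :
    IsFundamental P k := by
  have d1 : ∀ y t, 0 < t → deriv (fun x => k x y t) = fun x => kx x y t :=
    fun y t ht => funext fun x => (h.hx x y t ht).deriv
  have d2 : ∀ y t, 0 < t → deriv (deriv (fun x => k x y t)) = fun x => kxx x y t :=
    fun y t ht => by
      rw [d1 y t ht]; exact funext fun x => (h.hxx x y t ht).deriv
  refine ⟨h.pos, fun y t ht => ?_, fun x y t ht => (h.ht x y t ht).differentiableAt, h.c, ?_, ?_,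
    ?_, ?_, init⟩
  · have hcc : Continuous fun x => kxx x y t := by
      have h1 : ContinuousOn (fun x : ℝ => kxx x y t) univ := by
        have := h.cxx.comp (f := fun x : ℝ => (x, y, t)) (s := univ)
          (by fun_prop) (fun y _ => ht)
        exact this
      exact continuousOn_univ.1 h1
    have hC1 : ContDiff ℝ 1 (fun x => kx x y t) := by
      rw [contDiff_one_iff_deriv]
      refine ⟨fun x => (h.hxx x y t ht).differentiableAt, ?_⟩
      have : deriv (fun x => kx x y t) = fun x => kxx x y t :=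
        funext fun x => (h.hxx x y t ht).deriv
      rw [this]; exact hcc
    have h2 : ContDiff ℝ (1 + 1) (fun x => k x y t) := by
      rw [contDiff_succ_iff_deriv]
      refine ⟨fun x => (h.hx x y t ht).differentiableAt, by simp, ?_⟩
      rw [d1 y t ht]; exact hC1
    exact h2.of_le (by norm_num)
  · exact h.ct.congr fun p hp => (h.ht p.1 p.2.1 p.2.2 hp).deriv
  · exact h.cx.congr fun p hp => (h.hx p.1 p.2.1 p.2.2 hp).deriv
  · refine h.cxx.congr fun p hp => ?_
    have : deriv (deriv (fun x => k x p.2.1 p.2.2)) p.1 = kxx p.1 p.2.1 p.2.2 := by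
      rw [d2 p.2.1 p.2.2 hp]
    exact this
  · intro x y t ht
    have e1 : deriv (fun s => k x y s) t = kt x y t := (h.ht x y t ht).deriv
    have e2 : deriv (fun x => k x y t) x = kx x y t := (h.hx x y t ht).deriv
    have e3 : deriv (deriv (fun x => k x y t)) x = kxx x y t := by rw [d2 y t ht]
    unfold Op.app
    rw [e1, e2, e3]
    exact h.eqn x y t ht

/-- differentiation under the integral sign against a compactly supported function -/
lemma hasDerivAt_cint {K K' : ℝ → ℝ → ℝ} {f : ℝ → ℝ} (hf : Continuous f)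
    (hfc : HasCompactSupport f) {U : Set ℝ} (hU : IsOpen U)
    (hK : ContinuousOn (fun p : ℝ × ℝ => K p.1 p.2) (U ×ˢ univ))
    (hK' : ContinuousOn (fun p : ℝ × ℝ => K' p.1 p.2) (U ×ˢ univ))
    (h : ∀ s ∈ U, ∀ y, HasDerivAt (fun s => K s y) (K' s y) s) {s : ℝ} (hs : s ∈ U) :
    HasDerivAt (fun s => ∫ y, K s y * f y) (∫ y, K' s y * f y) s := by
  have c1 : ∀ s ∈ U, Continuous (fun y => K s y * f y) := by
    intro s hs
    have := hK.comp (f := fun y : ℝ => (s, y)) (s := univ) (by fun_prop)
      (fun y _ => ⟨hs, mem_univ _⟩)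
    exact (continuousOn_univ.1 this).mul hf
  have c2 : ∀ s ∈ U, Continuous (fun y => K' s y * f y) := by
    intro s hs
    have := hK'.comp (f := fun y : ℝ => (s, y)) (s := univ) (by fun_prop)
      (fun y _ => ⟨hs, mem_univ _⟩)
    exact (continuousOn_univ.1 this).mul hf
  obtain ⟨ε, hε, hεU⟩ := Metric.nhds_basis_closedBall.mem_iff.1 (hU.mem_nhds hs)
  have hcomp : IsCompact (Metric.closedBall s ε ×ˢ tsupport f) :=
    (isCompact_closedBall s ε).prod hfc
  obtain ⟨C, hC⟩ := hcomp.exists_bound_of_continuousOn (hK'.mono (fun p hp =>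
    ⟨hεU hp.1, mem_univ _⟩))
  refine (hasDerivAt_integral_of_dominated_loc_of_deriv_le (μ := volume)
    (F := fun s y => K s y * f y) (F' := fun s y => K' s y * f y)
    (bound := fun y => |C| * |f y|) (Metric.closedBall_mem_nhds s hε) ?_ ?_ ?_ ?_ ?_ ?_).2
  · filter_upwards [hU.mem_nhds hs] with s' hs'
    exact (c1 s' hs').aestronglyMeasurable
  · exact (c1 s hs).integrable_of_hasCompactSupport hfc.mul_left
  · exact (c2 s hs).aestronglyMeasurable
  · refine Eventually.of_forall fun y s' hs' => ?_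
    by_cases hy : y ∈ tsupport f
    · rw [norm_mul]
      have h1 := hC (s', y) ⟨hs', hy⟩
      have h2 : ‖f y‖ = |f y| := rfl
      rw [h2]
      exact mul_le_mul_of_nonneg_right (h1.trans (le_abs_self C)) (abs_nonneg _)
    · rw [image_eq_zero_of_notMem_tsupport hy]; simp
  · have : Integrable f := hf.integrable_of_hasCompactSupport hfc
    exact this.norm.const_mul |C|
  · refine Eventually.of_forall fun y s' hs' => ?_
    exact (h s' (hεU hs') y).mul_const _

/-- the solution generated by a kernel has a jet solving the equation -/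
lemma KData.jet {P : Op} {k kt kx kxx : ℝ → ℝ → ℝ → ℝ} (h : KData P k kt kx kxx)
    {f : ℝ → ℝ} (hf : Continuous f) (hfc : HasCompactSupport f) (x : ℝ) {t : ℝ} (ht : 0 < t) :
    Jet (fun x t => ∫ y, k x y t * f y) x t (∫ y, kt x y t * f y) (∫ y, kx x y t * f y)
      (∫ y, kxx x y t * f y) ∧
    (∫ y, kt x y t * f y) + (-P.a x * (∫ y, kxx x y t * f y) + P.b x * (∫ y, kx x y t * f y) +
      P.c x * (∫ y, k x y t * f y)) = 0 := by
  have slice : ∀ {g : ℝ → ℝ → ℝ → ℝ},
      ContinuousOn (fun p : ℝ × ℝ × ℝ => g p.1 p.2.1 p.2.2) {p | 0 < p.2.2} →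
      Continuous (fun y => g x y t * f y) := by
    intro g hg
    have := hg.comp (f := fun y : ℝ => (x, y, t)) (s := univ) (by fun_prop) (fun y _ => ht)
    exact (continuousOn_univ.1 this).mul hf
  refine ⟨⟨?_, fun x => ∫ y, kx x y t * f y, ?_, rfl, ?_⟩, ?_⟩
  · refine hasDerivAt_cint (K := fun s y => k x y s) (K' := fun s y => kt x y s) hf hfc
      isOpen_Ioi ?_ ?_ (fun s hs y => h.ht x y s hs) ht
    · exact h.c.comp (f := fun p : ℝ × ℝ => (x, p.2, p.1)) (by fun_prop) (fun p hp => hp.1)
    · exact h.ct.comp (f := fun p : ℝ × ℝ => (x, p.2, p.1)) (by fun_prop) (fun p hp => hp.1)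
  · refine Eventually.of_forall fun x' => ?_
    refine hasDerivAt_cint (K := fun s y => k s y t) (K' := fun s y => kx s y t) hf hfc
      isOpen_univ ?_ ?_ (fun s _ y => h.hx s y t ht) (mem_univ x')
    · exact h.c.comp (f := fun p : ℝ × ℝ => (p.1, p.2, t)) (by fun_prop) (fun p hp => ht)
    · exact h.cx.comp (f := fun p : ℝ × ℝ => (p.1, p.2, t)) (by fun_prop) (fun p hp => ht)
  · refine hasDerivAt_cint (K := fun s y => kx s y t) (K' := fun s y => kxx s y t) hf hfc
      isOpen_univ ?_ ?_ (fun s _ y => h.hxx s y t ht) (mem_univ x)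
    · exact h.cx.comp (f := fun p : ℝ × ℝ => (p.1, p.2, t)) (by fun_prop) (fun p hp => ht)
    · exact h.cxx.comp (f := fun p : ℝ × ℝ => (p.1, p.2, t)) (by fun_prop) (fun p hp => ht)
  · have i0 : Integrable (fun y => k x y t * f y) :=
      (slice h.c).integrable_of_hasCompactSupport hfc.mul_left
    have i1 : Integrable (fun y => kt x y t * f y) :=
      (slice h.ct).integrable_of_hasCompactSupport hfc.mul_left
    have i2 : Integrable (fun y => kx x y t * f y) :=
      (slice h.cx).integrable_of_hasCompactSupport hfc.mul_left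
    have i3 : Integrable (fun y => kxx x y t * f y) :=
      (slice h.cxx).integrable_of_hasCompactSupport hfc.mul_left
    have j3 : Integrable (fun y => -P.a x * (kxx x y t * f y)) := i3.const_mul _
    have j2 : Integrable (fun y => P.b x * (kx x y t * f y)) := i2.const_mul _
    have j0 : Integrable (fun y => P.c x * (k x y t * f y)) := i0.const_mul _
    have j32 : Integrable (fun y => -P.a x * (kxx x y t * f y) + P.b x * (kx x y t * f y)) :=
      j3.add j2
    have j320 : Integrable (fun y => -P.a x * (kxx x y t * f y) + P.b x * (kx x y t * f y) +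
      P.c x * (k x y t * f y)) := j32.add j0
    rw [← integral_const_mul, ← integral_const_mul, ← integral_const_mul,
      ← integral_add j3 j2, ← integral_add j32 j0, ← integral_add i1 j320]
    have : (fun y => kt x y t * f y + (-P.a x * (kxx x y t * f y) + P.b x * (kx x y t * f y) +
        P.c x * (k x y t * f y))) = fun _ => (0:ℝ) := by
      funext y
      have := h.eqn x y t ht
      linear_combination f y * this
    rw [this]; simp

end Pool.Agent.W799.SRL
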