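import Pool.Agent.W799.SRLTrap

set_option autoImplicit false

open MeasureTheory Set Filter Topology
open scoped ContDiff

namespace Pool.Agent.W799.SRL

/-- constructor for supersolutions from explicit derivatives -/
lemma isSuper_of (P : Op) (w wt wx wxx : ℝ → ℝ → ℝ)
    (hc : ContinuousOn (fun p : ℝ × ℝ => w p.1 p.2) {p | 0 ≤ p.2})
    (hn : ∀ x t, 0 ≤ t → 0 ≤ w x t)
    (ht : ∀ x t, 0 < t → HasDerivAt (fun s => w x s) (wt x t) t)
    (hx : ∀ x t, 0 < t → HasDerivAt (fun y => w y t) (wx x t) x)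
    (hxx : ∀ x t, 0 < t → HasDerivAt (fun y => wx y t) (wxx x t) x)
    (hct : ContinuousOn (fun p : ℝ × ℝ => wt p.1 p.2) {p | 0 < p.2})
    (hcx : ContinuousOn (fun p : ℝ × ℝ => wx p.1 p.2) {p | 0 < p.2})
    (hcxx : ContinuousOn (fun p : ℝ × ℝ => wxx p.1 p.2) {p | 0 < p.2})
    (hineq : ∀ x t, 0 < t → 0 ≤ wt x t + (-P.a x * wxx x t + P.b x * wx x t + P.c x * w x t)) :
    IsSuper P w := by
  have d1 : ∀ t, 0 < t → deriv (fun y => w y t) = fun y => wx y t :=
    fun t h => funext fun x => (hx x t h).deriv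
  have d2 : ∀ t, 0 < t → deriv (deriv (fun y => w y t)) = fun y => wxx y t := fun t h => by
    rw [d1 t h]; exact funext fun x => (hxx x t h).deriv
  refine ⟨hc, hn, fun t h => ?_, fun x t h => (ht x t h).differentiableAt, ?_, ?_, ?_, ?_⟩
  · have hcc : Continuous fun y => wxx y t := by
      have h1 : ContinuousOn (fun y : ℝ => wxx y t) univ := by
        have := hcxx.comp (f := fun y : ℝ => (y, t)) (s := univ)
          (by fun_prop) (fun y _ => h)
        exact this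
      exact continuousOn_univ.1 h1
    have hC1 : ContDiff ℝ 1 (fun y => wx y t) := by
      rw [contDiff_one_iff_deriv]
      refine ⟨fun y => (hxx y t h).differentiableAt, ?_⟩
      have : deriv (fun y => wx y t) = fun y => wxx y t := funext fun y => (hxx y t h).deriv
      rw [this]; exact hcc
    have h2 : ContDiff ℝ (1 + 1) (fun y => w y t) := by
      rw [contDiff_succ_iff_deriv]
      refine ⟨fun y => (hx y t h).differentiableAt, by simp, ?_⟩
      rw [d1 t h]; exact hC1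
    exact h2.of_le (by norm_num)
  · exact hct.congr fun p hp => (ht p.1 p.2 hp).deriv
  · exact hcx.congr fun p hp => (hx p.1 p.2 hp).deriv
  · refine hcxx.congr fun p hp => ?_
    have : deriv (deriv (fun y => w y p.2)) p.1 = wxx p.1 p.2 := by rw [d2 p.2 hp]
    exact this
  · intro x t h
    have e1 : deriv (fun s => w x s) t = wt x t := (ht x t h).deriv
    have e2 : deriv (fun y => w y t) x = wx x t := (hx x t h).deriv
    have e3 : deriv (deriv (fun y => w y t)) x = wxx x t := by rw [d2 t h]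
    unfold Op.app
    rw [e1, e2, e3]
    exact hineq x t h

noncomputable def qq (r x : ℝ) : ℝ := 1 - x ^ 2 / r ^ 2
noncomputable def ss (r κ x : ℝ) : ℝ := √((qq r x) ^ 2 + κ ^ 2)
noncomputable def psi (r κ x : ℝ) : ℝ := (qq r x + ss r κ x) / 2
noncomputable def psi1 (r κ x : ℝ) : ℝ := (-2 * x / r ^ 2) * psi r κ x / ss r κ x
noncomputable def psi2 (r κ x : ℝ) : ℝ :=
  -2 / r ^ 2 * psi r κ x / ss r κ x + 2 * (1 - qq r x) * κ ^ 2 / (r ^ 2 * (ss r κ x) ^ 3)

lemma ss_pos {r κ : ℝ} (hκ : 0 < κ) (x : ℝ) : 0 < ss r κ x := Real.sqrt_pos.2 (by positivity)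

lemma ss_sq (r κ x : ℝ) : (ss r κ x) ^ 2 = (qq r x) ^ 2 + κ ^ 2 :=
  Real.sq_sqrt (by positivity)

lemma abs_qq_le_ss (r κ x : ℝ) : |qq r x| ≤ ss r κ x :=
  Real.abs_le_sqrt (by nlinarith [sq_nonneg κ])

lemma κ_le_ss (r κ x : ℝ) : κ ≤ ss r κ x :=
  Real.le_sqrt_of_sq_le (by nlinarith [sq_nonneg (qq r x)])

lemma ss_le {r κ : ℝ} (hκ : 0 < κ) (x : ℝ) : ss r κ x ≤ |qq r x| + κ := by
  apply Real.sqrt_le_iff.2 ⟨by positivity, ?_⟩
  nlinarith [sq_abs (qq r x), abs_nonneg (qq r x)]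

lemma psi_nonneg (r κ x : ℝ) : 0 ≤ psi r κ x := by
  have := abs_qq_le_ss r κ x
  have h2 := neg_abs_le (qq r x)
  unfold psi; linarith

lemma psi_mul (r κ x : ℝ) : psi r κ x * (ss r κ x - qq r x) = κ ^ 2 / 2 := by
  have := ss_sq r κ x
  unfold psi; linear_combination this / 2

lemma qq_deriv (r x : ℝ) : HasDerivAt (qq r) (-2 * x / r ^ 2) x := by
  unfold qq
  have := (((hasDerivAt_id x).pow 2).div_const (r ^ 2)).const_sub 1
  refine this.congr_deriv ?_
  simp; ring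

lemma ss_deriv (r : ℝ) {κ : ℝ} (hκ : 0 < κ) (x : ℝ) :
    HasDerivAt (ss r κ) (qq r x * (-2 * x / r ^ 2) / ss r κ x) x := by
  have h0 : HasDerivAt (fun x => (qq r x) ^ 2 + κ ^ 2) (2 * qq r x * (-2 * x / r ^ 2)) x := by
    have := ((qq_deriv r x).pow 2).add_const (κ ^ 2)
    refine this.congr_deriv (by norm_num)
  have h := h0.sqrt (by positivity)
  refine h.congr_deriv ?_
  have hs : √((qq r x) ^ 2 + κ ^ 2) = ss r κ x := rfl
  have := ss_pos (r := r) hκ x
  rw [hs]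
  rw [mul_assoc 2, mul_div_mul_left _ _ two_ne_zero]

lemma psi_deriv (r : ℝ) {κ : ℝ} (hκ : 0 < κ) (x : ℝ) :
    HasDerivAt (psi r κ) (psi1 r κ x) x := by
  have h := ((qq_deriv r x).add (ss_deriv r hκ x)).div_const 2
  refine h.congr_deriv ?_
  have := ss_pos (r := r) hκ x
  unfold psi1 psi
  have h3 : -2 * x / r ^ 2 + qq r x * (-2 * x / r ^ 2) / ss r κ x =
    (-2 * x / r ^ 2) * (1 + qq r x / ss r κ x) := by ring
  rw [h3]
  have h4 : 1 + qq r x / ss r κ x = (qq r x + ss r κ x) / ss r κ x := by field_simp; ring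
  rw [h4]; ring

lemma psi1_deriv {r κ : ℝ} (hr : 1 ≤ r) (hκ : 0 < κ) (x : ℝ) :
    HasDerivAt (psi1 r κ) (psi2 r κ x) x := by
  have hs := ss_pos (r := r) hκ x
  have h1 : HasDerivAt (fun x : ℝ => -2 * x / r ^ 2) (-2 / r ^ 2) x := by
    have := ((hasDerivAt_id x).const_mul (-2)).div_const (r ^ 2)
    refine this.congr_deriv (by simp)
  have h := (h1.mul (psi_deriv r hκ x)).div (ss_deriv r hκ x) hs.ne'
  refine h.congr_deriv ?_
  have hr0 : r ≠ 0 := by positivity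
  have hx : 1 - qq r x = x ^ 2 / r ^ 2 := by unfold qq; ring
  have hm := psi_mul r κ x
  have hne := hs.ne'
  have e1 : ((-2 / r ^ 2 * psi r κ x + -2 * x / r ^ 2 * psi1 r κ x) * ss r κ x -
      -2 * x / r ^ 2 * psi r κ x * (qq r x * (-2 * x / r ^ 2) / ss r κ x)) / ss r κ x ^ 2 =
      -2 / r ^ 2 * psi r κ x / ss r κ x +
        4 * x ^ 2 / r ^ 4 * (psi r κ x * (ss r κ x - qq r x)) / (ss r κ x) ^ 3 := by
    unfold psi1
    field_simp
    ring
  refine Eq.trans e1 ?_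
  unfold psi2
  rw [hm, hx]
  field_simp
  ring

lemma psi_continuous {r κ : ℝ} : Continuous (psi r κ) := by
  unfold psi ss qq; fun_prop

lemma ss_continuous {r κ : ℝ} : Continuous (ss r κ) := by
  unfold ss qq; fun_prop

lemma psi1_continuous {r κ : ℝ} (hκ : 0 < κ) : Continuous (psi1 r κ) := by
  unfold psi1
  refine Continuous.div ?_ ss_continuous fun x => (ss_pos hκ x).ne'
  exact Continuous.mul (by fun_prop) psi_continuous

lemma psi2_continuous {r κ : ℝ} (hr : 1 ≤ r) (hκ : 0 < κ) : Continuous (psi2 r κ) := by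
  have hr0 : 0 < r := by linarith
  unfold psi2
  refine Continuous.add (Continuous.div (continuous_const.mul psi_continuous) ss_continuous
    fun x => (ss_pos hκ x).ne') (Continuous.div (by unfold qq; fun_prop)
      (continuous_const.mul (ss_continuous.pow 3)) fun x => ?_)
  have := ss_pos (r := r) hκ x
  positivity

lemma psi_le {r κ : ℝ} (hκ : 0 < κ) (x : ℝ) : psi r κ x ≤ max (qq r x) 0 + κ := by
  have h := ss_le (r := r) hκ x
  unfold psi
  rcases le_total 0 (qq r x) with h0 | h0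
  · rw [abs_of_nonneg h0] at h; rw [max_eq_left h0]; linarith
  · rw [abs_of_nonpos h0] at h; rw [max_eq_right h0]; linarith

/-- splitting of `lam * psi + a * psi2` -/
lemma key_split {r κ lam a x : ℝ} : lam * psi r κ x + a * psi2 r κ x =
    psi r κ x * (lam - 2 * a / (r ^ 2 * ss r κ x)) +
      2 * a * (1 - qq r x) * κ ^ 2 / (r ^ 2 * (ss r κ x) ^ 3) := by
  unfold psi2
  rw [← div_div (2 * a)]
  ring

lemma super_key {a : ℝ → ℝ} {j ℓ α α' r κ : ℝ} (hj : 1 ≤ j) (hℓ : 0 < ℓ) (hℓ1 : ℓ ≤ 1)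
    (hα : 0 < α) (hα' : 0 < α') (ha0 : ∀ x, 0 < a x)
    (ha1 : ∀ x, a x ≤ 1) (h1 : ∀ x, |x| ≤ j → α ≤ a x) (h2 : ∀ x, j + ℓ ≤ |x| → a x ≤ α')
    (hr : r = j + 2 * ℓ) (hκ : κ = ℓ ^ 2) (x : ℝ) :
    α / r ^ 2 * psi r κ x + a x * psi2 r κ x ≤
      α / r ^ 2 * (4 * ℓ + κ) + 2 * ℓ * r + 4 * α' / κ := by
  have hκ0 : 0 < κ := by rw [hκ]; positivity
  have hκ1 : κ ≤ 1 := by rw [hκ]; exact pow_le_one₀ hℓ.le hℓ1
  have hr1 : 1 ≤ r := by linarith
  have hr0 : 0 < r := by linarith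
  have hs := ss_pos (r := r) hκ0 x
  have hψ := psi_nonneg r κ x
  have hax := ha0 x
  have hqx : 1 - qq r x = x ^ 2 / r ^ 2 := by unfold qq; ring
  have hqx0 : 0 ≤ 1 - qq r x := by rw [hqx]; positivity
  have hlam : 0 < α / r ^ 2 := by positivity
  rw [key_split]
  -- the first summand outside the interval
  have A1 : j ≤ |x| → psi r κ x * (α / r ^ 2 - 2 * a x / (r ^ 2 * ss r κ x)) ≤
      α / r ^ 2 * (4 * ℓ + κ) := by
    intro hx
    have hq : qq r x ≤ 4 * ℓ := by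
      have h3 : j ^ 2 ≤ x ^ 2 := by rw [← sq_abs x]; exact pow_le_pow_left₀ (by linarith) hx 2
      unfold qq
      rw [sub_le_iff_le_add, ← sub_le_iff_le_add', le_div_iff₀ (by positivity)]
      have : (1 - 4 * ℓ) * r ^ 2 ≤ j ^ 2 := by
        rw [hr]
        nlinarith [mul_pos hℓ hℓ, mul_nonneg hℓ.le (show 0 ≤ j - 1 by linarith),
          mul_nonneg (mul_nonneg hℓ.le (show 0 ≤ j - 1 by linarith)) (show 0 ≤ j by linarith),
          mul_pos (mul_pos hℓ hℓ) hℓ, mul_pos (mul_pos hℓ hℓ) (show 0 < j by linarith)]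
      linarith
    have h3 : psi r κ x ≤ 4 * ℓ + κ := by
      refine (psi_le hκ0 x).trans ?_
      have : max (qq r x) 0 ≤ 4 * ℓ := max_le hq (by positivity)
      linarith
    have h4 : 0 ≤ 2 * a x / (r ^ 2 * ss r κ x) := by positivity
    nlinarith [mul_nonneg hψ h4, mul_le_mul_of_nonneg_left h3 hlam.le]
  have A2 : |x| ≤ j → psi r κ x * (α / r ^ 2 - 2 * a x / (r ^ 2 * ss r κ x)) ≤ 0 := by
    intro hx
    have hq1 : |qq r x| ≤ 1 := by
      rw [abs_le]
      constructor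
      · have : x ^ 2 / r ^ 2 ≤ 1 := by
          rw [div_le_one (by positivity), ← sq_abs x]
          exact pow_le_pow_left₀ (abs_nonneg x) (by linarith) 2
        linarith
      · linarith
    have hs2 : ss r κ x ≤ 2 := by linarith [ss_le (r := r) hκ0 x]
    apply mul_nonpos_of_nonneg_of_nonpos hψ
    rw [sub_nonpos, div_le_div_iff₀ (by positivity) (by positivity)]
    have hα1 := h1 x hx
    have : α * ss r κ x ≤ 2 * a x := by nlinarith
    nlinarith [sq_nonneg r, mul_le_mul_of_nonneg_left this (sq_nonneg r)]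
  -- the second summand
  have B1 : |x| ≤ j + ℓ →
      2 * a x * (1 - qq r x) * κ ^ 2 / (r ^ 2 * (ss r κ x) ^ 3) ≤ 2 * ℓ * r := by
    intro hx
    have hx2 : x ^ 2 ≤ (r - ℓ) ^ 2 := by
      rw [← sq_abs x]; exact pow_le_pow_left₀ (abs_nonneg x) (by linarith) 2
    have hq1 : ℓ / r ≤ qq r x := by
      unfold qq
      rw [le_sub_iff_add_le, div_add_div _ _ (by positivity) (by positivity),
        div_le_one (by positivity)]
      have : ℓ * r + x ^ 2 ≤ r ^ 2 := by nlinarith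
      nlinarith [mul_le_mul_of_nonneg_left this hr0.le]
    have hs3 : ℓ / r ≤ ss r κ x := hq1.trans ((le_abs_self _).trans (abs_qq_le_ss r κ x))
    have hs4 : (ℓ / r) ^ 3 ≤ (ss r κ x) ^ 3 := pow_le_pow_left₀ (by positivity) hs3 3
    have hq2 : 1 - qq r x ≤ 1 := by
      have : 0 < ℓ / r := by positivity
      linarith
    calc 2 * a x * (1 - qq r x) * κ ^ 2 / (r ^ 2 * (ss r κ x) ^ 3)
        ≤ 2 * 1 * 1 * κ ^ 2 / (r ^ 2 * (ℓ / r) ^ 3) := by
          gcongr
          exact ha1 x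
      _ = 2 * ℓ * r := by rw [hκ]; field_simp
  have B2 : j + ℓ ≤ |x| →
      2 * a x * (1 - qq r x) * κ ^ 2 / (r ^ 2 * (ss r κ x) ^ 3) ≤ 4 * α' / κ := by
    intro hx
    have hs1 := κ_le_ss r κ x
    have hs2 := abs_qq_le_ss r κ x
    have hq : 1 - qq r x ≤ 1 + |qq r x| := by linarith [neg_abs_le (qq r x)]
    have h5 : (1 - qq r x) * κ ^ 2 * κ ≤ 2 * (ss r κ x) ^ 3 := by
      have e1 : κ ^ 2 ≤ (ss r κ x) ^ 2 := pow_le_pow_left₀ hκ0.le hs1 2
      have e2 : κ ^ 3 ≤ (ss r κ x) ^ 3 := pow_le_pow_left₀ hκ0.le hs1 3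
      have e3 : |qq r x| * κ ^ 2 ≤ (ss r κ x) * (ss r κ x) ^ 2 :=
        mul_le_mul hs2 e1 (by positivity) hs.le
      have e4 : (1 - qq r x) * κ ^ 2 * κ ≤ (1 + |qq r x|) * κ ^ 2 * κ := by gcongr
      have e5 : |qq r x| * κ ^ 2 * κ ≤ (ss r κ x) * (ss r κ x) ^ 2 * 1 :=
        mul_le_mul e3 hκ1 hκ0.le (by positivity)
      nlinarith
    rw [div_le_div_iff₀ (by positivity) hκ0]
    have h6 : a x * ((1 - qq r x) * κ ^ 2 * κ) ≤ α' * (2 * (ss r κ x) ^ 3) :=
      mul_le_mul (h2 x hx) h5 (by positivity) hα'.le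
    have h7 : α' * (ss r κ x) ^ 3 * 1 ≤ α' * (ss r κ x) ^ 3 * r ^ 2 := by
      gcongr; exact one_le_pow₀ hr1
    nlinarith
  have P1 : 0 ≤ α / r ^ 2 * (4 * ℓ + κ) := by positivity
  have P2 : 0 ≤ 2 * ℓ * r := by positivity
  have P3 : 0 ≤ 4 * α' / κ := by positivity
  rcases le_total |x| j with hx | hx
  · have := A2 hx
    have := B1 (by linarith)
    linarith
  · have := A1 hx
    rcases le_total |x| (j + ℓ) with hx' | hx'
    · have := B1 hx'; linarith
    · have := B2 hx'; linarith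

end Pool.Agent.W799.SRL
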