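import Pool.Agent.W799.SRLKer
import Pool.Agent.W799.SRLUpper

set_option autoImplicit false

open MeasureTheory Set Filter Topology
open scoped ContDiff

namespace Pool.Agent.W799.SRL

lemma IsFundamental.kdata {P : Op} {k : ℝ → ℝ → ℝ → ℝ} (h : IsFundamental P k) :
    KData P k (fun x y t => deriv (fun s => k x y s) t) (fun x y t => deriv (fun x => k x y t) x)
      (fun x y t => deriv (deriv (fun x => k x y t)) x) := by
  refine ⟨h.pos, fun x y t ht => (h.diff_t x y t ht).hasDerivAt, fun x y t ht => ?_,
    fun x y t ht => ?_, h.cont, h.cont_t, h.cont_x, h.cont_xx, h.eqn⟩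
  · exact ((h.smooth_x y t ht).differentiable (by norm_num) x).hasDerivAt
  · have h3 : ContDiff ℝ (1 + 1) (fun x => k x y t) := (h.smooth_x y t ht).of_le (by norm_num)
    rw [contDiff_succ_iff_deriv] at h3
    exact (h3.2.2.differentiable (by norm_num) x).hasDerivAt

lemma cint_continuousOn {g : ℝ → ℝ → ℝ → ℝ} {f : ℝ → ℝ}
    (hg : ContinuousOn (fun p : ℝ × ℝ × ℝ => g p.1 p.2.1 p.2.2) {p | 0 < p.2.2})
    (hf : Continuous f) (hfc : HasCompactSupport f) :
    ContinuousOn (fun p : ℝ × ℝ => ∫ y, g p.1 y p.2 * f y) {p | 0 < p.2} := by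
  refine continuousOn_integral_of_compact_support (k := tsupport f) hfc ?_ ?_
  · have h1 : ContinuousOn (fun q : (ℝ × ℝ) × ℝ => g q.1.1 q.2 q.1.2)
        ({p : ℝ × ℝ | 0 < p.2} ×ˢ univ) :=
      hg.comp (f := fun q : (ℝ × ℝ) × ℝ => (q.1.1, q.2, q.1.2)) (by fun_prop)
        (fun q hq => hq.1)
    exact h1.mul (hf.comp continuous_snd).continuousOn
  · intro p y _ hy
    rw [image_eq_zero_of_notMem_tsupport hy, mul_zero]

/-- the solution generated by a fundamental solution is a supersolution -/
lemma IsFundamental.isSuper {P : Op} {k : ℝ → ℝ → ℝ → ℝ} (h : IsFundamental P k)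
    {f : ℝ → ℝ} (hf : Continuous f) (hfc : HasCompactSupport f) (hf0 : ∀ x, 0 ≤ f x) :
    IsSuper P (fun x t => if 0 < t then ∫ y, k x y t * f y else f x) := by
  have hk := h.kdata
  have e : ∀ x t, 0 < t → (fun x t => if 0 < t then ∫ y, k x y t * f y else f x) x t =
      ∫ y, k x y t * f y := fun x t ht => by simp only [ht, if_true]
  have hc0 := cint_continuousOn hk.c hf hfc
  refine isSuper_of P _ (fun x t => ∫ y, deriv (fun s => k x y s) t * f y)
    (fun x t => ∫ y, deriv (fun x => k x y t) x * f y)
    (fun x t => ∫ y, deriv (deriv (fun x => k x y t)) x * f y) ?_ ?_ ?_ ?_ ?_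
    (cint_continuousOn (g := fun x y t => deriv (fun s => k x y s) t) hk.ct hf hfc)
    (cint_continuousOn (g := fun x y t => deriv (fun x => k x y t) x) hk.cx hf hfc)
    (cint_continuousOn (g := fun x y t => deriv (deriv (fun x => k x y t)) x) hk.cxx hf hfc) ?_
  · rintro ⟨x, t⟩ ht
    rcases eq_or_lt_of_le (show 0 ≤ t from ht) with h0 | h0
    · subst h0
      have hset : {p : ℝ × ℝ | 0 ≤ p.2} = {p | 0 < p.2} ∪ {p | p.2 = 0} := by
        ext p; simp [le_iff_lt_or_eq, eq_comm]
      rw [hset]
      apply ContinuousWithinAt.union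
      · have h1 := h.init f hf hfc x
        unfold ContinuousWithinAt
        simp only [lt_irrefl, if_false]
        refine h1.congr' ?_
        filter_upwards [self_mem_nhdsWithin] with p hp
        exact (e p.1 p.2 hp).symm
      · have h1 : ContinuousWithinAt (fun p : ℝ × ℝ => f p.1) {p | p.2 = 0} (x, 0) :=
          (hf.comp continuous_fst).continuousWithinAt
        refine h1.congr (fun p hp => ?_) (by simp)
        have hp' : p.2 = 0 := hp
        simp only [hp', lt_irrefl, if_false]
    · apply ContinuousAt.continuousWithinAt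
      have hopen : IsOpen {p : ℝ × ℝ | 0 < p.2} := isOpen_lt continuous_const continuous_snd
      have h1 := (hc0 (x, t) h0).continuousAt (hopen.mem_nhds h0)
      refine h1.congr ?_
      filter_upwards [hopen.mem_nhds h0] with p hp
      exact (e p.1 p.2 hp).symm
  · intro x t ht
    split_ifs with h0
    · exact integral_nonneg fun y => mul_nonneg (h.pos x y t h0).le (hf0 y)
    · exact hf0 x
  · intro x t ht
    refine (hk.jet hf hfc x ht).1.1.congr_of_eventuallyEq ?_
    filter_upwards [Ioi_mem_nhds ht] with s hs
    exact e x s hs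
  · intro x t ht
    have h1 : HasDerivAt (fun x => ∫ y, k x y t * f y) (∫ y, deriv (fun x => k x y t) x * f y) x := by
      refine hasDerivAt_cint (K := fun s y => k s y t)
        (K' := fun s y => deriv (fun x => k x y t) s) hf hfc
        isOpen_univ ?_ ?_ (fun s _ y => hk.hx s y t ht) (mem_univ x)
      · exact hk.c.comp (f := fun p : ℝ × ℝ => (p.1, p.2, t)) (by fun_prop) (fun p hp => ht)
      · exact hk.cx.comp (f := fun p : ℝ × ℝ => (p.1, p.2, t)) (by fun_prop) (fun p hp => ht)
    refine h1.congr_of_eventuallyEq (Eventually.of_forall fun x' => ?_)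
    exact e x' t ht
  · intro x t ht
    refine hasDerivAt_cint (K := fun s y => deriv (fun x => k x y t) s)
      (K' := fun s y => deriv (deriv (fun x => k x y t)) s) hf hfc
      isOpen_univ ?_ ?_ (fun s _ y => hk.hxx s y t ht) (mem_univ x)
    · exact hk.cx.comp (f := fun p : ℝ × ℝ => (p.1, p.2, t)) (by fun_prop) (fun p hp => ht)
    · exact hk.cxx.comp (f := fun p : ℝ × ℝ => (p.1, p.2, t)) (by fun_prop) (fun p hp => ht)
  · intro x t ht
    simp only [ht, if_true]
    exact (hk.jet hf hfc x ht).2.ge

/-- the heat kernel is unique -/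
theorem IsHeatKernel.unique {P : Op} {k k' : ℝ → ℝ → ℝ → ℝ} (h : IsHeatKernel P k)
    (h' : IsHeatKernel P k') (x y t : ℝ) (ht : 0 < t) : k x y t = k' x y t := by
  -- integrals agree
  have key : ∀ {k k' : ℝ → ℝ → ℝ → ℝ}, IsHeatKernel P k → IsHeatKernel P k' → k x y t ≤ k' x y t := by
    intro k k' h h'
    by_contra hlt
    push Not at hlt
    have hc : Continuous (fun z => k x z t) := by
      have := h.cont.comp (f := fun z : ℝ => (x, z, t)) (s := univ) (by fun_prop) (fun _ _ => ht)
      exact continuousOn_univ.1 this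
    have hc' : Continuous (fun z => k' x z t) := by
      have := h'.cont.comp (f := fun z : ℝ => (x, z, t)) (s := univ) (by fun_prop) (fun _ _ => ht)
      exact continuousOn_univ.1 this
    have hev : ∀ᶠ z in 𝓝 y, k' x z t < k x z t :=
      hc'.continuousAt.eventually_lt hc.continuousAt hlt
    obtain ⟨δ, hδ, hball⟩ := Metric.eventually_nhds_iff.1 hev
    let f : ℝ → ℝ := fun z => max 0 (δ / 2 - |z - y|)
    have hf : Continuous f := by fun_prop
    have hf0 : ∀ z, 0 ≤ f z := fun z => le_max_left _ _
    have hfz : ∀ z, δ ≤ |z - y| → f z = 0 := fun z hz => max_eq_left (by linarith)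
    have hfc : HasCompactSupport f := by
      apply HasCompactSupport.intro (isCompact_closedBall y δ)
      intro z hz
      apply hfz
      rw [Metric.mem_closedBall, Real.dist_eq] at hz
      linarith [not_le.1 hz]
    have h1 := h.minimal f hf hfc hf0 _ (h'.toIsFundamental.isSuper hf hfc hf0)
      (fun x => by simp) x t ht
    simp only [ht, if_true] at h1
    have i1 : Integrable (fun z => k x z t * f z) :=
      (hc.mul hf).integrable_of_hasCompactSupport hfc.mul_left
    have i2 : Integrable (fun z => k' x z t * f z) :=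
      (hc'.mul hf).integrable_of_hasCompactSupport hfc.mul_left
    have h2 : 0 < ∫ z, (k x z t * f z - k' x z t * f z) := by
      have hcc : Continuous (fun z => k x z t * f z - k' x z t * f z) :=
        (hc.mul hf).sub (hc'.mul hf)
      apply hcc.integral_pos_of_hasCompactSupport_nonneg_nonzero (x := y)
      · exact (hfc.mul_left (f := fun z => k x z t)).sub (hfc.mul_left (f := fun z => k' x z t))
      · intro z
        simp only [Pi.zero_apply]
        rcases lt_or_ge |z - y| δ with hz | hz
        · have := hball (show dist z y < δ by rwa [Real.dist_eq])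
          have := hf0 z
          nlinarith
        · rw [hfz z hz]; simp
      · have h3 : f y = δ / 2 := by
          simp only [f, sub_self, abs_zero, sub_zero]
          exact max_eq_right (by linarith)
        have : 0 < (k x y t - k' x y t) * (δ / 2) := mul_pos (by linarith) (by linarith)
        rw [h3]; nlinarith
    rw [integral_sub i1 i2] at h2
    linarith
  exact le_antisymm (key h h') (key h' h)

end Pool.Agent.W799.SRL
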