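import Pool.Agent.W799.SRLPlus3
import Pool.Agent.W799.SRLCrit
import Pool.Agent.W799.SRLUniq

set_option autoImplicit false

open MeasureTheory Set Filter Topology
open scoped ContDiff

namespace Pool.Agent.W799.SRL

lemma opA_elliptic {a : ℝ → ℝ} (ha : ContDiff ℝ ∞ a) (ha0 : ∀ x, 0 < a x) : (opA a).Elliptic :=
  ⟨ha, contDiff_const, contDiff_const, ha0⟩

lemma opA_nonneg (a : ℝ → ℝ) : (opA a).Nonneg :=
  ⟨fun _ => 1, contDiff_const, fun _ => one_pos, fun x => by simp [Op.app, opA]⟩

/-- every fundamental solution of `u_t = a u_xx` has an infinite Green function -/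
theorem opA_not_subcritical {a : ℝ → ℝ} (ha : Continuous a) (ha0 : ∀ x, 0 < a x)
    {k : ℝ → ℝ → ℝ → ℝ} (hk : IsFundamental (opA a) k) : ¬ Subcritical k := by
  intro hs
  have h1 : ∀ (x s : ℝ), 0 < s → HasDerivAt (fun y => k y 0 s) (deriv (fun y => k y 0 s) x) x := by
    intro x s hs
    exact ((hk.smooth_x 0 s hs).differentiable (by norm_num) x).hasDerivAt
  have h2 : ∀ (x s : ℝ), 0 < s → HasDerivAt (deriv (fun y => k y 0 s))
      (deriv (deriv (fun y => k y 0 s)) x) x := by
    intro x s hs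
    have h3 : ContDiff ℝ (1 + 1) (fun y => k y 0 s) := (hk.smooth_x 0 s hs).of_le (by norm_num)
    rw [contDiff_succ_iff_deriv] at h3
    exact (h3.2.2.differentiable (by norm_num) x).hasDerivAt
  refine not_integrable (v := fun x s => k x 0 s) (vt := fun x s => deriv (fun r => k x 0 r) s)
    (vx := fun x s => deriv (fun y => k y 0 s) x)
    (vxx := fun x s => deriv (deriv (fun y => k y 0 s)) x) ha ha0
    (fun x s hs => hk.pos x 0 s hs) ?_ ?_ ?_ ?_
    (fun x s hs => (hk.diff_t x 0 s hs).hasDerivAt) h1 h2 ?_ (fun x hx => hs x 0 hx)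
  · exact hk.cont.comp (f := fun p : ℝ × ℝ => (p.1, 0, p.2)) (by fun_prop) (fun p hp => hp)
  · exact hk.cont_t.comp (f := fun p : ℝ × ℝ => (p.1, 0, p.2)) (by fun_prop) (fun p hp => hp)
  · exact hk.cont_x.comp (f := fun p : ℝ × ℝ => (p.1, 0, p.2)) (by fun_prop) (fun p hp => hp)
  · exact hk.cont_xx.comp (f := fun p : ℝ × ℝ => (p.1, 0, p.2)) (by fun_prop) (fun p hp => hp)
  · intro x s hs
    have := hk.eqn x 0 s hs
    simp only [Op.app, opA] at this
    linarith

/-- positive supersolutions of `- a u''` are constant -/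
theorem opA_liouville {a : ℝ → ℝ} (ha0 : ∀ x, 0 < a x) {u : ℝ → ℝ} (hu : ContDiff ℝ 2 u)
    (hpos : ∀ x, 0 < u x) (hs : ∀ x, 0 ≤ (opA a).app u x) (x y : ℝ) : u x = u y := by
  have h3 : ContDiff ℝ (1 + 1) u := hu.of_le (by norm_num)
  rw [contDiff_succ_iff_deriv] at h3
  have hd1 : ∀ x, HasDerivAt u (deriv u x) x := fun x => (h3.1 x).hasDerivAt
  have hd2 : ∀ x, HasDerivAt (deriv u) (deriv (deriv u) x) x := fun x =>
    (h3.2.2.differentiable (by norm_num) x).hasDerivAt
  have hneg : ∀ x, deriv (deriv u) x ≤ 0 := by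
    intro x
    have h := hs x
    simp only [Op.app, opA, zero_mul, add_zero] at h
    by_contra hc
    push Not at hc
    have := mul_pos (ha0 x) hc
    linarith
  have hconc : ConcaveOn ℝ univ u := by
    refine concaveOn_of_hasDerivWithinAt2_nonpos (f' := deriv u) (f'' := deriv (deriv u))
      convex_univ hu.continuous.continuousOn (fun x _ => (hd1 x).hasDerivWithinAt)
      (fun x _ => (hd2 x).hasDerivWithinAt) (fun x _ => hneg x)
  have key : ∀ x y, u y ≤ u x := by
    intro x y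
    by_contra hc
    push Not at hc
    obtain ⟨N, hN⟩ := exists_nat_gt (u y / (u y - u x))
    have hN0 : (0:ℝ) ≤ N := Nat.cast_nonneg N
    have h := hconc.2 (mem_univ y) (mem_univ (x + N * (x - y)))
      (show (0:ℝ) ≤ N / (N + 1) by positivity) (show (0:ℝ) ≤ 1 / (N + 1) by positivity)
      (by field_simp)
    have hpt : ((N:ℝ) / (N + 1)) • y + (1 / ((N:ℝ) + 1)) • (x + N * (x - y)) = x := by
      simp only [smul_eq_mul]; field_simp; ring
    rw [hpt] at h
    simp only [smul_eq_mul] at h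
    have h5 : 0 < 1 / ((N:ℝ) + 1) * u (x + N * (x - y)) := by
      have := hpos (x + N * (x - y)); positivity
    have h6 : (N:ℝ) / (N + 1) * u y < u x := by linarith
    rw [div_mul_eq_mul_div, div_lt_iff₀ (by positivity)] at h6
    rw [div_lt_iff₀ (by linarith)] at hN
    have := hpos x
    nlinarith
  exact le_antisymm (key y x) (key x y)

theorem main : ∃ (Pp P0 : Op) (K : Set (ℝ × ℝ)),
    Pp.Elliptic ∧ P0.Elliptic ∧ Pp.Nonneg ∧ P0.Nonneg ∧ IsCompact K ∧
    (∃ k, IsHeatKernel Pp k) ∧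
    (∀ u : ℝ → ℝ, ContDiff ℝ 2 u → (∀ x, 0 < u x) → (∀ x, 0 ≤ P0.app u x) → ∀ x y, u x = u y) ∧
    (∀ k k0, IsHeatKernel Pp k → IsHeatKernel P0 k0 → Subcritical k ∧ ¬ Subcritical k0 ∧
      ¬ TendstoUniformlyOn (fun t p => k p.1 p.2 t / k0 p.1 p.2 t) (fun _ => 0) atTop K ∧
      ∀ C T : ℝ, ∃ t ≥ T, ∃ p ∈ K, C < k p.1 p.2 t / k0 p.1 p.2 t) ∧
    (∃ f : ℝ → ℝ, Continuous f ∧ HasCompactSupport f ∧ (∀ x, 0 ≤ f x) ∧
      ∀ k, IsHeatKernel Pp k → ∀ C T : ℝ, ∃ t ≥ T, ∃ w, IsSuper P0 w ∧ (∀ x, f x ≤ w x 0) ∧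
        C * w 0 t < ∫ y, k 0 y t * f y) := by
  obtain ⟨a, t, ha, ha0, ha1, ht, hw⟩ := exists_trap
  -- kernel free statement
  have hfree : ∀ C T : ℝ, 0 ≤ C → ∃ t ≥ T, 0 < t ∧ ∃ w, IsSuper (opA a) w ∧
      (∀ x, tent x ≤ w x 0) ∧ C * w 0 t < ∫ y, kp 0 y t * tent y := by
    intro C T hC
    set I := ∫ y, tent y with hI
    have hI0 : 0 < I := tent_integral_pos
    obtain ⟨n, hn⟩ := exists_nat_gt (max T ((320 * C / I) ^ 2 + 1))
    have hnT : T < n := lt_of_le_of_lt (le_max_left _ _) hn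
    have hnC : (320 * C / I) ^ 2 + 1 < n := lt_of_le_of_lt (le_max_right _ _) hn
    have hn1 : 1 ≤ n := by
      have : (1:ℝ) < n := by nlinarith [sq_nonneg (320 * C / I)]
      exact_mod_cast this.le
    have htn := ht n
    have hn0 : (1:ℝ) ≤ n := by exact_mod_cast hn1
    have ht2 : 2 ≤ t n := by linarith
    have ht0 : 0 < t n := by linarith
    obtain ⟨w, hw1, hw2, hw3⟩ := hw n hn1
    refine ⟨t n, by linarith, ht0, w, hw1, hw2, ?_⟩
    have hlow := kp_tent_lower ht2
    have hst : 0 < √(t n) := Real.sqrt_pos.2 ht0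
    have hss : √(t n) * √(t n) = t n := Real.mul_self_sqrt ht0.le
    by_contra hcon
    push Not at hcon
    have hfin : 1 / 64 * ((t n)⁻¹ * (√(t n))⁻¹) * I ≤ C * (5 / (t n) ^ 2) :=
      hlow.trans (hcon.trans (by gcongr))
    have h5 : I * √(t n) ≤ 320 * C := by
      have e1 : 1 / 64 * ((t n)⁻¹ * (√(t n))⁻¹) * I * (64 * (t n) ^ 2) = I * √(t n) := by
        field_simp
        nlinarith [hss]
      have e2 : C * (5 / (t n) ^ 2) * (64 * (t n) ^ 2) = 320 * C := by
        field_simp; ring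
      rw [← e1, ← e2]
      exact mul_le_mul_of_nonneg_right hfin (by positivity)
    have h6 : √(t n) ≤ 320 * C / I := by
      rw [le_div_iff₀ hI0]; linarith
    have h7 : t n ≤ (320 * C / I) ^ 2 := by
      rw [← hss, sq]
      exact mul_le_mul h6 h6 hst.le (by positivity)
    linarith
  refine ⟨opP, opA a, {0} ×ˢ Icc (-1) 1, opP_elliptic, opA_elliptic ha ha0, opP_nonneg,
    opA_nonneg a, isCompact_singleton.prod isCompact_Icc, ⟨kp, kp_isHeatKernel⟩,
    fun u hu hp hs => opA_liouville ha0 hu hp hs, fun k k0 hk hk0 => ?_,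
    ⟨tent, tent_cont, tent_supp, tent_nonneg, fun k hk C T => ?_⟩⟩
  · have hkk : ∀ x y t, 0 < t → k x y t = kp x y t := fun x y t ht =>
      hk.unique kp_isHeatKernel x y t ht
    have hunb : ∀ C T : ℝ, ∃ t ≥ T, ∃ p ∈ ({0} ×ˢ Icc (-1) 1 : Set (ℝ × ℝ)),
        C < k p.1 p.2 t / k0 p.1 p.2 t := by
      intro C T
      by_contra hcon
      push Not at hcon
      set C' := max C 1 with hC'
      have hC1 : 1 ≤ C' := le_max_right _ _
      obtain ⟨t, htT, ht0, w, hw1, hw2, hw3⟩ := hfree C' T (by linarith)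
      have hup := hk0.minimal tent tent_cont tent_supp tent_nonneg w hw1 hw2 0 t ht0
      have hi0 : Integrable (fun y => k0 0 y t * tent y) := by
        have := hk0.cont.comp (f := fun y : ℝ => ((0:ℝ), y, t)) (s := univ) (by fun_prop)
          (fun y _ => ht0)
        exact ((continuousOn_univ.1 this).mul tent_cont).integrable_of_hasCompactSupport
          tent_supp.mul_left
      have hi : Integrable (fun y => kp 0 y t * tent y) := by
        have := kp_data.c.comp (f := fun y : ℝ => ((0:ℝ), y, t)) (s := univ) (by fun_prop)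
          (fun y _ => ht0)
        exact ((continuousOn_univ.1 this).mul tent_cont).integrable_of_hasCompactSupport
          tent_supp.mul_left
      have hcmp : ∫ y, kp 0 y t * tent y ≤ C' * ∫ y, k0 0 y t * tent y := by
        rw [← integral_const_mul]
        apply integral_mono hi (hi0.const_mul _)
        intro y
        by_cases hy : |y| ≤ 1
        · have h1 := hcon t htT (0, y) ⟨rfl, abs_le.1 hy⟩
          simp only at h1
          have h2 := hk0.pos 0 y t ht0
          rw [div_le_iff₀ h2, hkk 0 y t ht0] at h1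
          have h3 : kp 0 y t ≤ C' * k0 0 y t := h1.trans (by
            gcongr; exact le_max_left _ _)
          have h4 := tent_nonneg y
          simp only
          nlinarith
        · simp only
          rw [tent_zero (by linarith [not_le.1 hy])]; simp
      have : C' * ∫ y, k0 0 y t * tent y ≤ C' * w 0 t := by gcongr
      linarith
    refine ⟨?_, opA_not_subcritical ha.continuous ha0 hk0.toIsFundamental, ?_, hunb⟩
    · intro x y hxy
      refine (kp_subcritical x y hxy).congr_fun (fun t ht => ?_) measurableSet_Ioi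
      exact (hkk x y t ht).symm
    · intro hT
      rw [Metric.tendstoUniformlyOn_iff] at hT
      obtain ⟨T, hT⟩ := eventually_atTop.1 (hT 1 one_pos)
      obtain ⟨t, ht, p, hp, h1⟩ := hunb 1 T
      have h2 := hT t ht p hp
      rw [dist_zero_left, Real.norm_eq_abs] at h2
      linarith [le_abs_self (k p.1 p.2 t / k0 p.1 p.2 t)]
  · obtain ⟨t, htT, ht0, w, hw1, hw2, hw3⟩ := hfree (max C 0) T (le_max_right _ _)
    refine ⟨t, htT, w, hw1, hw2, ?_⟩
    have e : ∫ y, k 0 y t * tent y = ∫ y, kp 0 y t * tent y := by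
      congr 1; funext y; rw [hk.unique kp_isHeatKernel 0 y t ht0]
    rw [e]
    have h1 := hw1.nonneg 0 t ht0.le
    have : C * w 0 t ≤ max C 0 * w 0 t := by
      gcongr; exact le_max_left _ _
    linarith

end Pool.Agent.W799.SRL
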