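import Pool.Agent.W799.SRLDefs

set_option autoImplicit false

open MeasureTheory Set Filter Topology

namespace Pool.Agent.W799.SRL

/-- first and second order data of `z` at `(x,t)` -/
def Jet (z : ℝ → ℝ → ℝ) (x t zt zx zxx : ℝ) : Prop :=
  HasDerivAt (fun s => z x s) zt t ∧
    ∃ g : ℝ → ℝ, (∀ᶠ y in 𝓝 x, HasDerivAt (fun y => z y t) (g y) y) ∧ g x = zx ∧
      HasDerivAt g zxx x

lemma Jet.add {z w : ℝ → ℝ → ℝ} {x t a1 a2 a3 b1 b2 b3 : ℝ} (hz : Jet z x t a1 a2 a3)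
    (hw : Jet w x t b1 b2 b3) : Jet (fun x t => z x t + w x t) x t (a1 + b1) (a2 + b2) (a3 + b3) := by
  obtain ⟨h1, g, h2, h3, h4⟩ := hz
  obtain ⟨k1, l, k2, k3, k4⟩ := hw
  refine ⟨h1.add k1, fun y => g y + l y, ?_, by simp [h3, k3], h4.add k4⟩
  filter_upwards [h2, k2] with y hy ky using hy.add ky

lemma Jet.sub {z w : ℝ → ℝ → ℝ} {x t a1 a2 a3 b1 b2 b3 : ℝ} (hz : Jet z x t a1 a2 a3)
    (hw : Jet w x t b1 b2 b3) : Jet (fun x t => z x t - w x t) x t (a1 - b1) (a2 - b2) (a3 - b3) := by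
  obtain ⟨h1, g, h2, h3, h4⟩ := hz
  obtain ⟨k1, l, k2, k3, k4⟩ := hw
  refine ⟨h1.sub k1, fun y => g y - l y, ?_, by simp [h3, k3], h4.sub k4⟩
  filter_upwards [h2, k2] with y hy ky using hy.sub ky

lemma jet_const (c x t : ℝ) : Jet (fun _ _ => c) x t 0 0 0 :=
  ⟨hasDerivAt_const _ _, fun _ => 0, Eventually.of_forall fun y => hasDerivAt_const _ _, rfl,
    hasDerivAt_const _ _⟩

/-- second order condition at a local minimum -/
lemma second_nonneg {f g : ℝ → ℝ} {x m : ℝ} (hf : ∀ᶠ y in 𝓝 x, HasDerivAt f (g y) y)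
    (hg : HasDerivAt g m x) (hmin : IsLocalMin f x) : g x = 0 ∧ 0 ≤ m := by
  have h0 : g x = 0 := hmin.hasDerivAt_eq_zero hf.self_of_nhds
  refine ⟨h0, ?_⟩
  by_contra hm
  push Not at hm
  have hs : ∀ᶠ y in 𝓝[>] x, g y < 0 := by
    have h1 := hg.tendsto_slope
    have h2 : Tendsto (slope g x) (𝓝[>] x) (𝓝 m) :=
      h1.mono_left (nhdsWithin_mono _ (fun y hy => ne_of_gt hy))
    have h3 := h2.eventually_lt_const hm
    filter_upwards [h3, self_mem_nhdsWithin] with y hy hxy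
    rw [slope_def_field, h0, sub_zero] at hy
    have : 0 < y - x := sub_pos.2 hxy
    by_contra hcon
    push Not at hcon
    exact absurd hy (not_lt.2 (div_nonneg hcon this.le))
  have hf' : ∀ᶠ y in 𝓝[>] x, HasDerivAt f (g y) y := hf.filter_mono nhdsWithin_le_nhds
  have hm' : ∀ᶠ y in 𝓝[>] x, f x ≤ f y := hmin.filter_mono nhdsWithin_le_nhds
  obtain ⟨r, hr, hr'⟩ := mem_nhdsGT_iff_exists_Ioc_subset.1 ((hs.and hf').and hm')
  have hxr : x < r := hr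
  have hcont : ContinuousOn f (Icc x r) := by
    intro y hy
    rcases eq_or_lt_of_le hy.1 with h | h
    · rw [← h]; exact hf.self_of_nhds.continuousAt.continuousWithinAt
    · exact (hr' ⟨h, hy.2⟩).1.2.continuousAt.continuousWithinAt
  obtain ⟨c, hc, hc'⟩ := exists_hasDerivAt_eq_slope f g hxr hcont
    (fun y hy => (hr' ⟨hy.1, hy.2.le⟩).1.2)
  have hgc : g c < 0 := (hr' ⟨hc.1, hc.2.le⟩).1.1
  have hfr : f x ≤ f r := (hr' ⟨hxr, le_rfl⟩).2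
  rw [hc'] at hgc
  exact absurd hgc (not_lt.2 (div_nonneg (sub_nonneg.2 hfr) (sub_pos.2 hxr).le))

/-- one-sided minimum in time -/
lemma time_nonpos {f : ℝ → ℝ} {t m : ℝ} (ht : 0 < t) (hf : HasDerivAt f m t)
    (hmin : ∀ s ∈ Icc 0 t, f t ≤ f s) : m ≤ 0 := by
  by_contra hm
  push Not at hm
  have h1 := hf.tendsto_slope
  have h2 : Tendsto (slope f t) (𝓝[<] t) (𝓝 m) :=
    h1.mono_left (nhdsWithin_mono _ (fun y hy => ne_of_lt hy))
  have h3 := h2.eventually_const_lt hm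
  have h4 : ∀ᶠ s in 𝓝[<] t, s ∈ Icc 0 t := by
    filter_upwards [Ioo_mem_nhdsLT ht] with s hs using ⟨hs.1.le, hs.2.le⟩
  obtain ⟨s, hs⟩ := (h3.and (h4.and self_mem_nhdsWithin)).exists
  obtain ⟨hs1, hs2, hs3⟩ := hs
  have hlt : s < t := hs3
  rw [slope_def_field] at hs1
  have := hmin s hs2
  exact absurd hs1 (not_lt.2 (div_nonpos_of_nonneg_of_nonpos (sub_nonneg.2 this) (sub_nonpos.2 hlt.le)))

/-- parabolic maximum principle on a rectangle -/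
lemma maxP {a b : ℝ → ℝ} {x1 x2 T : ℝ} {z : ℝ → ℝ → ℝ}
    (hc : ContinuousOn (fun p : ℝ × ℝ => z p.1 p.2) (Icc x1 x2 ×ˢ Icc 0 T))
    (h0 : ∀ x ∈ Icc x1 x2, 0 ≤ z x 0) (h1 : ∀ t ∈ Icc 0 T, 0 ≤ z x1 t)
    (h2 : ∀ t ∈ Icc 0 T, 0 ≤ z x2 t) (ha : ∀ x ∈ Ioo x1 x2, 0 ≤ a x)
    (hz : ∀ x ∈ Ioo x1 x2, ∀ t ∈ Ioc 0 T, ∃ zt zx zxx, Jet z x t zt zx zxx ∧
      a x * zxx - b x * zx ≤ zt) :
    ∀ x ∈ Icc x1 x2, ∀ t ∈ Icc 0 T, 0 ≤ z x t := by
  intro x0 hx0 t0 ht0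
  by_contra hneg
  push Not at hneg
  obtain ⟨ε, hε, hε'⟩ : ∃ ε > 0, z x0 t0 + ε * (1 + t0) < 0 := by
    refine ⟨-(z x0 t0) / (2 * (1 + t0)), ?_, ?_⟩
    · have : 0 < 1 + t0 := by linarith [ht0.1]
      apply div_pos <;> linarith
    · have : 0 < 1 + t0 := by linarith [ht0.1]
      field_simp
      linarith
  set Z : ℝ × ℝ → ℝ := fun p => z p.1 p.2 + ε * (1 + p.2) with hZ
  have hZc : ContinuousOn Z (Icc x1 x2 ×ˢ Icc 0 T) := by
    apply hc.add; fun_prop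
  have hcomp : IsCompact (Icc x1 x2 ×ˢ Icc (0:ℝ) T) := isCompact_Icc.prod isCompact_Icc
  obtain ⟨⟨x, t⟩, ⟨hx, ht⟩, hmin⟩ := hcomp.exists_isMinOn ⟨(x0, t0), hx0, ht0⟩ hZc
  simp only at hx ht
  have hmin' : ∀ y ∈ Icc x1 x2, ∀ s ∈ Icc 0 T, z x t + ε * (1 + t) ≤ z y s + ε * (1 + s) :=
    fun y hy s hs => hmin (show (y, s) ∈ _ from ⟨hy, hs⟩)
  have hlt : z x t + ε * (1 + t) < 0 := lt_of_le_of_lt (hmin' x0 hx0 t0 ht0) hε'
  have hεt : 0 < ε * (1 + t) := mul_pos hε (by linarith [ht.1])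
  have hxt : z x t < 0 := by linarith
  have ht' : 0 < t := by
    rcases eq_or_lt_of_le ht.1 with h | h
    · exfalso; rw [← h] at hxt; exact absurd hxt (not_lt.2 (h0 x hx))
    · exact h
  have hx1 : x1 < x := by
    rcases eq_or_lt_of_le hx.1 with h | h
    · exfalso; rw [← h] at hxt; exact absurd hxt (not_lt.2 (h1 t ht))
    · exact h
  have hx2 : x < x2 := by
    rcases eq_or_lt_of_le hx.2 with h | h
    · exfalso; rw [h] at hxt; exact absurd hxt (not_lt.2 (h2 t ht))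
    · exact h
  obtain ⟨zt, zx, zxx, ⟨hjt, g, hg1, hg2, hg3⟩, hineq⟩ := hz x ⟨hx1, hx2⟩ t ⟨ht', ht.2⟩
  have hloc : IsLocalMin (fun y => z y t) x := by
    filter_upwards [Ioo_mem_nhds hx1 hx2] with y hy
    have := hmin' y ⟨hy.1.le, hy.2.le⟩ t ht
    linarith
  obtain ⟨hgx, hzxx⟩ := second_nonneg hg1 hg3 hloc
  have htime : zt + ε ≤ 0 := by
    apply time_nonpos (f := fun s => z x s + ε * (1 + s)) ht'
    · have : HasDerivAt (fun s : ℝ => ε * (1 + s)) ε t := by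
        simpa using ((hasDerivAt_id t).const_add 1).const_mul ε
      exact hjt.add this
    · intro s hs
      exact hmin' x hx s ⟨hs.1, hs.2.trans ht.2⟩
  have : 0 ≤ a x * zxx := mul_nonneg (ha x ⟨hx1, hx2⟩) hzxx
  rw [← hg2, hgx] at hineq
  linarith [mul_zero (b x)]

end Pool.Agent.W799.SRL
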