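import Pool.Agent.W799.SRLKer

set_option autoImplicit false

open MeasureTheory Set Filter Topology Real
open scoped ContDiff

namespace Pool.Agent.W799.SRL

/-- the Gauss kernel -/
noncomputable def gE (z t : ℝ) : ℝ := (√(4 * π * t))⁻¹ * Real.exp (-z ^ 2 / (4 * t))
noncomputable def gEz (z t : ℝ) : ℝ := -(z / (2 * t)) * gE z t
noncomputable def gEzz (z t : ℝ) : ℝ := (z ^ 2 / (4 * t ^ 2) - 1 / (2 * t)) * gE z t

lemma gE_z (z : ℝ) {t : ℝ} (ht : 0 < t) : HasDerivAt (fun z => gE z t) (gEz z t) z := by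
  have h1 : HasDerivAt (fun z : ℝ => -z ^ 2 / (4 * t)) (-(z / (2 * t))) z := by
    have := (((hasDerivAt_id z).pow 2).neg).div_const (4 * t)
    refine this.congr_deriv ?_
    simp
    field_simp
    ring
  refine (h1.exp.const_mul ((√(4 * π * t))⁻¹)).congr_deriv ?_
  unfold gEz gE; ring

lemma gEz_z (z : ℝ) {t : ℝ} (ht : 0 < t) : HasDerivAt (fun z => gEz z t) (gEzz z t) z := by
  have h1 : HasDerivAt (fun z : ℝ => -(z / (2 * t))) (-(1 / (2 * t))) z :=
    ((hasDerivAt_id z).div_const (2 * t)).neg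
  refine (h1.mul (gE_z z ht)).congr_deriv ?_
  unfold gEzz gEz; field_simp; ring

lemma gE_t (z : ℝ) {t : ℝ} (ht : 0 < t) : HasDerivAt (fun s => gE z s) (gEzz z t) t := by
  have hpt : 0 < 4 * π * t := by positivity
  have h0 : HasDerivAt (fun s : ℝ => 4 * π * s) (4 * π) t := by
    simpa using (hasDerivAt_id t).const_mul (4 * π)
  have h1 : HasDerivAt (fun s : ℝ => (√(4 * π * s))⁻¹)
      (-(4 * π / (2 * √(4 * π * t))) / √(4 * π * t) ^ 2) t :=
    (h0.sqrt hpt.ne').inv (Real.sqrt_pos.2 hpt).ne'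
  have h2 : HasDerivAt (fun s : ℝ => -z ^ 2 / (4 * s)) (z ^ 2 / (4 * t ^ 2)) t := by
    have h3 : HasDerivAt (fun s : ℝ => 4 * s) 4 t := by
      simpa using (hasDerivAt_id t).const_mul 4
    have := (hasDerivAt_const t (-z ^ 2)).div h3 (by positivity)
    refine this.congr_deriv ?_
    field_simp
    ring
  refine (h1.mul h2.exp).congr_deriv ?_
  have hs : 0 < √(4 * π * t) := Real.sqrt_pos.2 hpt
  have hsq : √(4 * π * t) ^ 2 = 4 * π * t := Real.sq_sqrt hpt.le
  unfold gEzz gE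
  set s := √(4 * π * t) with hs_def
  rw [hsq]
  have hpi := Real.pi_pos
  field_simp
  ring

lemma gE_cont : ContinuousOn (fun p : ℝ × ℝ => gE p.1 p.2) {p | 0 < p.2} := by
  unfold gE
  have h1 : ∀ p ∈ {p : ℝ × ℝ | 0 < p.2}, √(4 * π * p.2) ≠ 0 := fun p hp =>
    (Real.sqrt_pos.2 (by have := Real.pi_pos; have : 0 < p.2 := hp; positivity)).ne'
  have h2 : ∀ p ∈ {p : ℝ × ℝ | 0 < p.2}, 4 * p.2 ≠ 0 := fun p hp => by
    have : 0 < p.2 := hp; positivity
  exact ContinuousOn.mul (ContinuousOn.inv₀ (by fun_prop) h1)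
    (Real.continuous_exp.comp_continuousOn (ContinuousOn.div (by fun_prop) (by fun_prop) h2))

lemma gEz_cont : ContinuousOn (fun p : ℝ × ℝ => gEz p.1 p.2) {p | 0 < p.2} := by
  unfold gEz
  have h2 : ∀ p ∈ {p : ℝ × ℝ | 0 < p.2}, 2 * p.2 ≠ 0 := fun p hp => by
    have : 0 < p.2 := hp; positivity
  exact ((ContinuousOn.div (by fun_prop) (by fun_prop) h2).neg).mul gE_cont

lemma gEzz_cont : ContinuousOn (fun p : ℝ × ℝ => gEzz p.1 p.2) {p | 0 < p.2} := by
  unfold gEzz
  have h2 : ∀ p ∈ {p : ℝ × ℝ | 0 < p.2}, 2 * p.2 ≠ 0 := fun p hp => by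
    have : 0 < p.2 := hp; positivity
  have h3 : ∀ p ∈ {p : ℝ × ℝ | 0 < p.2}, 4 * p.2 ^ 2 ≠ 0 := fun p hp => by
    have : 0 < p.2 := hp; positivity
  exact ((ContinuousOn.div (by fun_prop) (by fun_prop) h3).sub
    (ContinuousOn.div (by fun_prop) (by fun_prop) h2)).mul gE_cont

lemma gE_pos (z : ℝ) {t : ℝ} (ht : 0 < t) : 0 < gE z t := by
  unfold gE
  have := Real.pi_pos
  have : 0 < √(4 * π * t) := Real.sqrt_pos.2 (by positivity)
  positivity

/-- the operator `P_+ u = - exp(-2x) u'' + exp(-2x) u'` -/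
noncomputable def opP : Op := ⟨fun x => Real.exp (-2 * x), fun x => Real.exp (-2 * x), fun _ => 0⟩

/-- its heat kernel -/
noncomputable def kp (x y t : ℝ) : ℝ :=
  Real.exp y * (gE (Real.exp x - Real.exp y) t - gE (Real.exp x + Real.exp y) t)
noncomputable def kpt (x y t : ℝ) : ℝ :=
  Real.exp y * (gEzz (Real.exp x - Real.exp y) t - gEzz (Real.exp x + Real.exp y) t)
noncomputable def kpx (x y t : ℝ) : ℝ :=
  Real.exp y * (gEz (Real.exp x - Real.exp y) t * Real.exp x -
    gEz (Real.exp x + Real.exp y) t * Real.exp x)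
noncomputable def kpxx (x y t : ℝ) : ℝ :=
  Real.exp y * ((gEzz (Real.exp x - Real.exp y) t * Real.exp x * Real.exp x +
      gEz (Real.exp x - Real.exp y) t * Real.exp x) -
    (gEzz (Real.exp x + Real.exp y) t * Real.exp x * Real.exp x +
      gEz (Real.exp x + Real.exp y) t * Real.exp x))

/-- `H(X,Y,t)` in product form -/
lemma kp_eq (x y : ℝ) {t : ℝ} (ht : 0 < t) : kp x y t =
    Real.exp y * (gE (Real.exp x - Real.exp y) t *
      (1 - Real.exp (-(Real.exp x * Real.exp y / t)))) := by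
  have : gE (Real.exp x + Real.exp y) t = gE (Real.exp x - Real.exp y) t *
      Real.exp (-(Real.exp x * Real.exp y / t)) := by
    have h1 : Real.exp (-(Real.exp x + Real.exp y) ^ 2 / (4 * t)) =
        Real.exp (-(Real.exp x - Real.exp y) ^ 2 / (4 * t)) *
          Real.exp (-(Real.exp x * Real.exp y / t)) := by
      rw [← Real.exp_add (-(Real.exp x - Real.exp y) ^ 2 / (4 * t))]
      congr 1
      field_simp
      ring
    unfold gE
    rw [h1]; ring
  unfold kp
  rw [this]; ring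

lemma kp_pos (x y : ℝ) {t : ℝ} (ht : 0 < t) : 0 < kp x y t := by
  rw [kp_eq x y ht]
  have h1 := gE_pos (Real.exp x - Real.exp y) ht
  have h2 : Real.exp (-(Real.exp x * Real.exp y / t)) < 1 := by
    have : 0 < Real.exp x * Real.exp y / t := by positivity
    rw [← Real.exp_zero]
    exact Real.exp_lt_exp.2 (by linarith)
  have h3 : 0 < 1 - Real.exp (-(Real.exp x * Real.exp y / t)) := by linarith
  positivity

lemma comp_cont {g : ℝ → ℝ → ℝ} (hg : ContinuousOn (fun p : ℝ × ℝ => g p.1 p.2) {p | 0 < p.2}) :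
    ContinuousOn (fun p : ℝ × ℝ × ℝ => g (Real.exp p.1 - Real.exp p.2.1) p.2.2)
      {p | 0 < p.2.2} ∧
    ContinuousOn (fun p : ℝ × ℝ × ℝ => g (Real.exp p.1 + Real.exp p.2.1) p.2.2)
      {p | 0 < p.2.2} :=
  ⟨hg.comp (f := fun p : ℝ × ℝ × ℝ => (Real.exp p.1 - Real.exp p.2.1, p.2.2)) (by fun_prop)
    (fun p hp => hp),
   hg.comp (f := fun p : ℝ × ℝ × ℝ => (Real.exp p.1 + Real.exp p.2.1, p.2.2)) (by fun_prop)
    (fun p hp => hp)⟩

lemma kp_data : KData opP kp kpt kpx kpxx := by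
  have em : ∀ x y : ℝ, HasDerivAt (fun x => Real.exp x - Real.exp y) (Real.exp x) x :=
    fun x y => (Real.hasDerivAt_exp x).sub_const _
  have ep : ∀ x y : ℝ, HasDerivAt (fun x => Real.exp x + Real.exp y) (Real.exp x) x :=
    fun x y => (Real.hasDerivAt_exp x).add_const _
  have e1 : ContinuousOn (fun p : ℝ × ℝ × ℝ => Real.exp p.1) {p | 0 < p.2.2} := by fun_prop
  have e2 : ContinuousOn (fun p : ℝ × ℝ × ℝ => Real.exp p.2.1) {p | 0 < p.2.2} := by fun_prop
  have g0 := comp_cont gE_cont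
  have g1 := comp_cont gEz_cont
  have g2 := comp_cont gEzz_cont
  refine ⟨fun x y t ht => kp_pos x y ht, ?_, ?_, ?_, ?_, ?_, ?_, ?_, ?_⟩
  · intro x y t ht
    exact ((gE_t _ ht).sub (gE_t _ ht)).const_mul _
  · intro x y t ht
    have h1 := (gE_z (Real.exp x - Real.exp y) ht).comp x (em x y)
    have h2 := (gE_z (Real.exp x + Real.exp y) ht).comp x (ep x y)
    exact (h1.sub h2).const_mul _
  · intro x y t ht
    have h1 := (gEz_z (Real.exp x - Real.exp y) ht).comp x (em x y)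
    have h2 := (gEz_z (Real.exp x + Real.exp y) ht).comp x (ep x y)
    have he := Real.hasDerivAt_exp x
    exact ((h1.mul he).sub (h2.mul he)).const_mul _
  · exact e2.mul (g0.1.sub g0.2)
  · exact e2.mul (g2.1.sub g2.2)
  · exact e2.mul ((g1.1.mul e1).sub (g1.2.mul e1))
  · exact e2.mul ((((g2.1.mul e1).mul e1).add (g1.1.mul e1)).sub
      (((g2.2.mul e1).mul e1).add (g1.2.mul e1)))
  · intro x y t ht
    have h1 : Real.exp (-2 * x) * Real.exp x * Real.exp x = 1 := by
      rw [← Real.exp_add, ← Real.exp_add]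
      have : -2 * x + x + x = 0 := by ring
      rw [this, Real.exp_zero]
    simp only [opP, kpt, kpx, kpxx, kp]
    linear_combination (-(Real.exp y * (gEzz (Real.exp x - Real.exp y) t -
      gEzz (Real.exp x + Real.exp y) t))) * h1

end Pool.Agent.W799.SRL
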