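import Pool.Agent.W799.SRLPlus

set_option autoImplicit false

open MeasureTheory Set Filter Topology Real
open scoped ContDiff

namespace Pool.Agent.W799.SRL

/-! ### bounds for the kernel -/

lemma one_sub_exp_le (u : ℝ) : 1 - Real.exp (-u) ≤ u := by
  have := Real.add_one_le_exp (-u); linarith

lemma sqrt_inv_le {t : ℝ} (ht : 0 < t) : (√(4 * π * t))⁻¹ ≤ (√t)⁻¹ := by
  apply inv_anti₀ (Real.sqrt_pos.2 ht)
  apply Real.sqrt_le_sqrt
  nlinarith [Real.pi_gt_three]

lemma kp_le_one (x y : ℝ) {t : ℝ} (ht : 0 < t) :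
    kp x y t ≤ Real.exp x * Real.exp y ^ 2 * (t⁻¹ * (√t)⁻¹) := by
  rw [kp_eq x y ht]
  have h1 : gE (Real.exp x - Real.exp y) t ≤ (√t)⁻¹ := by
    unfold gE
    have h2 : Real.exp (-(Real.exp x - Real.exp y) ^ 2 / (4 * t)) ≤ 1 := by
      apply Real.exp_le_one_iff.2
      apply div_nonpos_of_nonpos_of_nonneg _ (by positivity)
      nlinarith [sq_nonneg (Real.exp x - Real.exp y)]
    have h3 : 0 ≤ (√(4 * π * t))⁻¹ := by positivity
    calc _ ≤ (√(4 * π * t))⁻¹ * 1 := by gcongr
      _ ≤ (√t)⁻¹ := by rw [mul_one]; exact sqrt_inv_le ht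
  have h4 := one_sub_exp_le (Real.exp x * Real.exp y / t)
  have h5 := gE_pos (Real.exp x - Real.exp y) ht
  have h6 : 0 ≤ Real.exp x * Real.exp y / t := by positivity
  calc Real.exp y * (gE (Real.exp x - Real.exp y) t *
      (1 - Real.exp (-(Real.exp x * Real.exp y / t))))
      ≤ Real.exp y * ((√t)⁻¹ * (Real.exp x * Real.exp y / t)) := by
        gcongr Real.exp y * ?_
        calc _ ≤ gE (Real.exp x - Real.exp y) t * (Real.exp x * Real.exp y / t) := by gcongr
          _ ≤ _ := by gcongr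
    _ = Real.exp x * Real.exp y ^ 2 * (t⁻¹ * (√t)⁻¹) := by ring

lemma kp_le_two {x y t : ℝ} (hxy : x ≠ y) (ht : 0 < t) :
    kp x y t ≤ 32 * Real.exp x * Real.exp y ^ 2 * √t / (Real.exp x - Real.exp y) ^ 4 := by
  rw [kp_eq x y ht]
  have hz : Real.exp x - Real.exp y ≠ 0 := sub_ne_zero.2 (fun h => hxy (Real.exp_injective h))
  set z := Real.exp x - Real.exp y with hzdef
  have hz4 : 0 < z ^ 4 := by positivity
  have h1 : gE z t ≤ (√t)⁻¹ * (32 * t ^ 2 / z ^ 4) := by
    unfold gE
    have h2 : Real.exp (-z ^ 2 / (4 * t)) ≤ 32 * t ^ 2 / z ^ 4 := by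
      have h3 : 0 ≤ z ^ 2 / (4 * t) := by positivity
      have h4 := Real.quadratic_le_exp_of_nonneg h3
      have h5 : -z ^ 2 / (4 * t) = -(z ^ 2 / (4 * t)) := by ring
      rw [h5, Real.exp_neg, inv_le_comm₀ (Real.exp_pos _) (by positivity)]
      have h6 : (32 * t ^ 2 / z ^ 4)⁻¹ = (z ^ 2 / (4 * t)) ^ 2 / 2 := by field_simp; norm_num
      rw [h6]; linarith
    have h3 : 0 ≤ (√(4 * π * t))⁻¹ := by positivity
    exact mul_le_mul (sqrt_inv_le ht) h2 (Real.exp_pos _).le (by positivity)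
  have h4 := one_sub_exp_le (Real.exp x * Real.exp y / t)
  have h5 := gE_pos z ht
  have h6 : 0 ≤ Real.exp x * Real.exp y / t := by positivity
  calc Real.exp y * (gE z t * (1 - Real.exp (-(Real.exp x * Real.exp y / t))))
      ≤ Real.exp y * ((√t)⁻¹ * (32 * t ^ 2 / z ^ 4) * (Real.exp x * Real.exp y / t)) := by
        gcongr Real.exp y * ?_
        calc _ ≤ gE z t * (Real.exp x * Real.exp y / t) := by gcongr
          _ ≤ _ := by gcongr
    _ = 32 * Real.exp x * Real.exp y ^ 2 * √t / z ^ 4 := by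
        have hs : 0 < √t := Real.sqrt_pos.2 ht
        have hss : √t * √t = t := Real.mul_self_sqrt ht.le
        field_simp
        nlinarith [hss]

lemma kp_slice_cont (x y : ℝ) : ContinuousOn (fun t => kp x y t) (Ioi 0) :=
  kp_data.c.comp (f := fun t : ℝ => (x, y, t)) (by fun_prop) (fun t ht => ht)

lemma kp_subcritical : Subcritical kp := by
  intro x y hxy
  have hm : AEStronglyMeasurable (fun t => kp x y t) (volume.restrict (Ioi 0)) :=
    (kp_slice_cont x y).aestronglyMeasurable measurableSet_Ioi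
  rw [← Ioc_union_Ioi_eq_Ioi zero_le_one]
  apply IntegrableOn.union
  · apply Integrable.mono' (g := fun _ => 32 * Real.exp x * Real.exp y ^ 2 /
      (Real.exp x - Real.exp y) ^ 4) (integrable_const _)
    · exact hm.mono_measure (Measure.restrict_mono Ioc_subset_Ioi_self le_rfl)
    · filter_upwards [ae_restrict_mem measurableSet_Ioc] with t ht
      rw [Real.norm_of_nonneg (kp_pos x y ht.1).le]
      refine (kp_le_two hxy ht.1).trans ?_
      have h1 : √t ≤ 1 := Real.sqrt_le_one.2 ht.2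
      apply div_le_div_of_nonneg_right _ (by positivity)
      calc 32 * Real.exp x * Real.exp y ^ 2 * √t ≤ 32 * Real.exp x * Real.exp y ^ 2 * 1 := by
            gcongr
        _ = _ := mul_one _
  · have h1 := (integrableOn_Ioi_rpow_of_lt (a := -3 / 2) (c := 1) (by norm_num) one_pos).const_mul
      (Real.exp x * Real.exp y ^ 2)
    apply Integrable.mono' h1
    · exact hm.mono_measure (Measure.restrict_mono (Ioi_subset_Ioi zero_le_one) le_rfl)
    · filter_upwards [ae_restrict_mem measurableSet_Ioi] with t ht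
      have ht0 : 0 < t := lt_trans one_pos ht
      rw [Real.norm_of_nonneg (kp_pos x y ht0).le]
      refine (kp_le_one x y ht0).trans (le_of_eq ?_)
      congr 1
      rw [Real.sqrt_eq_rpow, ← Real.rpow_neg_one, ← Real.rpow_neg_one (t ^ (1 / 2 : ℝ)),
        ← Real.rpow_mul ht0.le, ← Real.rpow_add ht0]
      norm_num

/-! ### the Gaussian representation -/

/-- `f ∘ log` continued by `0` -/
noncomputable def Fp (f : ℝ → ℝ) (A : ℝ) (Y : ℝ) : ℝ := f (Real.log (max Y (Real.exp (-A - 1))))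

noncomputable def TT (f : ℝ → ℝ) (A : ℝ) (X t : ℝ) : ℝ :=
  ∫ s, (√π)⁻¹ * Real.exp (-1 * s ^ 2) * Fp f A (X - 2 * √t * s)

section rep
variable {f : ℝ → ℝ} {A : ℝ}

lemma Fp_cont (hf : Continuous f) : Continuous (Fp f A) := by
  unfold Fp
  refine hf.comp (Continuous.log (by fun_prop) fun Y => ?_)
  exact (lt_of_lt_of_le (Real.exp_pos (-A - 1)) (le_max_right _ _)).ne'

lemma Fp_zero (hA : ∀ y, A ≤ |y| → f y = 0) (hA0 : 0 ≤ A) {Y : ℝ} (hY : Y ≤ 0) :
    Fp f A Y = 0 := by
  unfold Fp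
  rw [max_eq_right (hY.trans (Real.exp_pos _).le), Real.log_exp]
  apply hA
  have : -A - 1 = -(A + 1) := by ring
  rw [this, abs_neg, abs_of_nonneg (by linarith)]; linarith

lemma Fp_exp (hA : ∀ y, A ≤ |y| → f y = 0) (hA0 : 0 ≤ A) (y : ℝ) :
    Fp f A (Real.exp y) = f y := by
  unfold Fp
  rcases le_total (-A - 1) y with h | h
  · rw [max_eq_left (Real.exp_le_exp.2 h), Real.log_exp]
  · rw [max_eq_right (Real.exp_le_exp.2 h), Real.log_exp, hA, hA]
    · rw [abs_of_nonpos (by linarith)]; linarith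
    · have : -A - 1 = -(A + 1) := by ring
      rw [this, abs_neg, abs_of_nonneg (by linarith)]; linarith

lemma Fp_supp (hA : ∀ y, A ≤ |y| → f y = 0) (hA0 : 0 ≤ A) : HasCompactSupport (Fp f A) := by
  apply HasCompactSupport.intro (isCompact_Icc (a := (0:ℝ)) (b := Real.exp A))
  intro Y hY
  by_cases h0 : Y ≤ 0
  · exact Fp_zero hA hA0 h0
  · push Not at h0
    have h1 : Real.exp A < Y := by
      by_contra h
      push Not at h
      exact hY ⟨h0.le, h⟩
    have h2 : Y = Real.exp (Real.log Y) := (Real.exp_log h0).symm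
    rw [h2, Fp_exp hA hA0]
    apply hA
    have h3 : A < Real.log Y := by rwa [Real.lt_log_iff_exp_lt h0]
    exact h3.le.trans (le_abs_self _)

lemma TT_cont (hf : Continuous f) (hfc : HasCompactSupport f) :
    Continuous (fun p : ℝ × ℝ => TT f A p.1 p.2) := by
  obtain ⟨C, hC⟩ := hf.bounded_above_of_compact_support hfc
  have hF : Continuous (Fp f A) := Fp_cont hf
  unfold TT
  refine continuous_of_dominated (bound := fun s => (√π)⁻¹ * Real.exp (-1 * s ^ 2) * C)
    ?_ ?_ ?_ ?_
  · intro p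
    exact (by fun_prop : Continuous fun s : ℝ =>
      (√π)⁻¹ * Real.exp (-1 * s ^ 2) * Fp f A (p.1 - 2 * √p.2 * s)).aestronglyMeasurable
  · intro p
    refine Eventually.of_forall fun s => ?_
    rw [norm_mul, Real.norm_of_nonneg (by positivity)]
    gcongr
    exact hC _
  · exact ((integrable_exp_neg_mul_sq one_pos).const_mul _).mul_const _
  · refine Eventually.of_forall fun s => ?_
    fun_prop

lemma TT_zero (X : ℝ) : TT f A X 0 = Fp f A X := by
  unfold TT
  simp only [Real.sqrt_zero, mul_zero, zero_mul, sub_zero]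
  rw [integral_mul_const, integral_const_mul, integral_gaussian]
  have : √π ≠ 0 := (Real.sqrt_pos.2 Real.pi_pos).ne'
  simp only [div_one]
  field_simp

lemma TT_eq (X : ℝ) {t : ℝ} (ht : 0 < t) : ∫ Y, gE (X - Y) t * Fp f A Y = TT f A X t := by
  have h1 := integral_sub_left_eq_self (fun z => gE z t * Fp f A (X - z)) volume X
  simp only [sub_sub_cancel] at h1
  have hs : 0 < √t := Real.sqrt_pos.2 ht
  have hc : 0 < 2 * √t := by positivity
  have h2 := Measure.integral_comp_mul_left (fun z => gE z t * Fp f A (X - z)) (2 * √t)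
  rw [abs_of_pos (inv_pos.2 hc), smul_eq_mul] at h2
  rw [h1]
  have h3 : ∫ z, gE z t * Fp f A (X - z) =
      (2 * √t) * ∫ s, gE (2 * √t * s) t * Fp f A (X - 2 * √t * s) := by
    rw [h2]; field_simp
  rw [h3, ← integral_const_mul]
  unfold TT
  congr 1
  funext s
  rw [← mul_assoc]
  congr 1
  unfold gE
  have hss : √t ^ 2 = t := Real.sq_sqrt ht.le
  have e1 : -(2 * √t * s) ^ 2 / (4 * t) = -1 * s ^ 2 := by
    rw [mul_pow, mul_pow, hss]; field_simp; ring
  have e2 : √(4 * π * t) = 2 * √π * √t := by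
    rw [Real.sqrt_mul (by positivity), Real.sqrt_mul (by norm_num)]
    have : √(4:ℝ) = 2 := by
      rw [show (4:ℝ) = 2 * 2 by norm_num, Real.sqrt_mul_self (by norm_num)]
    rw [this]
  rw [e1, e2]
  have : 0 < √π := Real.sqrt_pos.2 Real.pi_pos
  field_simp

lemma gE_neg (z t : ℝ) : gE (-z) t = gE z t := by unfold gE; rw [neg_sq]

lemma gE_slice_cont {t : ℝ} (ht : 0 < t) : Continuous (fun z => gE z t) := by
  have := gE_cont.comp (f := fun z : ℝ => (z, t)) (s := univ) (by fun_prop) (fun z _ => ht)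
  exact continuousOn_univ.1 this

/-- the representation of the solution generated by `kp` -/
lemma kp_rep (hf : Continuous f) (hA : ∀ y, A ≤ |y| → f y = 0) (hA0 : 0 ≤ A) (x : ℝ) {t : ℝ}
    (ht : 0 < t) : ∫ y, kp x y t * f y = TT f A (Real.exp x) t - TT f A (-Real.exp x) t := by
  have hF : Continuous (Fp f A) := Fp_cont hf
  have hFs := Fp_supp hA hA0
  have hg := gE_slice_cont ht
  have i1 : Integrable (fun Y => gE (Real.exp x - Y) t * Fp f A Y) :=
    Continuous.integrable_of_hasCompactSupport (by fun_prop) hFs.mul_left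
  have i2 : Integrable (fun Y => gE (-Real.exp x - Y) t * Fp f A Y) :=
    Continuous.integrable_of_hasCompactSupport (by fun_prop) hFs.mul_left
  rw [← TT_eq _ ht, ← TT_eq _ ht, ← integral_sub i1 i2]
  have h1 : ∫ Y, (gE (Real.exp x - Y) t * Fp f A Y - gE (-Real.exp x - Y) t * Fp f A Y) =
      ∫ Y in Ioi 0, (gE (Real.exp x - Y) t * Fp f A Y - gE (-Real.exp x - Y) t * Fp f A Y) := by
    symm
    apply setIntegral_eq_integral_of_forall_compl_eq_zero
    intro Y hY
    have : Y ≤ 0 := by simpa using hY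
    rw [Fp_zero hA hA0 this]; ring
  rw [h1]
  have h2 := integral_image_eq_integral_abs_deriv_smul (s := univ) (f := Real.exp)
    (f' := Real.exp) MeasurableSet.univ (fun y _ => (Real.hasDerivAt_exp y).hasDerivWithinAt)
    (Real.exp_injective.injOn)
    (fun Y => gE (Real.exp x - Y) t * Fp f A Y - gE (-Real.exp x - Y) t * Fp f A Y)
  rw [image_univ, Real.range_exp] at h2
  rw [h2, setIntegral_univ]
  congr 1
  funext y
  rw [Fp_exp hA hA0, abs_of_pos (Real.exp_pos y), smul_eq_mul]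
  have e : gE (-Real.exp x - Real.exp y) t = gE (Real.exp x + Real.exp y) t := by
    rw [← gE_neg]; congr 1; ring
  rw [e]
  unfold kp; ring

end rep

lemma exists_A {f : ℝ → ℝ} (hfc : HasCompactSupport f) : ∃ A, 0 ≤ A ∧ ∀ y, A ≤ |y| → f y = 0 := by
  obtain ⟨R, hR⟩ := hfc.isCompact.isBounded.subset_closedBall 0
  refine ⟨|R| + 1, by positivity, fun y hy => ?_⟩
  apply image_eq_zero_of_notMem_tsupport
  intro h
  have := hR h
  rw [Metric.mem_closedBall, dist_zero_right, Real.norm_eq_abs] at this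
  linarith [le_abs_self R]

lemma kp_init (f : ℝ → ℝ) (hf : Continuous f) (hfc : HasCompactSupport f) (x : ℝ) :
    Tendsto (fun p : ℝ × ℝ => ∫ y, kp p.1 y p.2 * f y) (𝓝[{p | 0 < p.2}] (x, 0)) (𝓝 (f x)) := by
  obtain ⟨A, hA0, hA⟩ := exists_A hfc
  have hT := TT_cont (A := A) hf hfc
  have h1 : Continuous (fun p : ℝ × ℝ =>
      TT f A (Real.exp p.1) p.2 - TT f A (-Real.exp p.1) p.2) := by
    exact (hT.comp (f := fun p : ℝ × ℝ => (Real.exp p.1, p.2)) (by fun_prop)).sub
      (hT.comp (f := fun p : ℝ × ℝ => (-Real.exp p.1, p.2)) (by fun_prop))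
  have h2 := (h1.tendsto (x, 0)).mono_left (nhdsWithin_le_nhds (s := {p : ℝ × ℝ | 0 < p.2}))
  simp only [TT_zero] at h2
  rw [Fp_exp hA hA0, Fp_zero hA hA0 (by linarith [Real.exp_pos x] : -Real.exp x ≤ 0),
    sub_zero] at h2
  refine h2.congr' ?_
  filter_upwards [self_mem_nhdsWithin] with p hp
  exact (kp_rep hf hA hA0 p.1 hp).symm

end Pool.Agent.W799.SRL
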