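import Pool.Agent.W799.SRLUpper

set_option autoImplicit false

open MeasureTheory Set Filter Topology
open scoped ContDiff

namespace Pool.Agent.W799.SRL

/-- the operator `- a u''` -/
def opA (a : ℝ → ℝ) : Op := ⟨a, fun _ => 0, fun _ => 0⟩

/-- the test function `max 0 (1/2 - |x|)` -/
noncomputable def tent (x : ℝ) : ℝ := max 0 (1 / 2 - |x|)

lemma tent_cont : Continuous tent := by unfold tent; fun_prop
lemma tent_nonneg (x : ℝ) : 0 ≤ tent x := le_max_left _ _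
lemma tent_zero {x : ℝ} (hx : 1 / 2 ≤ |x|) : tent x = 0 := max_eq_left (by linarith)
lemma tent_le (x : ℝ) : tent x ≤ 1 / 2 := max_le (by norm_num) (by linarith [abs_nonneg x])
lemma tent_supp : HasCompactSupport tent := by
  apply HasCompactSupport.intro (isCompact_Icc (a := (-1:ℝ)) (b := 1))
  intro x hx
  apply tent_zero
  by_contra h
  push Not at h
  apply hx
  have := abs_lt.1 h
  exact ⟨by linarith [this.1], by linarith [this.2]⟩
lemma tent_integral_pos : 0 < ∫ x, tent x := by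
  apply tent_cont.integral_pos_of_hasCompactSupport_nonneg_nonzero tent_supp tent_nonneg (x := 0)
  unfold tent; norm_num

section
variable {a : ℝ → ℝ} {j ℓ α α' r κ : ℝ}

lemma super_w (hj : 1 ≤ j) (hℓ : 0 < ℓ) (hℓ1 : ℓ ≤ 1)
    (hα : 0 < α) (hα' : 0 < α') (ha0 : ∀ x, 0 < a x)
    (ha1 : ∀ x, a x ≤ 1) (h1 : ∀ x, |x| ≤ j → α ≤ a x) (h2 : ∀ x, j + ℓ ≤ |x| → a x ≤ α')
    (hr : r = j + 2 * ℓ) (hκ : κ = ℓ ^ 2) :
    IsSuper (opA a) (fun x t => Real.exp (-(α / r ^ 2 * t)) * psi r κ x +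
      (α / r ^ 2 * (4 * ℓ + κ) + 2 * ℓ * r + 4 * α' / κ) * t) := by
  have hκ0 : 0 < κ := by rw [hκ]; positivity
  have hr1 : 1 ≤ r := by linarith
  have hr0 : 0 < r := by linarith
  have hlam : 0 < α / r ^ 2 := by positivity
  set c := α / r ^ 2 * (4 * ℓ + κ) + 2 * ℓ * r + 4 * α' / κ with hc
  have hc0 : 0 ≤ c := by positivity
  have hexp : ∀ t : ℝ, HasDerivAt (fun s => Real.exp (-(α / r ^ 2 * s)))
      (-(α / r ^ 2) * Real.exp (-(α / r ^ 2 * t))) t := by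
    intro t
    have := (((hasDerivAt_id t).const_mul (α / r ^ 2)).neg).exp
    refine this.congr_deriv ?_
    simp; ring
  refine isSuper_of (opA a) _
    (fun x t => -(α / r ^ 2) * Real.exp (-(α / r ^ 2 * t)) * psi r κ x + c)
    (fun x t => Real.exp (-(α / r ^ 2 * t)) * psi1 r κ x)
    (fun x t => Real.exp (-(α / r ^ 2 * t)) * psi2 r κ x) ?_ ?_ ?_ ?_ ?_ ?_ ?_ ?_ ?_
  · have := psi_continuous (r := r) (κ := κ)
    fun_prop
  · intro x t ht
    have := psi_nonneg r κ x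
    positivity
  · intro x t ht
    have h5 : HasDerivAt (fun s : ℝ => c * s) c t := by
      simpa using (hasDerivAt_id t).const_mul c
    exact ((hexp t).mul_const _).add h5
  · intro x t ht
    exact ((psi_deriv r hκ0 x).const_mul _).add_const _
  · intro x t ht
    exact (psi1_deriv hr1 hκ0 x).const_mul _
  · have := psi_continuous (r := r) (κ := κ)
    fun_prop
  · have := psi1_continuous (r := r) hκ0
    fun_prop
  · have := psi2_continuous (κ := κ) hr1 hκ0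
    fun_prop
  · intro x t ht
    have hkey := super_key hj hℓ hℓ1 hα hα' ha0 ha1 h1 h2 hr hκ x
    rw [← hc] at hkey
    have he1 : Real.exp (-(α / r ^ 2 * t)) ≤ 1 := Real.exp_le_one_iff.2 (by
      have : 0 ≤ α / r ^ 2 * t := by positivity
      linarith)
    have he0 := Real.exp_pos (-(α / r ^ 2 * t))
    set e := Real.exp (-(α / r ^ 2 * t)) with he
    have : e * (α / r ^ 2 * psi r κ x + a x * psi2 r κ x) ≤ c := by
      calc e * (α / r ^ 2 * psi r κ x + a x * psi2 r κ x) ≤ e * c := by gcongr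
        _ ≤ 1 * c := by gcongr
        _ = c := one_mul c
    simp only [opA, zero_mul, add_zero]
    linarith

lemma upper_one (hj : 1 ≤ j) (hℓ : 0 < ℓ) (hℓ1 : ℓ ≤ 1)
    (hα : 0 < α) (hα' : 0 < α') (ha0 : ∀ x, 0 < a x)
    (ha1 : ∀ x, a x ≤ 1) (h1 : ∀ x, |x| ≤ j → α ≤ a x) (h2 : ∀ x, j + ℓ ≤ |x| → a x ≤ α')
    (hr : r = j + 2 * ℓ) (hκ : κ = ℓ ^ 2) (t : ℝ) :
    ∃ w, IsSuper (opA a) w ∧ (∀ x, tent x ≤ w x 0) ∧ w 0 t ≤ 2 * Real.exp (-(α / r ^ 2 * t)) +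
      (α / r ^ 2 * (4 * ℓ + κ) + 2 * ℓ * r + 4 * α' / κ) * t := by
  have hκ0 : 0 < κ := by rw [hκ]; positivity
  have hκ1 : κ ≤ 1 := by rw [hκ]; exact pow_le_one₀ hℓ.le hℓ1
  have hr1 : 1 ≤ r := by linarith
  have hr0 : 0 < r := by linarith
  refine ⟨_, super_w hj hℓ hℓ1 hα hα' ha0 ha1 h1 h2 hr hκ, fun x => ?_, ?_⟩
  · simp only [mul_zero, neg_zero, Real.exp_zero, one_mul, add_zero]
    rcases le_total (1 / 2) |x| with hx | hx
    · rw [tent_zero hx]; exact psi_nonneg r κ x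
    · refine (tent_le x).trans ?_
      have hq : 1 / 2 ≤ qq r x := by
        unfold qq
        rw [le_sub_iff_add_le, add_comm, ← le_sub_iff_add_le, div_le_iff₀ (by positivity)]
        have : x ^ 2 ≤ (1 / 2) ^ 2 := by
          rw [← sq_abs x]; exact pow_le_pow_left₀ (abs_nonneg x) hx 2
        nlinarith
      have h3 := (le_abs_self _).trans (abs_qq_le_ss r κ x)
      unfold psi; linarith
  · have h0 : psi r κ 0 ≤ 2 := by
      refine (psi_le hκ0 0).trans ?_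
      have : qq r 0 = 1 := by unfold qq; simp
      rw [this]
      have : max (1:ℝ) 0 = 1 := max_eq_left zero_le_one
      linarith
    have he0 := Real.exp_pos (-(α / r ^ 2 * t))
    nlinarith [mul_le_mul_of_nonneg_left h0 he0.le]

end

/-- the trap operator: the solution with initial value `tent` is small at the times `t n` -/
theorem exists_trap : ∃ (a : ℝ → ℝ) (t : ℕ → ℝ), ContDiff ℝ ∞ a ∧ (∀ x, 0 < a x) ∧
    (∀ x, a x ≤ 1) ∧ (∀ n : ℕ, (n : ℝ) + 2 ≤ t n) ∧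
    ∀ n : ℕ, 1 ≤ n → ∃ w, IsSuper (opA a) w ∧ (∀ x, tent x ≤ w x 0) ∧
      w 0 (t n) ≤ 5 / (t n) ^ 2 := by
  obtain ⟨α, ℓ, t, hα, hα1, hanti, hℓ, hℓ1, ht, hte, hℓt, hαℓ⟩ := exists_params
  obtain ⟨a, ha, ha0, ha1, hal, hau⟩ := exists_profile α ℓ hα hα1 hanti hℓ hℓ1
  refine ⟨a, t, ha, ha0, ha1, ht, fun n hn => ?_⟩
  have hn' : (1:ℝ) ≤ n := by exact_mod_cast hn
  have htn := ht n
  have ht3 : 3 ≤ t n := by linarith
  have ht0 : 0 < t n := by linarith
  set r : ℝ := n + 2 * ℓ n with hr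
  have hr1 : 1 ≤ r := by linarith [hℓ n]
  have hrt : r ≤ t n := by linarith [hℓ1 n]
  obtain ⟨w, hw, hw0, h⟩ := upper_one hn' (hℓ n) (hℓ1 n) (hα n) (hα (n + 1)) ha0 ha1
    (fun x hx => hal n x hx) (fun x hx => hau n x hx) hr rfl (t n)
  refine ⟨w, hw, hw0, h.trans ?_⟩
  have hℓn := hℓ n
  have hr0 : 0 < r := by linarith
  have hlam1 : α n / r ^ 2 ≤ 1 := by
    rw [div_le_one (by positivity)]
    exact (hα1 n).trans (one_le_pow₀ hr1)
  have hlam0 : 0 < α n / r ^ 2 := div_pos (hα n) (by positivity)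
  -- exponential term
  have E : 2 * Real.exp (-(α n / r ^ 2 * t n)) ≤ 2 / (t n) ^ 2 := by
    have h1 : Real.exp (-(α n / r ^ 2 * t n)) ≤ Real.exp (-(α n / ((n:ℝ) + 2) ^ 2 * t n)) := by
      apply Real.exp_le_exp.2
      have : α n / ((n:ℝ) + 2) ^ 2 ≤ α n / r ^ 2 := by
        have := hα n
        gcongr
        linarith [hℓ1 n]
      have := mul_le_mul_of_nonneg_right this ht0.le
      linarith
    have h2 := hte n
    rw [le_div_iff₀ (by positivity)]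
    nlinarith [mul_le_mul_of_nonneg_left h1 (sq_nonneg (t n))]
  have ht2 : (1:ℝ) ≤ (t n) ^ 2 := one_le_pow₀ (by linarith)
  have ht4 : (t n) ^ 4 = (t n) ^ 2 * (t n) ^ 2 := by ring
  have hℓe : ℓ n * (5 * (t n) ^ 4) = 1 := by rw [hℓt n]; field_simp
  -- first term
  have T1 : α n / r ^ 2 * (4 * ℓ n + ℓ n ^ 2) * t n ≤ 1 / (t n) ^ 2 := by
    have h1 : ℓ n ^ 2 ≤ ℓ n := by nlinarith [hℓ1 n]
    have h2 : α n / r ^ 2 * (4 * ℓ n + ℓ n ^ 2) ≤ 1 * (5 * ℓ n) :=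
      mul_le_mul hlam1 (by linarith) (by positivity) zero_le_one
    rw [le_div_iff₀ (by positivity)]
    calc α n / r ^ 2 * (4 * ℓ n + ℓ n ^ 2) * t n * (t n) ^ 2
        ≤ 1 * (5 * ℓ n) * t n * (t n) ^ 2 := by gcongr
      _ = 5 * ℓ n * (t n) ^ 3 := by ring
      _ ≤ 5 * ℓ n * (t n) ^ 4 := by
          gcongr 5 * ℓ n * ?_
          exact pow_le_pow_right₀ (by linarith) (by norm_num)
      _ = 1 := by linarith
  have T2 : 2 * ℓ n * r * t n ≤ 1 / (t n) ^ 2 := by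
    rw [le_div_iff₀ (by positivity)]
    calc 2 * ℓ n * r * t n * (t n) ^ 2 ≤ 2 * ℓ n * t n * t n * (t n) ^ 2 := by gcongr
      _ = 2 * (ℓ n * (t n) ^ 4) := by ring
      _ ≤ 1 := by linarith
  have T3 : 4 * α (n + 1) / ℓ n ^ 2 * t n ≤ 1 / (t n) ^ 2 := by
    have h1 := hαℓ n
    rw [le_div_iff₀ (by positivity)] at h1
    rw [le_div_iff₀ (by positivity)]
    have : 4 * α (n + 1) / ℓ n ^ 2 * t n * (t n) ^ 2 = α (n + 1) * (4 * (t n) ^ 3) / ℓ n ^ 2 := by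
      ring
    rw [this, div_le_one (by positivity)]
    exact h1
  have : (α n / r ^ 2 * (4 * ℓ n + ℓ n ^ 2) + 2 * ℓ n * r + 4 * α (n + 1) / ℓ n ^ 2) * t n =
      α n / r ^ 2 * (4 * ℓ n + ℓ n ^ 2) * t n + 2 * ℓ n * r * t n +
        4 * α (n + 1) / ℓ n ^ 2 * t n := by ring
  rw [this]
  have e5 : (5:ℝ) / (t n) ^ 2 = 2 / (t n) ^ 2 + 1 / (t n) ^ 2 + 1 / (t n) ^ 2 + 1 / (t n) ^ 2 := by
    ring
  rw [e5]; linarith

end Pool.Agent.W799.SRL
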