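import Pool.Agent.W799.SRLPlus2
import Pool.Agent.W799.SRLUp2

set_option autoImplicit false

open MeasureTheory Set Filter Topology Real
open scoped ContDiff

namespace Pool.Agent.W799.SRL

/-- uniform decay of `kp` at the ends of the line -/
lemma kp_far {A L T t x y : ℝ} (hA : 0 ≤ A) (hL : A + 1 ≤ L) (hx : |x| = L) (hy : |y| ≤ A)
    (ht : 0 < t) (htT : t ≤ T) :
    kp x y t ≤ 512 * Real.exp (6 * A) * √T * Real.exp (-L) := by
  have hy1 := abs_le.1 hy
  have hxy : x ≠ y := by
    rintro rfl; linarith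
  refine (kp_le_two hxy ht).trans ?_
  have hsT : √t ≤ √T := Real.sqrt_le_sqrt htT
  have hst : 0 < √t := Real.sqrt_pos.2 ht
  have hz : Real.exp x - Real.exp y ≠ 0 := sub_ne_zero.2 (fun h => hxy (Real.exp_injective h))
  have he1 : Real.exp (-1) ≤ 1 / 2 := by
    rw [Real.exp_neg, inv_eq_one_div]
    apply one_div_le_one_div_of_le (by norm_num)
    have := Real.add_one_le_exp (1:ℝ)
    linarith
  have hey : Real.exp y ^ 2 ≤ Real.exp (2 * A) := by
    rw [← Real.exp_nat_mul]
    apply Real.exp_le_exp.2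
    push_cast
    linarith [hy1.2]
  -- lower bound for the denominator
  have hden : Real.exp (4 * max x (-A)) / 16 ≤ (Real.exp x - Real.exp y) ^ 4 := by
    rcases (abs_eq (by linarith)).1 hx with h | h
    · have hm : max x (-A) = x := max_eq_left (by linarith)
      rw [hm]
      have h1 : Real.exp y ≤ Real.exp x * (1 / 2) := by
        calc Real.exp y ≤ Real.exp (x + -1) := Real.exp_le_exp.2 (by linarith [hy1.2])
          _ = Real.exp x * Real.exp (-1) := Real.exp_add _ _
          _ ≤ Real.exp x * (1 / 2) := by gcongr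
      have h2 : Real.exp x / 2 ≤ Real.exp x - Real.exp y := by linarith
      have h3 : (Real.exp x / 2) ^ 4 ≤ (Real.exp x - Real.exp y) ^ 4 :=
        pow_le_pow_left₀ (by positivity) h2 4
      have h4 : Real.exp (4 * x) / 16 = (Real.exp x / 2) ^ 4 := by
        rw [div_pow, ← Real.exp_nat_mul]; norm_num
      rw [h4]; exact h3
    · have hm : max x (-A) = -A := max_eq_right (by linarith)
      rw [hm]
      have h1 : Real.exp x ≤ Real.exp (-A) * (1 / 2) := by
        calc Real.exp x ≤ Real.exp (-A + -1) := Real.exp_le_exp.2 (by linarith)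
          _ = Real.exp (-A) * Real.exp (-1) := Real.exp_add _ _
          _ ≤ Real.exp (-A) * (1 / 2) := by gcongr
      have h1' : Real.exp (-A) ≤ Real.exp y := Real.exp_le_exp.2 hy1.1
      have h2 : Real.exp (-A) / 2 ≤ Real.exp y - Real.exp x := by linarith
      have h3 : (Real.exp (-A) / 2) ^ 4 ≤ (Real.exp y - Real.exp x) ^ 4 :=
        pow_le_pow_left₀ (by positivity) h2 4
      have h4 : Real.exp (4 * -A) / 16 = (Real.exp (-A) / 2) ^ 4 := by
        rw [div_pow, ← Real.exp_nat_mul]; norm_num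
      rw [h4]
      have h5 : (Real.exp x - Real.exp y) ^ 4 = (Real.exp y - Real.exp x) ^ 4 := by ring
      rw [h5]; exact h3
  have hnum : Real.exp x * Real.exp (2 * A) ≤
      Real.exp (6 * A) * Real.exp (-L) * Real.exp (4 * max x (-A)) := by
    rw [← Real.exp_add, ← Real.exp_add, ← Real.exp_add]
    apply Real.exp_le_exp.2
    rcases (abs_eq (by linarith)).1 hx with h | h
    · have hm : max x (-A) = x := max_eq_left (by linarith)
      rw [hm]; linarith
    · have hm : max x (-A) = -A := max_eq_right (by linarith)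
      rw [hm]; linarith
  rw [div_le_iff₀ (by positivity)]
  calc 32 * Real.exp x * Real.exp y ^ 2 * √t ≤ 32 * Real.exp x * Real.exp (2 * A) * √T := by gcongr
    _ = 32 * √T * (Real.exp x * Real.exp (2 * A)) := by ring
    _ ≤ 32 * √T * (Real.exp (6 * A) * Real.exp (-L) * Real.exp (4 * max x (-A))) := by gcongr
    _ = 512 * Real.exp (6 * A) * √T * Real.exp (-L) * (Real.exp (4 * max x (-A)) / 16) := by ring
    _ ≤ 512 * Real.exp (6 * A) * √T * Real.exp (-L) * (Real.exp x - Real.exp y) ^ 4 := by gcongr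

lemma IsSuper.jet {P : Op} {w : ℝ → ℝ → ℝ} (hw : IsSuper P w) (x : ℝ) {t : ℝ} (ht : 0 < t) :
    Jet w x t (deriv (fun s => w x s) t) (deriv (fun x => w x t) x)
      (deriv (deriv (fun x => w x t)) x) := by
  have h2 := hw.smooth_x t ht
  have hd : Differentiable ℝ (fun x => w x t) := h2.differentiable (by norm_num)
  have hdd : Differentiable ℝ (deriv (fun x => w x t)) := by
    have h3 : ContDiff ℝ (1 + 1) (fun x => w x t) := h2.of_le (by norm_num)
    rw [contDiff_succ_iff_deriv] at h3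
    exact h3.2.2.differentiable (by norm_num)
  exact ⟨(hw.diff_t x t ht).hasDerivAt, deriv (fun x => w x t),
    Eventually.of_forall fun y => (hd y).hasDerivAt, rfl, (hdd x).hasDerivAt⟩

lemma kp_minimal (f : ℝ → ℝ) (hf : Continuous f) (hfc : HasCompactSupport f)
    (hf0 : ∀ x, 0 ≤ f x) (w : ℝ → ℝ → ℝ) (hw : IsSuper opP w) (hfw : ∀ x, f x ≤ w x 0)
    (x0 t0 : ℝ) (ht0 : 0 < t0) : ∫ y, kp x0 y t0 * f y ≤ w x0 t0 := by
  obtain ⟨A, hA0, hA⟩ := exists_A hfc
  have hT := TT_cont (A := A) hf hfc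
  set u : ℝ → ℝ → ℝ := fun x t => TT f A (Real.exp x) t - TT f A (-Real.exp x) t with hu
  have huc : Continuous (fun p : ℝ × ℝ => u p.1 p.2) := by
    exact (hT.comp (f := fun p : ℝ × ℝ => (Real.exp p.1, p.2)) (by fun_prop)).sub
      (hT.comp (f := fun p : ℝ × ℝ => (-Real.exp p.1, p.2)) (by fun_prop))
  have hu0 : ∀ x, u x 0 = f x := by
    intro x
    simp only [hu, TT_zero]
    rw [Fp_exp hA hA0, Fp_zero hA hA0 (by linarith [Real.exp_pos x] : -Real.exp x ≤ 0), sub_zero]
  have hurep : ∀ x t, 0 < t → ∫ y, kp x y t * f y = u x t := fun x t ht =>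
    kp_rep hf hA hA0 x ht
  have hint : 0 ≤ ∫ y, f y := integral_nonneg hf0
  have hfi : Integrable f := hf.integrable_of_hasCompactSupport hfc
  -- smallness at the ends
  have hfar : ∀ L, A + 1 ≤ L → ∀ x, |x| = L → ∀ t ∈ Icc 0 t0,
      u x t ≤ 512 * Real.exp (6 * A) * √t0 * Real.exp (-L) * ∫ y, f y := by
    intro L hL x hx t ht
    rcases eq_or_lt_of_le ht.1 with h | h
    · rw [← h, hu0 x, hA x (by rw [hx]; linarith)]
      positivity
    · rw [← hurep x t h, ← integral_const_mul]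
      have hi : Integrable (fun y => kp x y t * f y) := by
        have := kp_data.c.comp (f := fun y : ℝ => (x, y, t)) (s := univ) (by fun_prop)
          (fun y _ => h)
        exact ((continuousOn_univ.1 this).mul hf).integrable_of_hasCompactSupport hfc.mul_left
      apply integral_mono hi (hfi.const_mul _)
      intro y
      simp only
      by_cases hy : |y| ≤ A
      · exact mul_le_mul_of_nonneg_right (kp_far hA0 hL hx hy h ht.2) (hf0 y)
      · rw [hA y (not_le.1 hy).le]; simp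
  rw [hurep x0 t0 ht0]
  apply le_of_forall_pos_le_add
  intro ε hε
  -- choose `L`
  obtain ⟨L, hL1, hL2, hL3⟩ : ∃ L, A + 1 ≤ L ∧ |x0| ≤ L ∧
      512 * Real.exp (6 * A) * √t0 * Real.exp (-L) * ∫ y, f y ≤ ε := by
    have h1 : Tendsto (fun L : ℝ => 512 * Real.exp (6 * A) * √t0 * Real.exp (-L) * ∫ y, f y)
        atTop (𝓝 (512 * Real.exp (6 * A) * √t0 * 0 * ∫ y, f y)) :=
      (((Real.tendsto_exp_neg_atTop_nhds_zero)).const_mul _).mul_const _
    rw [mul_zero, zero_mul] at h1
    obtain ⟨L, h2, h3, h4⟩ := ((h1.eventually_lt_const hε).and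
      ((eventually_ge_atTop (A + 1)).and (eventually_ge_atTop |x0|))).exists
    exact ⟨L, h3, h4, h2.le⟩
  have hL0 : 0 < L := by linarith
  have hz := maxP (a := opP.a) (b := opP.b) (x1 := -L) (x2 := L) (T := t0)
    (z := fun x t => w x t - u x t + ε) ?_ ?_ ?_ ?_ ?_ ?_ x0 (abs_le.1 hL2) t0 ⟨ht0.le, le_rfl⟩
  · linarith
  · have h1 : ContinuousOn (fun p : ℝ × ℝ => w p.1 p.2) (Icc (-L) L ×ˢ Icc 0 t0) :=
      hw.cont.mono (fun p hp => hp.2.1)
    exact (h1.sub huc.continuousOn).add continuousOn_const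
  · intro x _
    have := hfw x
    rw [hu0 x]; linarith
  · intro t ht
    have h1 := hfar L hL1 (-L) (by rw [abs_neg, abs_of_pos hL0]) t ht
    have h2 := hw.nonneg (-L) t ht.1
    linarith
  · intro t ht
    have h1 := hfar L hL1 L (abs_of_pos hL0) t ht
    have h2 := hw.nonneg L t ht.1
    linarith
  · intro x _; exact (Real.exp_pos _).le
  · intro x _ t ht
    obtain ⟨hj, heq⟩ := kp_data.jet hf hfc x ht.1
    have hj' : Jet u x t (∫ y, kpt x y t * f y) (∫ y, kpx x y t * f y) (∫ y, kpxx x y t * f y) := by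
      obtain ⟨j1, g, j2, j3, j4⟩ := hj
      refine ⟨j1.congr_of_eventuallyEq ?_, g, ?_, j3, j4⟩
      · filter_upwards [Ioi_mem_nhds ht.1] with s hs
        exact (hurep x s hs).symm
      · filter_upwards [j2] with y hy
        refine hy.congr_of_eventuallyEq ?_
        exact Eventually.of_forall fun y' => (hurep y' t ht.1).symm
    have hjw := hw.jet x ht.1
    refine ⟨_, _, _, (hjw.sub hj').add (jet_const ε x t), ?_⟩
    have hin := hw.ineq x t ht.1
    simp only [Op.app, opP] at hin heq ⊢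
    linarith

theorem kp_isHeatKernel : IsHeatKernel opP kp :=
  { kp_data.isFundamental kp_init with minimal := kp_minimal }

lemma opP_elliptic : opP.Elliptic := by
  refine ⟨?_, ?_, ?_, fun x => Real.exp_pos _⟩
  · unfold opP; fun_prop
  · unfold opP; fun_prop
  · unfold opP; fun_prop

lemma opP_nonneg : opP.Nonneg :=
  ⟨fun _ => 1, contDiff_const, fun _ => one_pos, fun x => by simp [Op.app, opP]⟩

/-- lower bound -/
lemma kp_lower {y t : ℝ} (hy : |y| ≤ 1 / 2) (ht : 2 ≤ t) :
    1 / 64 * (t⁻¹ * (√t)⁻¹) ≤ kp 0 y t := by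
  have ht0 : 0 < t := by linarith
  rw [kp_eq 0 y ht0, Real.exp_zero, one_mul]
  have hy1 := abs_le.1 hy
  have e1 : (1:ℝ) / 2 ≤ Real.exp y := by
    have := Real.add_one_le_exp y; linarith [hy1.1]
  have e2 : Real.exp y ≤ 2 := by
    have h1 : Real.exp y ≤ Real.exp (1 / 2) := Real.exp_le_exp.2 hy1.2
    have h2 : Real.exp (1 / 2) ≤ 2 := by
      have h3 := Real.one_sub_le_exp_neg (1 / 2)
      rw [Real.exp_neg] at h3
      have h4 := Real.exp_pos (1 / 2 : ℝ)
      have h5 : (1:ℝ) - 1 / 2 = 1 / 2 := by norm_num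
      rw [h5, le_inv_comm₀ (by norm_num) h4] at h3
      linarith
    linarith
  set Y := Real.exp y with hY
  have hst : 0 < √t := Real.sqrt_pos.2 ht0
  have g1 : 7 / 32 * (√t)⁻¹ ≤ gE (1 - Y) t := by
    unfold gE
    have h1 : 1 / 4 * (√t)⁻¹ ≤ (√(4 * π * t))⁻¹ := by
      have h2 : √(4 * π * t) ≤ 4 * √t := by
        have h3 : √(4 * π * t) ≤ √(4 ^ 2 * t) := by
          apply Real.sqrt_le_sqrt
          nlinarith [Real.pi_le_four]
        have h4 : √(4 ^ 2 * t) = 4 * √t := by
          rw [Real.sqrt_mul (by norm_num) t, Real.sqrt_sq (by norm_num)]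
        rwa [h4] at h3
      have h3 : 0 < √(4 * π * t) := Real.sqrt_pos.2 (by positivity)
      have h4 := inv_anti₀ h3 h2
      rw [mul_inv] at h4
      linarith
    have h5 : 7 / 8 ≤ Real.exp (-(1 - Y) ^ 2 / (4 * t)) := by
      have h6 := Real.add_one_le_exp (-(1 - Y) ^ 2 / (4 * t))
      have h7 : (1 - Y) ^ 2 / (4 * t) ≤ 1 / 8 := by
        rw [div_le_div_iff₀ (by positivity) (by norm_num)]
        have : (1 - Y) ^ 2 ≤ 1 := by nlinarith
        linarith
      have h8 : -(1 - Y) ^ 2 / (4 * t) = -((1 - Y) ^ 2 / (4 * t)) := by ring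
      rw [h8] at h6 ⊢
      linarith
    calc 7 / 32 * (√t)⁻¹ = (1 / 4 * (√t)⁻¹) * (7 / 8) := by ring
      _ ≤ (√(4 * π * t))⁻¹ * Real.exp (-(1 - Y) ^ 2 / (4 * t)) := by gcongr
  have g2 : 1 / 4 * t⁻¹ ≤ 1 - Real.exp (-(Y / t)) := by
    have hu0 : 0 < Y / t := by positivity
    have hu1 : Y / t ≤ 1 := by rw [div_le_one ht0]; linarith
    have h1 := Real.add_one_le_exp (Y / t)
    have h2 : Real.exp (-(Y / t)) ≤ 1 / (1 + Y / t) := by
      rw [Real.exp_neg, inv_eq_one_div]
      exact one_div_le_one_div_of_le (by positivity) (by linarith)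
    have h3 : Y / t / 2 ≤ 1 - 1 / (1 + Y / t) := by
      rw [le_sub_iff_add_le, ← le_sub_iff_add_le', div_le_iff₀ (by positivity)]
      nlinarith
    have h4 : 1 / 4 * t⁻¹ ≤ Y / t / 2 := by
      rw [div_eq_mul_inv Y t]
      have : 0 < t⁻¹ := inv_pos.2 ht0
      nlinarith
    linarith
  have p1 : 0 ≤ 1 / 4 * t⁻¹ := by positivity
  have p2 : 0 ≤ 7 / 32 * (√t)⁻¹ := by positivity
  calc 1 / 64 * (t⁻¹ * (√t)⁻¹) ≤ 1 / 2 * ((7 / 32 * (√t)⁻¹) * (1 / 4 * t⁻¹)) := by
        have : 0 ≤ t⁻¹ * (√t)⁻¹ := by positivity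
        nlinarith
    _ ≤ Y * (gE (1 - Y) t * (1 - Real.exp (-(Y / t)))) :=
        mul_le_mul e1 (mul_le_mul g1 g2 p1 (gE_pos _ ht0).le) (by positivity) (by positivity)

lemma kp_tent_lower {t : ℝ} (ht : 2 ≤ t) :
    1 / 64 * (t⁻¹ * (√t)⁻¹) * ∫ y, tent y ≤ ∫ y, kp 0 y t * tent y := by
  have ht0 : 0 < t := by linarith
  rw [← integral_const_mul]
  have hfi : Integrable tent := tent_cont.integrable_of_hasCompactSupport tent_supp
  have hi : Integrable (fun y => kp 0 y t * tent y) := by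
    have := kp_data.c.comp (f := fun y : ℝ => (0, y, t)) (s := univ) (by fun_prop)
      (fun y _ => ht0)
    exact ((continuousOn_univ.1 this).mul tent_cont).integrable_of_hasCompactSupport
      tent_supp.mul_left
  apply integral_mono (hfi.const_mul _) hi
  intro y
  by_cases hy : |y| ≤ 1 / 2
  · exact mul_le_mul_of_nonneg_right (kp_lower hy ht) (tent_nonneg y)
  · simp only
    rw [tent_zero (not_le.1 hy).le]; simp

end Pool.Agent.W799.SRL
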