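import Pool.Agent.W799.SRLDefs

set_option autoImplicit false

open MeasureTheory Set Filter Topology
open scoped ContDiff Manifold

namespace Pool.Agent.W799.SRL

/-- a smooth function trapped between step functions -/
lemma exists_profile (α ℓ : ℕ → ℝ) (hα : ∀ n, 0 < α n) (hα1 : ∀ n, α n ≤ 1) (hanti : Antitone α)
    (hℓ : ∀ n, 0 < ℓ n) (hℓ1 : ∀ n, ℓ n ≤ 1) :
    ∃ a : ℝ → ℝ, ContDiff ℝ ∞ a ∧ (∀ x, 0 < a x) ∧ (∀ x, a x ≤ 1) ∧
      (∀ (n : ℕ) (x : ℝ), |x| ≤ n → α n ≤ a x) ∧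
      (∀ (n : ℕ) (x : ℝ), n + ℓ n ≤ |x| → a x ≤ α (n + 1)) := by
  let t : ℝ → Set ℝ := fun x => {v | 0 < v ∧ v ≤ 1 ∧ (∀ n : ℕ, |x| ≤ n → α n ≤ v) ∧
    (∀ n : ℕ, n + ℓ n ≤ |x| → v ≤ α (n + 1))}
  have ht : ∀ x, Convex ℝ (t x) := by
    intro x
    have : t x = Ioi 0 ∩ (Iic 1 ∩ ((⋂ (n : ℕ) (_ : |x| ≤ n), Ici (α n)) ∩
        (⋂ (n : ℕ) (_ : n + ℓ n ≤ |x|), Iic (α (n + 1))))) := by
      ext v; simp [t]
    rw [this]
    refine (convex_Ioi 0).inter ((convex_Iic 1).inter (Convex.inter ?_ ?_))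
    · exact convex_iInter fun n => convex_iInter fun _ => convex_Ici _
    · exact convex_iInter fun n => convex_iInter fun _ => convex_Iic _
  have Hloc : ∀ x : ℝ, ∃ c : ℝ, ∀ᶠ y in 𝓝 x, c ∈ t y := by
    intro x
    obtain ⟨m, hm1, hm2⟩ : ∃ m : ℕ, (m : ℝ) - 1 < |x| ∧ |x| ≤ m :=
      ⟨⌈|x|⌉₊, by linarith [Nat.ceil_lt_add_one (abs_nonneg x)], Nat.le_ceil _⟩
    refine ⟨α m, ?_⟩
    have h1 : ∀ᶠ y in 𝓝 x, (m : ℝ) - 1 < |y| := continuous_abs.continuousAt.eventually_const_lt hm1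
    have h2 : ∀ᶠ y in 𝓝 x, |y| < m + ℓ m :=
      continuous_abs.continuousAt.eventually_lt_const (by linarith [hℓ m])
    filter_upwards [h1, h2] with y hy1 hy2
    refine ⟨hα m, hα1 m, fun n hn => hanti ?_, fun n hn => hanti ?_⟩
    · have : (m : ℝ) < n + 1 := by linarith
      exact_mod_cast Nat.lt_succ_iff.1 (by exact_mod_cast this)
    · by_contra hcon
      push Not at hcon
      have hmn : m ≤ n := by omega
      rcases eq_or_lt_of_le hmn with h | h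
      · subst h; linarith
      · have : (m : ℝ) + 1 ≤ n := by exact_mod_cast h
        linarith [hℓ n, hℓ1 m]
  obtain ⟨g, hg⟩ := exists_contMDiffMap_forall_mem_convex_of_local_const (n := ⊤) 𝓘(ℝ, ℝ) ht Hloc
  refine ⟨g, ?_, fun x => (hg x).1, fun x => (hg x).2.1, fun n x => (hg x).2.2.1 n,
    fun n x => (hg x).2.2.2 n⟩
  exact g.contMDiff.contDiff

/-- choice of the parameters -/
lemma exists_params : ∃ (α ℓ t : ℕ → ℝ), (∀ n, 0 < α n) ∧ (∀ n, α n ≤ 1) ∧ Antitone α ∧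
    (∀ n, 0 < ℓ n) ∧ (∀ n, ℓ n ≤ 1) ∧ (∀ n : ℕ, (n : ℝ) + 2 ≤ t n) ∧
    (∀ n : ℕ, (t n) ^ 2 * Real.exp (-(α n / ((n : ℝ) + 2) ^ 2 * t n)) ≤ 1) ∧
    (∀ n, ℓ n = 1 / (5 * t n ^ 4)) ∧ (∀ n, α (n + 1) ≤ ℓ n ^ 2 / (4 * t n ^ 3)) := by
  have hchoice : ∀ (j : ℕ) (α : ℝ), ∃ t : ℝ, (j : ℝ) + 2 ≤ t ∧
      (0 < α → t ^ 2 * Real.exp (-(α / (j + 2) ^ 2 * t)) ≤ 1) := by
    intro j α
    by_cases hα : 0 < α
    · have hb : 0 < α / ((j : ℝ) + 2) ^ 2 := by positivity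
      have h1 := tendsto_rpow_mul_exp_neg_mul_atTop_nhds_zero 2 _ hb
      obtain ⟨t, ht1, ht2⟩ := ((h1.eventually_lt_const one_pos).and
        (eventually_ge_atTop ((j : ℝ) + 2))).exists
      refine ⟨t, ht2, fun _ => ?_⟩
      have : t ^ (2:ℝ) = t ^ 2 := by norm_num
      rw [this] at ht1
      have h3 : -(α / ((j : ℝ) + 2) ^ 2 * t) = -(α / ((j : ℝ) + 2) ^ 2) * t := by ring
      rw [h3]; exact ht1.le
    · exact ⟨j + 2, le_rfl, fun h => absurd h hα⟩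
  choose tt htt1 htt2 using hchoice
  let α : ℕ → ℝ := fun n => Nat.rec 1
    (fun n αn => min αn ((1 / (5 * (tt n αn) ^ 4)) ^ 2 / (4 * (tt n αn) ^ 3))) n
  have hαs : ∀ n, α (n + 1) = min (α n) ((1 / (5 * (tt n (α n)) ^ 4)) ^ 2 / (4 * (tt n (α n)) ^ 3)) :=
    fun n => rfl
  have ht2 : ∀ n, (2:ℝ) ≤ tt n (α n) := fun n => by
    have := htt1 n (α n); have : (0:ℝ) ≤ n := Nat.cast_nonneg n; linarith
  have hpos : ∀ n, 0 < α n := by
    intro n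
    induction n with
    | zero => exact one_pos
    | succ n ih =>
      rw [hαs]
      have := ht2 n
      exact lt_min ih (by positivity)
  have hanti : Antitone α := antitone_nat_of_succ_le fun n => by rw [hαs]; exact min_le_left _ _
  refine ⟨α, fun n => 1 / (5 * (tt n (α n)) ^ 4), fun n => tt n (α n), hpos,
    fun n => hanti (Nat.zero_le n), hanti, fun n => ?_, fun n => ?_, fun n => htt1 n _,
    fun n => htt2 n _ (hpos n), fun n => rfl, fun n => ?_⟩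
  · have := ht2 n; positivity
  · have := ht2 n
    rw [div_le_one (by positivity)]
    have : (1:ℝ) ≤ (tt n (α n)) ^ 4 := one_le_pow₀ (by linarith)
    linarith
  · rw [hαs]; exact min_le_right _ _

end Pool.Agent.W799.SRL
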